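import Mathlib

/-! Common kernel vectors of a commuting linear family of semisimple operators. -/

set_option linter.unusedSectionVars false

namespace Pool.Agent.Helper26.AF

section

variable {k : Type} [Field k] [Infinite k]
variable {V : Type} [AddCommGroup V] [Module k V] [FiniteDimensional k V]

lemma exists_generic (S₁ S₂ : Module.End k V) (P : Submodule k V)
    (h₁ : ∀ v ∈ P, S₁ v ∈ P) (h₂ : ∀ v ∈ P, S₂ v ∈ P) (hcomm : S₁ * S₂ = S₂ * S₁)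
    (hss : ∀ v ∈ P, S₁ (S₁ v) = 0 → S₁ v = 0) :
    ∃ c : k, ∀ v ∈ P, (S₁ + c • S₂) v = 0 → S₁ v = 0 ∧ S₂ v = 0 := by
  classical
  let Q : Submodule k V := P.map S₁
  have hQP : Q ≤ P := by
    rintro _ ⟨v, hv, rfl⟩
    exact h₁ v hv
  have hQ₁ : ∀ v ∈ Q, S₁ v ∈ Q := fun v hv => ⟨v, hQP hv, rfl⟩
  have hQ₂ : ∀ v ∈ Q, S₂ v ∈ Q := by
    rintro _ ⟨v, hv, rfl⟩
    exact ⟨S₂ v, h₂ v hv, LinearMap.congr_fun hcomm v⟩
  let R₁ : Module.End k Q := S₁.restrict hQ₁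
  let R₂ : Module.End k Q := S₂.restrict hQ₂
  have hinj : Function.Injective R₁ := by
    rw [injective_iff_map_eq_zero]
    rintro ⟨_, ⟨v, hv, rfl⟩⟩ h
    have h' : S₁ (S₁ v) = 0 := congrArg Subtype.val h
    exact Subtype.ext (hss v hv h')
  let E : Q ≃ₗ[k] Q := LinearEquiv.ofInjectiveEndo R₁ hinj
  let T : Module.End k Q := E.symm.toLinearMap ∘ₗ R₂
  have hfin : Set.Finite ({μ | T.HasEigenvalue μ} ∪ {0}) :=
    (Module.End.finite_hasEigenvalue T).union (Set.finite_singleton 0)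
  obtain ⟨μ, hμ⟩ := hfin.exists_notMem
  simp only [Set.mem_union, Set.mem_setOf_eq, Set.mem_singleton_iff, not_or] at hμ
  obtain ⟨hμ1, hμ0⟩ := hμ
  refine ⟨-μ⁻¹, fun v hv h => ?_⟩
  have key : S₁ v = 0 := by
    by_contra hne
    apply hμ1
    let u : Q := ⟨S₁ v, v, hv, rfl⟩
    have hu : u ≠ 0 := fun h => hne (congrArg Subtype.val h)
    have h3 : R₁ u = μ⁻¹ • R₂ u := by
      apply Subtype.ext
      change S₁ (S₁ v) = μ⁻¹ • S₂ (S₁ v)
      have h4 : S₁ ((S₁ + (-μ⁻¹) • S₂) v) = 0 := by rw [h, map_zero]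
      have h5 : S₁ (S₂ v) = S₂ (S₁ v) := LinearMap.congr_fun hcomm v
      simp only [LinearMap.add_apply, LinearMap.smul_apply, map_add, map_smul, h5] at h4
      rw [neg_smul, ← sub_eq_add_neg, sub_eq_zero] at h4
      exact h4
    have h6 : T u = μ • u := by
      change E.symm (R₂ u) = μ • u
      rw [LinearEquiv.symm_apply_eq, map_smul]
      change R₂ u = μ • R₁ u
      rw [h3, smul_smul, mul_inv_cancel₀ hμ0, one_smul]
    exact Module.End.hasEigenvalue_of_hasEigenvector ⟨Module.End.mem_eigenspace_iff.2 h6, hu⟩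
  refine ⟨key, ?_⟩
  rw [LinearMap.add_apply, key, zero_add, LinearMap.smul_apply] at h
  exact (smul_eq_zero.1 h).resolve_left (neg_ne_zero.2 (inv_ne_zero hμ0))

/-- common kernel vector -/
theorem common_kernel {C : Type} [AddCommGroup C] [Module k C] (S : C →ₗ[k] Module.End k V)
    (P : Submodule k V) (hP : ∀ c, ∀ v ∈ P, S c v ∈ P) (hcomm : ∀ c d, S c * S d = S d * S c)
    (hss : ∀ c, ∀ v ∈ P, S c (S c v) = 0 → S c v = 0)
    (hex : ∀ c, ∃ v ∈ P, v ≠ 0 ∧ S c v = 0) :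
    ∃ v ∈ P, v ≠ 0 ∧ ∀ c, S c v = 0 := by
  classical
  let K : C → Submodule k V := fun c => P ⊓ LinearMap.ker (S c)
  obtain ⟨c₁, hc₁⟩ : ∃ c₁, ∀ c, Module.finrank k (K c₁) ≤ Module.finrank k (K c) := by
    have hne : ∃ n, ∃ c, Module.finrank k (K c) = n := ⟨_, 0, rfl⟩
    obtain ⟨c₁, h1⟩ := Nat.find_spec hne
    refine ⟨c₁, fun c => ?_⟩
    rw [h1]
    exact Nat.find_min' hne ⟨c, rfl⟩
  obtain ⟨v, hvP, hv0, hv⟩ := hex c₁
  refine ⟨v, hvP, hv0, fun c₂ => ?_⟩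
  obtain ⟨a, ha⟩ := exists_generic (S c₁) (S c₂) P (hP c₁) (hP c₂) (hcomm c₁ c₂) (hss c₁)
  have hle : K (c₁ + a • c₂) ≤ K c₁ ⊓ K c₂ := by
    rintro w ⟨hwP, hw⟩
    have h1 : (S c₁ + a • S c₂) w = 0 := by
      have : S (c₁ + a • c₂) w = 0 := hw
      rwa [map_add, map_smul] at this
    obtain ⟨h2, h3⟩ := ha w hwP h1
    exact ⟨⟨hwP, h2⟩, ⟨hwP, h3⟩⟩
  have hfin : Module.finrank k (K c₁) ≤ Module.finrank k (K c₁ ⊓ K c₂ : Submodule k V) :=
    (hc₁ _).trans (Submodule.finrank_mono hle)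
  have heq : (K c₁ ⊓ K c₂ : Submodule k V) = K c₁ :=
    Submodule.eq_of_le_of_finrank_le inf_le_left hfin
  have hmem : v ∈ (K c₁ ⊓ K c₂ : Submodule k V) := by
    rw [heq]
    exact ⟨hvP, hv⟩
  exact hmem.2.2

end

end Pool.Agent.Helper26.AF
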