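import Pool.Agent.Helper26.AF.Mult

/-! A simple abelian variety over a totally real field whose `ℓ`-adic representation contains the
one attached to `f` is `A_f`. -/

open scoped TensorProduct

set_option linter.unusedSectionVars false

namespace Pool.Agent.Helper26.AF

variable {k : Type} [Field k] [CharZero k] [IsAlgClosed k] [TopologicalSpace k]
  [IsTopologicalRing k] [T2Space k]
variable {G : Type} [Group G] [TopologicalSpace G] {X : GaloisData G} {F : OpenSubgroup G}

/-- continuity of traces -/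
lemma continuous_trace {Γ V : Type} [Group Γ] [TopologicalSpace Γ] [AddCommGroup V] [Module k V]
    [FiniteDimensional k V] {ρ : Representation k Γ V} (hρ : ContRep ρ) (e : Module.End k V) :
    Continuous fun g => LinearMap.trace k V (ρ g * e) := by
  let b := Module.finBasis k V
  have h : (fun g => LinearMap.trace k V (ρ g * e)) =
      fun g => ∑ i, b.coord i (ρ g (e (b i))) := by
    funext g
    rw [LinearMap.trace_eq_matrix_trace k b, Matrix.trace]
    refine Finset.sum_congr rfl fun i _ => ?_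
    rw [Matrix.diag_apply, LinearMap.toMatrix_apply]
    rfl
  rw [h]
  exact continuous_finsetSum _ fun i _ => hρ _ _

/-- Chebotarev -/
lemma agree {F₁ F₂ : F → k} (h₁ : Continuous F₁) (h₂ : Continuous F₂) {S : Set (X.Pl F)}
    (hS : S.Finite) (h : ∀ v ∉ S, ∀ φ ∈ X.frob F v, F₁ φ = F₂ φ) : F₁ = F₂ := by
  refine Continuous.ext_on (X.chebotarev F S hS) h₁ h₂ ?_
  intro φ hφ
  simp only [Set.mem_iUnion] at hφ
  obtain ⟨v, hv, hφ⟩ := hφ
  exact h v hv φ hφ

lemma trace_of_charpoly {C : (Fin 2 → k) →ₗ[k] (Fin 2 → k)} {t n : k}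
    (h : C.charpoly = Polynomial.X ^ 2 - Polynomial.C t * Polynomial.X + Polynomial.C n) :
    LinearMap.trace k _ C = t := by
  have h1 : LinearMap.trace k _ C = (LinearMap.toMatrix (Pi.basisFun k (Fin 2))
    (Pi.basisFun k (Fin 2)) C).trace := LinearMap.trace_eq_matrix_trace k _ _
  rw [h1, Matrix.trace_eq_neg_charpoly_coeff, LinearMap.charpoly_toMatrix, h]
  simp

lemma Newform.trace_frob (f : Newform k X F) (τ : f.M →+* k) {v} (hv : v ∉ f.bad) {φ}
    (hφ : φ ∈ X.frob F v) : LinearMap.trace k _ (f.rep τ φ) = τ (f.a v) :=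
  trace_of_charpoly (f.charpoly_frob τ v hv φ hφ)

lemma Newform.continuous_trace (f : Newform k X F) (τ : f.M →+* k) :
    Continuous fun g => LinearMap.trace k _ (f.rep τ g) := by
  have := Pool.Agent.Helper26.AF.continuous_trace (f.continuous τ) 1
  simpa using this

/-- conjugates with the same traces are equal -/
lemma Newform.ext_trace (f : Newform k X F) {τ τ' : f.M →+* k}
    (h : ∀ g, LinearMap.trace k _ (f.rep τ g) = LinearMap.trace k _ (f.rep τ' g)) : τ = τ' := by
  have h1 : ∀ v ∉ f.bad, τ (f.a v) = τ' (f.a v) := by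
    intro v hv
    obtain ⟨φ, hφ⟩ := X.frob_nonempty F v
    rw [← f.trace_frob τ hv hφ, ← f.trace_frob τ' hv hφ, h]
  have h2 : τ.toRatAlgHom = τ'.toRatAlgHom := by
    have : (IntermediateField.adjoin ℚ (f.a '' f.badᶜ)).toSubalgebra ≤
        AlgHom.equalizer τ.toRatAlgHom τ'.toRatAlgHom := by
      intro x hx
      have hx' : x ∈ IntermediateField.adjoin ℚ (f.a '' f.badᶜ) := hx
      clear hx
      induction hx' using IntermediateField.adjoin_induction with
      | mem x hx =>
        obtain ⟨v, hv, rfl⟩ := hx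
        exact h1 v hv
      | algebraMap x => exact AlgHom.map_algebraMap _ _ |>.trans (AlgHom.map_algebraMap _ _).symm
      | add x y hx hy ihx ihy => exact Subalgebra.add_mem _ ihx ihy
      | inv x hx ih =>
        rw [AlgHom.mem_equalizer] at ih ⊢
        rw [map_inv₀, map_inv₀, ih]
      | mul x y hx hy ihx ihy => exact Subalgebra.mul_mem _ ihx ihy
    rw [f.generated] at this
    apply AlgHom.ext
    intro x
    exact this (show x ∈ (⊤ : IntermediateField ℚ f.M).toSubalgebra from trivial)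
  ext x
  exact congrArg (fun g => g x) h2

/-- the coefficient field is generated by the eigenvalues outside any finite set -/
lemma Newform.generated_finite (f : Newform k X F) {S : Set (X.Pl F)} (hS : S.Finite)
    (hb : f.bad ⊆ S) : IntermediateField.adjoin ℚ (f.a '' Sᶜ) = ⊤ := by
  set N := IntermediateField.adjoin ℚ (f.a '' Sᶜ) with hN
  have key : ∀ τ τ' : f.M →+* k, (∀ x ∈ N, τ x = τ' x) → τ = τ' := by
    intro τ τ' h
    apply f.ext_trace
    have : (fun g => LinearMap.trace k _ (f.rep τ g)) =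
        fun g => LinearMap.trace k _ (f.rep τ' g) := by
      refine agree (f.continuous_trace τ) (f.continuous_trace τ') hS ?_
      intro v hv φ hφ
      rw [f.trace_frob τ (fun h => hv (hb h)) hφ, f.trace_frob τ' (fun h => hv (hb h)) hφ]
      exact h _ (IntermediateField.subset_adjoin _ _ ⟨v, hv, rfl⟩)
    exact fun g => congrFun this g
  rw [← IntermediateField.finrank_eq_one_iff_eq_top]
  -- choose an embedding of M
  obtain ⟨τ0⟩ : Nonempty (f.M →+* k) := inferInstance
  let : Algebra N k := (τ0.comp (algebraMap N f.M)).toAlgebra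
  rw [← AlgHom.card N f.M k, Fintype.card_eq_one_iff]
  refine ⟨{ τ0 with commutes' := fun x => rfl }, fun τ => ?_⟩
  apply AlgHom.ext
  intro x
  have := key (τ : f.M →+* k) τ0 (fun x hx => τ.commutes ⟨x, hx⟩)
  exact congrArg (fun g : f.M →+* k => g x) this

section core

variable {A : AbVar k X F} {f : Newform k X F}
variable {E : Type} [Field E] [Algebra ℚ E] [FiniteDimensional ℚ E]

/-- the action of an algebra of endomorphisms on the Tate module -/
noncomputable def theta (A : AbVar k X F) {E : Type} [Field E] (ι : E →+* Module.End ℚ A.H) :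
    E →+* Module.End k (k ⊗[ℚ] A.H) :=
  (Module.End.baseChangeHom ℚ k A.H).toRingHom.comp ι

/-- the projector to the part of the Tate module where the field acts through `σ` -/
noncomputable def part (A : AbVar k X F) {E : Type} [Field E] [Algebra ℚ E]
    [FiniteDimensional ℚ E] (ι : E →+* Module.End ℚ A.H) (σ : E →ₐ[ℚ] k) :
    Module.End k (k ⊗[ℚ] A.H) :=
  idem (A := Module.End k (k ⊗[ℚ] A.H)) (theta A ι) σ

lemma endK_eq {ι : E →+* Module.End ℚ A.H} (hι : Set.range ι = A.endo) :
    EndK A = Submodule.span k (Set.range (theta A ι)) := by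
  unfold EndK
  congr 1
  rw [← hι]
  ext T
  constructor
  · rintro ⟨_, ⟨x, rfl⟩, rfl⟩
    exact ⟨x, rfl⟩
  · rintro ⟨x, rfl⟩
    exact ⟨ι x, ⟨x, rfl⟩, rfl⟩

lemma theta_comm (hA : A.Good) {ι : E →+* Module.End ℚ A.H} (hι : Set.range ι = A.endo) (x : E)
    (g : F) : theta A ι x * A.gal g = A.gal g * theta A ι x :=
  hA.comm _ ⟨ι x, by rw [← hι]; exact ⟨x, rfl⟩, rfl⟩ g

lemma idem_equivar (hA : A.Good) {ι : E →+* Module.End ℚ A.H} (hι : Set.range ι = A.endo)
    (σ : E →ₐ[ℚ] k) : Equivar A.gal A.gal (part A ι σ) := by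
  intro g
  change part A ι σ * A.gal g = A.gal g * part A ι σ
  exact (commute_of_mem (k := k) (A := Module.End k (k ⊗[ℚ] A.H)) (theta A ι) (idem_mem _ σ)
    (fun x => (theta_comm hA hι x g).symm)).symm

/-- the idempotent of `σ` fixes vectors on which the field acts through `σ` -/
lemma idem_fix {ι : E →+* Module.End ℚ A.H} {σ : E →ₐ[ℚ] k} {v : k ⊗[ℚ] A.H}
    (hv : ∀ x, theta A ι x v = σ x • v) : part A ι σ v = v := by
  classical
  have h0 : ∀ σ' : E →ₐ[ℚ] k, σ' ≠ σ → part A ι σ' v = 0 := by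
    intro σ' hne
    obtain ⟨x, hx⟩ : ∃ x, σ' x ≠ σ x := by
      by_contra hcon
      push Not at hcon
      exact hne (AlgHom.ext hcon)
    have h1 : theta A ι x (part A ι σ' v) = σ' x • part A ι σ' v := by
      rw [← Module.End.mul_apply, part, mul_idem, LinearMap.smul_apply]
    have h2 : theta A ι x (part A ι σ' v) = σ x • part A ι σ' v := by
      have : theta A ι x * part A ι σ' = part A ι σ' * theta A ι x := by
        refine commute_of_mem (k := k) (A := Module.End k (k ⊗[ℚ] A.H)) (theta A ι)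
          (idem_mem _ σ') fun y => ?_
        rw [← map_mul, ← map_mul, mul_comm]
      rw [← Module.End.mul_apply, this, Module.End.mul_apply, hv, map_smul]
    have h3 : (σ' x - σ x) • part A ι σ' v = 0 := sub_smul_eq_zero (h1.symm.trans h2)
    rcases smul_eq_zero.1 h3 with h4 | h4
    · exact absurd (sub_eq_zero.1 h4) hx
    · exact h4
  have h1 : ((∑ σ' : E →ₐ[ℚ] k, part A ι σ') : Module.End k (k ⊗[ℚ] A.H)) v = v := by
    unfold part
    rw [sum_idem]; rfl
  rw [LinearMap.sum_apply, Finset.sum_eq_single σ (fun σ' _ h => h0 σ' h)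
    (fun h => absurd (Finset.mem_univ _) h)] at h1
  exact h1

/-- The `σ`-part of the Tate module is the image of `ψ`. -/
lemma part_eq (hA : A.Good) {ι : E →+* Module.End ℚ A.H} (hι : Set.range ι = A.endo)
    {σ : E →ₐ[ℚ] k} {ρ : Representation k F (Fin 2 → k)} (hρ : ρ.IsIrreducible)
    {ψ : (Fin 2 → k) →ₗ[k] (k ⊗[ℚ] A.H)} (hψ : Equivar ρ A.gal ψ) (h0 : ψ ≠ 0)
    (hfix : ∀ w, part A ι σ (ψ w) = ψ w) :
    ∃ p : (k ⊗[ℚ] A.H) →ₗ[k] (Fin 2 → k), Equivar A.gal ρ p ∧ (∀ w, p (ψ w) = w) ∧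
      (∀ v, ψ (p (part A ι σ v)) = part A ι σ v) ∧
      ∀ g, LinearMap.trace k _ (A.gal g * part A ι σ) = LinearMap.trace k _ (ρ g) := by
  have hi := irr_injective hρ hψ h0
  obtain ⟨p, hp, hpψ⟩ := exists_leftInv hA.semisimple hψ hi
  have hpψ' : ∀ w, p (ψ w) = w := fun w => LinearMap.congr_fun hpψ w
  have hq : Equivar A.gal A.gal (LinearMap.id - ψ ∘ₗ p) := by
    intro g
    apply LinearMap.ext
    intro v
    simp [hp.apply, hψ.apply]
  have hqm := equivar_mem_endK A hA hq
  rw [endK_eq hι] at hqm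
  obtain ⟨s, hs⟩ := exists_scalar (A := Module.End k (k ⊗[ℚ] A.H)) (theta A ι) σ hqm
  change _ * part A ι σ = s • part A ι σ at hs
  have hs0 : s = 0 := by
    obtain ⟨w, hw⟩ : ∃ w, ψ w ≠ 0 := by
      by_contra hcon
      push Not at hcon
      exact h0 (LinearMap.ext hcon)
    have := LinearMap.congr_fun hs (ψ w)
    rw [Module.End.mul_apply, LinearMap.smul_apply, hfix] at this
    simp only [LinearMap.sub_apply, LinearMap.comp_apply, hpψ', LinearMap.id_apply,
      sub_self] at this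
    rcases smul_eq_zero.1 this.symm with h | h
    · exact h
    · exact absurd h hw
  have hcov : ∀ v, ψ (p (part A ι σ v)) = part A ι σ v := by
    intro v
    have := LinearMap.congr_fun hs v
    rw [hs0, zero_smul, Module.End.mul_apply] at this
    simp only [LinearMap.sub_apply, LinearMap.comp_apply, LinearMap.id_apply,
      LinearMap.zero_apply] at this
    exact (sub_eq_zero.1 this).symm
  refine ⟨p, hp, hpψ', hcov, ?_⟩
  intro g
  have h1 : A.gal g * part A ι σ = ψ ∘ₗ (ρ g ∘ₗ p ∘ₗ part A ι σ) := by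
    apply LinearMap.ext
    intro v
    simp only [Module.End.mul_apply, LinearMap.comp_apply]
    rw [hψ.apply, hcov]
  have h2 : ρ g = (ρ g ∘ₗ p ∘ₗ part A ι σ) ∘ₗ ψ := by
    apply LinearMap.ext
    intro w
    simp only [LinearMap.comp_apply]
    rw [hfix, hpψ']
  rw [h1, LinearMap.trace_comp_comm', ← h2]

/-- rationality of the traces on the parts -/
lemma exists_trace (hA : A.Good) {ι : E →+* Module.End ℚ A.H} (hι : Set.range ι = A.endo)
    {v} (hv : v ∉ A.bad) {φ} (hφ : φ ∈ X.frob F v) :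
    ∃ t : E, ∀ σ : E →ₐ[ℚ] k, LinearMap.trace k _ (A.gal φ * part A ι σ) = σ t := by
  have h : ∀ i, ∃ q : ℚ, LinearMap.trace k _ (theta A ι (bas E i) * A.gal φ) = q := fun i =>
    hA.weil v hv φ hφ _ ⟨ι (bas E i), by rw [← hι]; exact ⟨_, rfl⟩, rfl⟩
  choose q hq using h
  refine ⟨∑ i, q i • dbas E i, fun σ => ?_⟩
  rw [map_sum]
  unfold part idem
  rw [Finset.mul_sum, map_sum]
  refine Finset.sum_congr rfl fun i _ => ?_
  rw [mul_smul_comm, map_smul, ← theta_comm hA hι, hq, map_smul, smul_eq_mul, mul_comm,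
    Algebra.smul_def]
  simp

lemma part_part_ne {ι : E →+* Module.End ℚ A.H} {σ σ' : E →ₐ[ℚ] k} (h : σ ≠ σ')
    (v : k ⊗[ℚ] A.H) : part A ι σ (part A ι σ' v) = 0 := by
  have := idem_mul_idem (A := Module.End k (k ⊗[ℚ] A.H)) (theta A ι) h
  exact LinearMap.congr_fun this v

lemma part_idem {ι : E →+* Module.End ℚ A.H} (σ : E →ₐ[ℚ] k) :
    part A ι σ * part A ι σ = part A ι σ :=
  idem_idem (A := Module.End k (k ⊗[ℚ] A.H)) (theta A ι) σ

lemma sum_part (ι : E →+* Module.End ℚ A.H) (v : k ⊗[ℚ] A.H) :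
    ∑ σ : E →ₐ[ℚ] k, part A ι σ v = v := by
  have := sum_idem (k := k) (A := Module.End k (k ⊗[ℚ] A.H)) (theta A ι)
  have h := LinearMap.congr_fun this v
  rw [LinearMap.sum_apply] at h
  exact h

/-- the core of the argument -/
theorem core (hA : A.Good) {ι : E →+* Module.End ℚ A.H} (hι : Set.range ι = A.endo)
    {χ : E →ₐ[ℚ] k} {τ₀ : f.M →+* k} {φ₀ : (Fin 2 → k) →ₗ[k] (k ⊗[ℚ] A.H)}
    (hφ₀ : Equivar (f.rep τ₀) A.gal φ₀) (h0 : φ₀ ≠ 0)
    (hχ : ∀ x w, theta A ι x (φ₀ w) = χ x • φ₀ w) : RepIso A.gal (sumRep f.rep) := by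
  classical
  -- the bad places
  set S : Set (X.Pl F) := A.bad ∪ f.bad with hS
  have hSfin : S.Finite := hA.bad_finite.union f.bad_finite
  -- the χ-part
  obtain ⟨p₀, -, -, -, htr₀⟩ := part_eq hA hι (f.irreducible τ₀) hφ₀ h0
    (fun w => idem_fix (σ := χ) (fun x => hχ x w))
  -- τ₀(a v) lies in the image of χ
  have hmem : ∀ v ∉ S, τ₀ (f.a v) ∈ χ.fieldRange := by
    intro v hv
    have hv1 : v ∉ A.bad := fun h => hv (Or.inl h)
    have hv2 : v ∉ f.bad := fun h => hv (Or.inr h)
    obtain ⟨φ, hφ⟩ := X.frob_nonempty F v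
    obtain ⟨t, ht⟩ := exists_trace hA hι hv1 hφ
    refine ⟨t, ?_⟩
    change χ t = _
    rw [← ht χ, htr₀, f.trace_frob τ₀ hv2 hφ]
  have hall : ∀ m : f.M, τ₀.toRatAlgHom m ∈ χ.range := by
    have h1 : IntermediateField.adjoin ℚ (f.a '' Sᶜ) ≤ χ.fieldRange.comap τ₀.toRatAlgHom := by
      rw [IntermediateField.adjoin_le_iff]
      rintro _ ⟨v, hv, rfl⟩
      exact hmem v hv
    rw [f.generated_finite hSfin Set.subset_union_right] at h1
    intro m
    exact h1 (show m ∈ (⊤ : IntermediateField ℚ f.M) from trivial)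
  -- the embedding of the coefficient field
  let j : f.M →ₐ[ℚ] E := (AlgEquiv.ofInjective χ χ.injective).symm.toAlgHom.comp
    (τ₀.toRatAlgHom.codRestrict χ.range hall)
  have hj : ∀ m, χ (j m) = τ₀ m := by
    intro m
    have : (AlgEquiv.ofInjective χ χ.injective) (j m) =
      (τ₀.toRatAlgHom.codRestrict χ.range hall) m := AlgEquiv.apply_symm_apply _ _
    exact congrArg Subtype.val this
  let jr : (E →ₐ[ℚ] k) → (f.M →+* k) := fun σ => (σ.comp j : f.M →ₐ[ℚ] k).toRingHom
  have hjr : ∀ σ m, jr σ m = σ (j m) := fun σ m => rfl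
  -- traces on the parts
  have htr : ∀ (σ : E →ₐ[ℚ] k) (g : F), LinearMap.trace k _ (f.rep (jr σ) g) =
      LinearMap.trace k _ (A.gal g * part A ι σ) := by
    intro σ
    have : (fun g => LinearMap.trace k _ (f.rep (jr σ) g)) =
        fun g => LinearMap.trace k _ (A.gal g * part A ι σ) := by
      refine agree (f.continuous_trace _) (continuous_trace hA.continuous _) hSfin ?_
      intro v hv φ hφ
      have hv1 : v ∉ A.bad := fun h => hv (Or.inl h)
      have hv2 : v ∉ f.bad := fun h => hv (Or.inr h)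
      obtain ⟨t, ht⟩ := exists_trace hA hι hv1 hφ
      have h1 : t = j (f.a v) := by
        apply χ.injective
        change χ t = χ (j (f.a v))
        rw [hj, ← ht χ, htr₀, f.trace_frob τ₀ hv2 hφ]
      rw [f.trace_frob _ hv2 hφ, ht σ, h1, hjr]
    exact fun g => congrFun this g
  -- the maps ψ
  have hex : ∀ σ : E →ₐ[ℚ] k, ∃ T : (Fin 2 → k) →ₗ[k] (k ⊗[ℚ] A.H),
      Equivar (f.rep (jr σ)) A.gal T ∧ T ≠ 0 ∧ ∀ w, part A ι σ (T w) = T w := by
    intro σ
    exact brauer_nesbitt_idem (f.irreducible _) hA.semisimple (part_idem σ)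
      (idem_equivar hA hι σ) (htr σ)
  choose ψ hψ hψ0 hψfix using hex
  have hψi : ∀ σ, Function.Injective (ψ σ) := fun σ =>
    irr_injective (f.irreducible _) (hψ σ) (hψ0 σ)
  have hp := fun σ => part_eq hA hι (f.irreducible (jr σ)) (hψ σ) (hψ0 σ) (hψfix σ)
  choose p hpe hpψ hcov _ using hp
  -- σ ↦ σ ∘ j is injective
  have hinj : Function.Injective jr := by
    intro σ σ' h
    by_contra hne
    have hψ' : Equivar (f.rep (jr σ)) A.gal (ψ σ') := by
      have := hψ σ'
      rw [← h] at this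
      exact this
    have hT : Equivar A.gal A.gal (ψ σ' ∘ₗ p σ) := equivar_comp hψ' (hpe σ)
    have hTm := equivar_mem_endK A hA hT
    rw [endK_eq hι] at hTm
    obtain ⟨s, hs⟩ := exists_scalar (A := Module.End k (k ⊗[ℚ] A.H)) (theta A ι) σ hTm
    change _ * part A ι σ = s • part A ι σ at hs
    apply hψ0 σ'
    apply LinearMap.ext
    intro w
    have h1 := LinearMap.congr_fun hs (ψ σ w)
    rw [Module.End.mul_apply, LinearMap.smul_apply, hψfix] at h1
    simp only [LinearMap.comp_apply, hpψ] at h1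
    rw [← hψfix σ' w, h1, map_smul, ← hψfix σ w, part_part_ne (Ne.symm hne)]
    simp
  -- σ ↦ σ ∘ j is surjective
  have hsurj : Function.Surjective jr := by
    intro τ
    let : Algebra f.M E := j.toRingHom.toAlgebra
    let : Algebra f.M k := τ.toAlgebra
    have : IsScalarTower ℚ f.M E := IsScalarTower.of_algebraMap_eq fun x => by
      change algebraMap ℚ E x = j (algebraMap ℚ f.M x)
      simp
    have : Algebra.IsAlgebraic f.M E := Algebra.IsAlgebraic.tower_top (K := ℚ) f.M
    let σ : E →ₐ[f.M] k := IsAlgClosed.lift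
    refine ⟨σ.toRingHom.toRatAlgHom, ?_⟩
    ext m
    exact σ.commutes m
  let e : (E →ₐ[ℚ] k) ≃ (f.M →+* k) := Equiv.ofBijective jr ⟨hinj, hsurj⟩
  -- the comparison map
  let Ψ : ((f.M →+* k) → (Fin 2 → k)) →ₗ[k] (k ⊗[ℚ] A.H) :=
    ∑ σ : E →ₐ[ℚ] k, ψ σ ∘ₗ LinearMap.proj (jr σ)
  have hΨ : ∀ w, Ψ w = ∑ σ : E →ₐ[ℚ] k, ψ σ (w (jr σ)) := by
    intro w
    simp [Ψ, LinearMap.sum_apply]
  have hΨinj : Function.Injective Ψ := by
    rw [injective_iff_map_eq_zero]
    intro w hw
    have h1 : ∀ σ, w (jr σ) = 0 := by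
      intro σ
      have h2 : part A ι σ (Ψ w) = ψ σ (w (jr σ)) := by
        rw [hΨ, map_sum, Finset.sum_eq_single σ]
        · exact hψfix σ _
        · intro σ' _ hne
          rw [← hψfix σ', part_part_ne (Ne.symm hne)]
        · intro h
          exact absurd (Finset.mem_univ _) h
      rw [hw, map_zero] at h2
      exact hψi σ (by rw [← h2, map_zero])
    funext τ
    obtain ⟨σ, rfl⟩ := hsurj τ
    exact h1 σ
  have hΨsurj : Function.Surjective Ψ := by
    intro v
    refine ⟨fun τ => p (e.symm τ) (part A ι (e.symm τ) v), ?_⟩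
    rw [hΨ]
    conv_rhs => rw [← sum_part ι v]
    refine Finset.sum_congr rfl fun σ _ => ?_
    have : e.symm (jr σ) = σ := e.symm_apply_apply σ
    rw [this, hcov]
  let eq : ((f.M →+* k) → (Fin 2 → k)) ≃ₗ[k] (k ⊗[ℚ] A.H) :=
    LinearEquiv.ofBijective Ψ ⟨hΨinj, hΨsurj⟩
  refine ⟨eq.symm, fun g v => ?_⟩
  obtain ⟨w, rfl⟩ := eq.surjective v
  rw [eq.symm_apply_apply, LinearEquiv.symm_apply_eq]
  change A.gal g (Ψ w) = Ψ _
  rw [hΨ, hΨ, map_sum]
  refine Finset.sum_congr rfl fun σ _ => ?_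
  rw [← (hψ σ).apply]
  rfl

end core

/-- A simple abelian variety over `F` whose Tate module contains the representation of `f` is
`A_f`. -/
theorem repIso_of_simple {A : AbVar k X F} (hA : A.Good) (hs : A.IsSimple) (f : Newform k X F)
    {τ₀ : f.M →+* k} {φ₀ : (Fin 2 → k) →ₗ[k] (k ⊗[ℚ] A.H)}
    (hφ₀ : Equivar (f.rep τ₀) A.gal φ₀) (h0 : φ₀ ≠ 0) : RepIso A.gal (sumRep f.rep) := by
  have hc := f.conj_mem
  have hex : ∀ d : A.endo, ∃ c : k,
      (LinearMap.baseChange k (d : Module.End ℚ A.H)) ∘ₗ φ₀ = c • φ₀ := by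
    intro d
    refine mult_one A hA hs hc (f.irreducible τ₀) (f.odd τ₀ hc) hφ₀ ?_ h0
    refine equivar_comp (σ := A.gal) ?_ hφ₀
    intro g
    exact hA.comm _ ⟨d.1, d.2, rfl⟩ g
  choose c hcφ using hex
  have hne : ∃ w, φ₀ w ≠ 0 := by
    by_contra hcon
    push Not at hcon
    exact h0 (LinearMap.ext hcon)
  obtain ⟨w, hw⟩ := hne
  have huniq : ∀ a b : k, a • φ₀ w = b • φ₀ w → a = b := by
    intro a b h
    have := sub_smul_eq_zero h
    rcases smul_eq_zero.1 this with h | h
    · exact sub_eq_zero.1 h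
    · exact absurd h hw
  have hcw : ∀ (d : A.endo) (x), LinearMap.baseChange k (d : Module.End ℚ A.H) (φ₀ x) =
      c d • φ₀ x := fun d x => LinearMap.congr_fun (hcφ d) x
  have hc1 : c 1 = 1 := by
    apply huniq
    rw [← hcw, one_smul, OneMemClass.coe_one, LinearMap.baseChange_one]
    rfl
  have hcmul : ∀ a b, c (a * b) = c a * c b := by
    intro a b
    apply huniq
    rw [← hcw, MulMemClass.coe_mul, LinearMap.baseChange_mul, Module.End.mul_apply, hcw, map_smul,
      hcw, smul_smul, mul_comm]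
  have hc0 : c 0 = 0 := by
    apply huniq
    rw [← hcw, zero_smul, ZeroMemClass.coe_zero, LinearMap.baseChange_zero]
    rfl
  have hcadd : ∀ a b, c (a + b) = c a + c b := by
    intro a b
    apply huniq
    rw [← hcw, AddMemClass.coe_add, LinearMap.baseChange_add, LinearMap.add_apply, hcw, hcw,
      add_smul]
  let χ₀ : A.endo →+* k :=
    { toFun := c
      map_one' := hc1
      map_mul' := hcmul
      map_zero' := hc0
      map_add' := hcadd }
  have hχinj : Function.Injective χ₀ := by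
    rw [injective_iff_map_eq_zero]
    intro d hd
    by_contra hd0
    obtain ⟨e, he, hed⟩ := hs.2 d.1 d.2 (fun h => hd0 (Subtype.ext h))
    have : χ₀ (⟨e, he⟩ * d) = 1 := by
      have : (⟨e, he⟩ * d : A.endo) = 1 := Subtype.ext hed
      rw [this, map_one]
    rw [map_mul, hd, mul_zero] at this
    exact zero_ne_one this
  have := hs.1
  have hF : IsField A.endo := by
    refine ⟨⟨0, 1, ?_⟩, ?_, ?_⟩
    · intro h
      obtain ⟨x, hx⟩ := exists_ne (0 : A.H)
      apply hx
      have : (0 : Module.End ℚ A.H) x = (1 : Module.End ℚ A.H) x :=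
        congrArg (fun d : A.endo => (d : Module.End ℚ A.H) x) h
      simpa using this.symm
    · intro a b
      apply hχinj
      rw [map_mul, map_mul, mul_comm]
    · intro a ha
      obtain ⟨e, he, hed⟩ := hs.2 a.1 a.2 (fun h => ha (Subtype.ext h))
      refine ⟨⟨e, he⟩, ?_⟩
      apply hχinj
      have : χ₀ (⟨e, he⟩ * a) = 1 := by
        have : (⟨e, he⟩ * a : A.endo) = 1 := Subtype.ext hed
        rw [this, map_one]
      rw [map_mul, mul_comm, ← map_mul, this, map_one]
  let : Field A.endo := hF.toField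
  refine core (E := A.endo) hA (ι := A.endo.val.toRingHom) ?_ (χ := χ₀.toRatAlgHom) hφ₀ h0 ?_
  · exact Subtype.range_coe
  · intro x w
    exact hcw x w

end Pool.Agent.Helper26.AF
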