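import Mathlib

/-! # A framework for abelian varieties attached to Hilbert newforms

`G` plays the role of the absolute Galois group of `ℚ` (number fields = open subgroups) and `k`
that of an algebraic closure of `ℚ_ℓ`. -/

open scoped TensorProduct

namespace Pool.Agent.Helper26.AF

/-- Number fields inside `ℚbar` are open subgroups `K` of `G`; `Pl K` is the set of finite places,
`norm` their absolute norm, `frob K v` the set of Frobenius elements at `v` in the Galois group of
`K`, `conj` the complex conjugation belonging to a fixed embedding `ℚbar ⊂ ℂ`. -/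
structure GaloisData (G : Type) [Group G] [TopologicalSpace G] where
  Pl : OpenSubgroup G → Type
  norm : (K : OpenSubgroup G) → Pl K → ℕ
  frob : (K : OpenSubgroup G) → Pl K → Set K
  conj : G
  frob_nonempty : ∀ K v, (frob K v).Nonempty
  conj_sq : conj * conj = 1
  /-- Chebotarev -/
  chebotarev : ∀ (K : OpenSubgroup G) (S : Set (Pl K)), S.Finite → Dense (⋃ v ∈ Sᶜ, frob K v)

variable {k : Type} [Field k] [CharZero k] [IsAlgClosed k]
variable {G : Type} [Group G] [TopologicalSpace G]

/-- scalar extension of a rational vector space to `k` -/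
abbrev TateMod (k : Type) [Field k] [CharZero k] (H : Type) [AddCommGroup H] [Module ℚ H] : Type :=
  k ⊗[ℚ] H

instance (priority := 5000) TateMod.acm (k : Type) [Field k] [CharZero k] (H : Type)
    [AddCommGroup H] [Module ℚ H] : AddCommMonoid (TateMod k H) := TensorProduct.addCommMonoid

instance (priority := 5000) TateMod.acg (k : Type) [Field k] [CharZero k] (H : Type)
    [AddCommGroup H] [Module ℚ H] : AddCommGroup (TateMod k H) := TensorProduct.addCommGroup

instance (priority := 5000) TateMod.module (k : Type) [Field k] [CharZero k] (H : Type)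
    [AddCommGroup H] [Module ℚ H] : Module k (TateMod k H) := TensorProduct.leftModule

/-- The data attached to an abelian variety over `K`, up to isogeny: `H` is its first rational
Betti homology for the fixed embedding, `endo` its endomorphism algebra over `K`, `gal` the action
of the Galois group on `k ⊗ H`, the `ℓ`-adic Tate module with coefficients extended to `k`. -/
structure AbVar (k : Type) [Field k] [CharZero k] (X : GaloisData G) (K : OpenSubgroup G) where
  H : Type
  [grp : AddCommGroup H]
  [mod : Module ℚ H]
  [fin : FiniteDimensional ℚ H]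
  endo : Subalgebra ℚ (Module.End ℚ H)
  gal : Representation k K (TateMod k H)
  bad : Set (X.Pl K)

attribute [instance] AbVar.grp AbVar.mod AbVar.fin

variable [TopologicalSpace k]

/-- matrix coefficients are continuous -/
def ContRep {Γ V : Type} [Group Γ] [TopologicalSpace Γ] [AddCommGroup V] [Module k V]
    (ρ : Representation k Γ V) : Prop :=
  ∀ (l : Module.Dual k V) (x : V), Continuous fun g : Γ => l (ρ g x)

/-- the endomorphisms in `S` commute with the Galois action -/
def CommutesWith {Γ V : Type} [Group Γ] [AddCommGroup V] [Module k V]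
    (ρ : Representation k Γ V) (S : Set (Module.End k V)) : Prop :=
  ∀ d ∈ S, ∀ g, d * ρ g = ρ g * d

/-- the endomorphisms commuting with the Galois action are linear combinations of those in `S` -/
def TateProperty {Γ V : Type} [Group Γ] [AddCommGroup V] [Module k V]
    (ρ : Representation k Γ V) (S : Set (Module.End k V)) : Prop :=
  ∀ T : Module.End k V, (∀ g, T * ρ g = ρ g * T) → T ∈ Submodule.span k S

/-- the traces of `d * ρ g`, `d` in `S`, are rational numbers -/
def RationalTraces {Γ V : Type} [Group Γ] [AddCommGroup V] [Module k V]
    (ρ : Representation k Γ V) (S : Set (Module.End k V)) (g : Γ) : Prop :=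
  ∀ d ∈ S, ∃ q : ℚ, LinearMap.trace k V (d * ρ g) = q

/-- the endomorphisms of the Tate module induced by those of the abelian variety -/
def AbVar.endoV {X : GaloisData G} {K : OpenSubgroup G} (A : AbVar k X K) :
    Set (Module.End k (TateMod k A.H)) :=
  (fun d : Module.End ℚ A.H => LinearMap.baseChange k d) '' A.endo

/-- `T` is the scalar extension of a rational endomorphism -/
def IsRational {H : Type} [AddCommGroup H] [Module ℚ H] (T : Module.End k (TateMod k H)) : Prop :=
  ∃ c : Module.End ℚ H, T = LinearMap.baseChange k c

/-- Betti comparison at a real place: complex conjugation acts on the rational homology -/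
def AbVar.RealStructure {X : GaloisData G} {K : OpenSubgroup G} (A : AbVar k X K) : Prop :=
  ∀ h : X.conj ∈ K, IsRational (A.gal ⟨X.conj, h⟩)

/-- The theorems of Faltings (semisimplicity and Tate conjecture), Weil (rationality of the traces
of endomorphism times Frobenius) and the Betti comparison at a real place. -/
structure AbVar.Good {X : GaloisData G} {K : OpenSubgroup G} (A : AbVar k X K) : Prop where
  bad_finite : A.bad.Finite
  continuous : ContRep A.gal
  semisimple : A.gal.IsSemisimpleRepresentation
  comm : CommutesWith A.gal A.endoV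
  tate : TateProperty A.gal A.endoV
  weil : ∀ v ∉ A.bad, ∀ φ ∈ X.frob K v, RationalTraces A.gal A.endoV φ
  real : A.RealStructure

/-- `E` is a division algebra acting on a nonzero space -/
def IsDivisionAlg {H : Type} [AddCommGroup H] [Module ℚ H] (E : Subalgebra ℚ (Module.End ℚ H)) :
    Prop :=
  Nontrivial H ∧ ∀ d ∈ E, d ≠ 0 → ∃ e ∈ E, e * d = 1

/-- simple: the endomorphism algebra is a division algebra -/
def AbVar.IsSimple {X : GaloisData G} {K : OpenSubgroup G} (A : AbVar k X K) : Prop :=
  IsDivisionAlg A.endo

/-- isomorphic representations -/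
def RepIso {Γ V W : Type} [Group Γ] [AddCommMonoid V] [Module k V] [AddCommMonoid W] [Module k W]
    (ρ : Representation k Γ V) (σ : Representation k Γ W) : Prop :=
  ∃ e : V ≃ₗ[k] W, ∀ g v, e (ρ g v) = σ g (e v)

/-- the inclusion of a smaller open subgroup -/
def incl {K L : OpenSubgroup G} (h : L ≤ K) : L →* K := Subgroup.inclusion h

/-- restriction of a representation to a smaller open subgroup -/
def res {V : Type} [AddCommGroup V] [Module k V] {K L : OpenSubgroup G} (h : L ≤ K)
    (ρ : Representation k K V) : Representation k L V :=
  ρ.comp (incl h)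

/-- the direct sum of finitely many representations -/
def sumRep {Γ : Type} [Group Γ] {ι : Type} {V : ι → Type} [∀ i, AddCommGroup (V i)]
    [∀ i, Module k (V i)] (ρ : ∀ i, Representation k Γ (V i)) :
    Representation k Γ (∀ i, V i) where
  toFun g := LinearMap.pi fun i => ρ i g ∘ₗ LinearMap.proj i
  map_one' := by ext; simp
  map_mul' a b := by ext; simp

/-- Poincaré complete reducibility -/
def Poincare {X : GaloisData G} (isAV : (K : OpenSubgroup G) → AbVar k X K → Prop) : Prop :=
  ∀ K A, isAV K A → ∃ (n : ℕ) (B : Fin n → AbVar k X K),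
    (∀ i, isAV K (B i) ∧ (B i).IsSimple) ∧ RepIso A.gal (sumRep fun i => (B i).gal)

/-- base change -/
def BaseChange {X : GaloisData G} (isAV : (K : OpenSubgroup G) → AbVar k X K → Prop) : Prop :=
  ∀ (K L : OpenSubgroup G) (h : L ≤ K) (A : AbVar k X K), isAV K A →
    ∃ B : AbVar k X L, isAV L B ∧ RepIso (res h A.gal) B.gal

/-- Shafarevich conjecture (Faltings): finitely many isogeny classes of bounded dimension with
good reduction outside a fixed finite set of places -/
def Shafarevich {X : GaloisData G} (isAV : (K : OpenSubgroup G) → AbVar k X K → Prop) : Prop :=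
  ∀ (K : OpenSubgroup G) (S : Set (X.Pl K)) (n : ℕ), S.Finite →
    ∃ (m : ℕ) (C : Fin m → AbVar k X K), (∀ i, isAV K (C i)) ∧
      ∀ B, isAV K B → B.bad ⊆ S → Module.finrank ℚ B.H ≤ n → ∃ i, RepIso B.gal (C i).gal

/-- `σ` is isomorphic to the representation induced from `ρ` -/
def IsInduced {Γ Γ' V W : Type} [Group Γ] [Group Γ'] [AddCommGroup V] [Module k V]
    [AddCommGroup W] [Module k W] (j : Γ' →* Γ) (ρ : Representation k Γ' V)
    (σ : Representation k Γ W) : Prop :=
  RepIso σ (Representation.coind j ρ)

/-- Weil restriction -/
def WeilRes {X : GaloisData G} (isAV : (K : OpenSubgroup G) → AbVar k X K → Prop) : Prop :=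
  ∀ (K L : OpenSubgroup G) (h : L ≤ K) (A : AbVar k X L), isAV L A →
    ∃ B : AbVar k X K, isAV K B ∧ IsInduced (incl h) A.gal B.gal

/-- The category of abelian varieties up to isogeny over the number fields: `isAV K A` says that
`A` is the data of an abelian variety over `K`. -/
structure AVTheory (k : Type) [Field k] [CharZero k] [TopologicalSpace k] (X : GaloisData G) where
  isAV : (K : OpenSubgroup G) → AbVar k X K → Prop
  good : ∀ K A, isAV K A → A.Good
  poincare : Poincare isAV
  baseChange : BaseChange isAV
  shafarevich : Shafarevich isAV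
  weilRes : WeilRes isAV

/-- the endomorphism `θ` has characteristic polynomial `X ^ 2 - a X + b` -/
def HasCharpoly {V : Type} [AddCommGroup V] [Module k V] [Module.Finite k V]
    (θ : Module.End k V) (a b : k) : Prop :=
  θ.charpoly = Polynomial.X ^ 2 - Polynomial.C a * Polynomial.X + Polynomial.C b

/-- A Hilbert newform of parallel weight 2 and trivial central character over the totally real
field `F`, with the exponents `cond v` of its level, its coefficient field `M`, its Hecke
eigenvalues `a v`, and the two-dimensional `ℓ`-adic representations `rep τ` attached to its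
conjugates `f^τ`. -/
structure Newform (k : Type) [Field k] [CharZero k] [TopologicalSpace k] (X : GaloisData G)
    (F : OpenSubgroup G) where
  totallyReal : ∀ g : G, g * X.conj * g⁻¹ ∈ F
  cond : X.Pl F → ℕ
  M : Type
  [fld : Field M]
  [nf : NumberField M]
  a : X.Pl F → M
  bad : Set (X.Pl F)
  bad_finite : bad.Finite
  generated : IntermediateField.adjoin ℚ (a '' badᶜ) = ⊤
  rep : (M →+* k) → Representation k F (Fin 2 → k)
  continuous : ∀ τ, ContRep (rep τ)
  irreducible : ∀ τ, (rep τ).IsIrreducible
  charpoly_frob : ∀ τ, ∀ v ∉ bad, ∀ φ ∈ X.frob F v,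
    HasCharpoly (rep τ φ) (τ (a v)) (X.norm F v : k)
  odd : ∀ τ (h : X.conj ∈ F), LinearMap.trace k _ (rep τ ⟨X.conj, h⟩) = 0

attribute [instance] Newform.fld Newform.nf

lemma Newform.conj_mem {X : GaloisData G} {F : OpenSubgroup G} (f : Newform k X F) :
    X.conj ∈ F := by
  simpa using f.totallyReal 1

/-- `A_f` exists: there is a simple abelian variety `A` over `F` whose `ℓ`-adic representation is
the direct sum of those of the conjugates of `f`, i.e. `L(A,s) = ∏ L(f^τ,s)`. -/
def HasAf {X : GaloisData G} (T : AVTheory k X) {F : OpenSubgroup G} (f : Newform k X F) : Prop :=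
  ∃ A : AbVar k X F, T.isAV F A ∧ A.IsSimple ∧ RepIso A.gal (sumRep f.rep)

end Pool.Agent.Helper26.AF
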