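import Mathlib

/-! Idempotents attached to the embeddings of a number field acting on a `k`-algebra. -/

set_option linter.unusedSectionVars false

namespace Pool.Agent.Helper26.AF

section

variable {k : Type} [Field k] [CharZero k] [IsAlgClosed k]
variable {E : Type} [Field E] [Algebra ℚ E] [FiniteDimensional ℚ E]
variable {A : Type} [Semiring A] [Algebra k A]

noncomputable def bas (E : Type) [Field E] [Algebra ℚ E] [FiniteDimensional ℚ E] :
    Module.Basis (Fin (Module.finrank ℚ E)) ℚ E := Module.finBasis ℚ E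

noncomputable def dbas (E : Type) [Field E] [Algebra ℚ E] [FiniteDimensional ℚ E] :
    Module.Basis (Fin (Module.finrank ℚ E)) ℚ E :=
  (Algebra.traceForm ℚ E).dualBasis (traceForm_nondegenerate ℚ E) (bas E)

lemma sum_trace_dbas (x : E) : ∑ i, Algebra.trace ℚ E (x * bas E i) • dbas E i = x := by
  conv_rhs => rw [← (dbas E).sum_repr x]
  refine Finset.sum_congr rfl fun i _ => ?_
  rw [dbas, LinearMap.BilinForm.dualBasis_repr_apply, Algebra.traceForm_apply]

lemma sum_trace_bas (x : E) : ∑ i, Algebra.trace ℚ E (x * dbas E i) • bas E i = x := by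
  have h : (Algebra.traceForm ℚ E).dualBasis (traceForm_nondegenerate ℚ E) (dbas E) = bas E :=
    LinearMap.BilinForm.dualBasis_dualBasis _ (Algebra.traceForm_isSymm ℚ) _
  conv_rhs => rw [← (bas E).sum_repr x]
  refine Finset.sum_congr rfl fun i _ => ?_
  conv_rhs => rw [← h]
  rw [LinearMap.BilinForm.dualBasis_repr_apply, Algebra.traceForm_apply, h]

/-- the idempotent of an embedding -/
noncomputable def idem (θ : E →+* A) (σ : E →ₐ[ℚ] k) : A := ∑ i, σ (dbas E i) • θ (bas E i)

lemma ringHom_smul (θ : E →+* A) (q : ℚ) (x : E) : θ (q • x) = (q : k) • θ x := by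
  have hq : θ (q • x) = θ (algebraMap ℚ E q) * θ x := by rw [Algebra.smul_def, map_mul]
  rw [hq]
  have h2 : θ (algebraMap ℚ E q) = algebraMap k A (q : k) := by
    have : (θ.comp (algebraMap ℚ E)) = ((algebraMap k A).comp (algebraMap ℚ k)) :=
      Subsingleton.elim _ _
    simpa using congrArg (fun f : ℚ →+* A => f q) this
  rw [h2, Algebra.smul_def]

lemma sum_idem (θ : E →+* A) : ∑ σ : E →ₐ[ℚ] k, idem θ σ = 1 := by
  unfold idem
  rw [Finset.sum_comm]
  have h1 : ∀ i, ∑ σ : E →ₐ[ℚ] k, σ (dbas E i) • θ (bas E i) =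
      θ (Algebra.trace ℚ E (1 * dbas E i) • bas E i) := by
    intro i
    rw [← Finset.sum_smul, ← trace_eq_sum_embeddings, ringHom_smul (k := k), one_mul]
    simp
  rw [Finset.sum_congr rfl fun i _ => h1 i, ← map_sum, sum_trace_bas, map_one]

lemma mul_idem (θ : E →+* A) (σ : E →ₐ[ℚ] k) (x : E) : θ x * idem θ σ = σ x • idem θ σ := by
  unfold idem
  have h1 : ∀ i, θ x * (σ (dbas E i) • θ (bas E i)) =
      ∑ j, (σ (dbas E i) * (Algebra.trace ℚ E (x * bas E i * dbas E j) : k)) • θ (bas E j) := by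
    intro i
    rw [mul_smul_comm, ← map_mul]
    conv_lhs => rw [← sum_trace_bas (x * bas E i), map_sum]
    rw [Finset.smul_sum]
    refine Finset.sum_congr rfl fun j _ => ?_
    rw [ringHom_smul (k := k), smul_smul]
  rw [Finset.mul_sum, Finset.sum_congr rfl fun i _ => h1 i, Finset.sum_comm, Finset.smul_sum]
  refine Finset.sum_congr rfl fun j _ => ?_
  rw [← Finset.sum_smul, smul_smul]
  congr 1
  rw [← map_mul]
  conv_rhs => rw [← sum_trace_dbas (x * dbas E j), map_sum]
  refine Finset.sum_congr rfl fun i _ => ?_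
  rw [map_smul, Algebra.smul_def, mul_comm]
  congr 1
  rw [show x * bas E i * dbas E j = x * dbas E j * bas E i by ring]
  simp

lemma idem_mem (θ : E →+* A) (σ : E →ₐ[ℚ] k) : idem θ σ ∈ Submodule.span k (Set.range θ) := by
  unfold idem
  exact Submodule.sum_mem _ fun i _ => Submodule.smul_mem _ _ (Submodule.subset_span ⟨_, rfl⟩)

/-- every element of the span of the field acts on the `σ`-part through a scalar -/
lemma exists_scalar (θ : E →+* A) (σ : E →ₐ[ℚ] k) {T : A}
    (hT : T ∈ Submodule.span k (Set.range θ)) : ∃ c : k, T * idem θ σ = c • idem θ σ := by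
  induction hT using Submodule.span_induction with
  | mem x h => obtain ⟨d, rfl⟩ := h; exact ⟨σ d, mul_idem θ σ d⟩
  | zero => exact ⟨0, by simp⟩
  | add x y _ _ hx hy =>
    obtain ⟨a, ha⟩ := hx
    obtain ⟨b, hb⟩ := hy
    exact ⟨a + b, by rw [add_mul, ha, hb, add_smul]⟩
  | smul a x _ hx =>
    obtain ⟨b, hb⟩ := hx
    exact ⟨a * b, by rw [smul_mul_assoc, hb, smul_smul]⟩

lemma commute_of_mem (θ : E →+* A) {T S : A}
    (hT : T ∈ Submodule.span k (Set.range θ)) (hS : ∀ x, S * θ x = θ x * S) : S * T = T * S := by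
  induction hT using Submodule.span_induction with
  | mem x h => obtain ⟨d, rfl⟩ := h; exact hS d
  | zero => simp
  | add x y _ _ hx hy => rw [add_mul, mul_add, hx, hy]
  | smul a x _ hx => rw [smul_mul_assoc, mul_smul_comm, hx]

lemma sub_smul_eq_zero {k M : Type} [Field k] [AddCommMonoid M] [Module k M] {a b : k} {y : M}
    (h : a • y = b • y) : (a - b) • y = 0 := by
  rw [sub_eq_add_neg, add_smul, h, ← add_smul, add_neg_cancel, zero_smul]

lemma idem_mul_idem (θ : E →+* A) {σ σ' : E →ₐ[ℚ] k} (h : σ ≠ σ') :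
    idem θ σ * idem θ σ' = 0 := by
  obtain ⟨x, hx⟩ : ∃ x, σ x ≠ σ' x := by
    by_contra hcon
    push Not at hcon
    exact h (AlgHom.ext hcon)
  have h1 : θ x * (idem θ σ * idem θ σ') = σ x • (idem θ σ * idem θ σ') := by
    rw [← mul_assoc, mul_idem, smul_mul_assoc]
  have h2 : θ x * (idem θ σ * idem θ σ') = σ' x • (idem θ σ * idem θ σ') := by
    have : θ x * idem θ σ = idem θ σ * θ x := by
      refine commute_of_mem (k := k) θ (idem_mem θ σ) fun y => ?_
      rw [← map_mul, ← map_mul, mul_comm]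
    rw [← mul_assoc, this, mul_assoc, mul_idem, mul_smul_comm]
  have h3 : (σ x - σ' x) • (idem θ σ * idem θ σ') = 0 :=
    sub_smul_eq_zero (h1.symm.trans h2)
  rcases smul_eq_zero.1 h3 with h4 | h4
  · exact absurd (sub_eq_zero.1 h4) hx
  · exact h4

lemma idem_idem (θ : E →+* A) (σ : E →ₐ[ℚ] k) : idem θ σ * idem θ σ = idem θ σ := by
  classical
  conv_rhs => rw [← mul_one (idem θ σ), ← sum_idem (k := k) θ, Finset.mul_sum]
  rw [Finset.sum_eq_single σ]
  · intro σ' _ h
    exact idem_mul_idem θ (Ne.symm h)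
  · intro h
    exact absurd (Finset.mem_univ _) h

end

end Pool.Agent.Helper26.AF
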