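import Pool.Agent.Helper26.AF.Potential

/-! Reduction of the existence of `A_f` to level one. -/

open scoped TensorProduct

set_option linter.unusedSectionVars false

namespace Pool.Agent.Helper26.AF

section defs

variable {k : Type} [Field k] [CharZero k] [TopologicalSpace k]
variable {G : Type} [Group G] [TopologicalSpace G] {X : GaloisData G}

/-- `E` is a totally real number field: all complex conjugations lie in `E`. -/
def TotallyReal (X : GaloisData G) (E : OpenSubgroup G) : Prop :=
  ∀ g : G, g * X.conj * g⁻¹ ∈ E

/-- The newforms of parallel weight two and trivial central character over the totally real fields,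
with Zhang's theorem and potential base change: `ρ_f` becomes, over some totally real field
containing a given one, the representation of a newform with square-free level. -/
structure ModularTheory (T : AVTheory k X) where
  isNewform : (F : OpenSubgroup G) → Newform k X F → Prop
  /-- Zhang -/
  zhang : ∀ F (f : Newform k X F), isNewform F f →
    (Odd (F : Subgroup G).index ∨ ∃ v, Odd (f.cond v)) → HasAf T f
  /-- potential modularity and local-global compatibility -/
  potential : ∀ F (f : Newform k X F), isNewform F f → ∀ E : OpenSubgroup G, TotallyReal X E →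
    ∃ (K : OpenSubgroup G) (h : K ≤ F) (f' : Newform k X K) (τ : f.M →+* k) (τ' : f'.M →+* k),
      K ≤ E ∧ isNewform K f' ∧ (∀ v, f'.cond v ≤ 1) ∧ RepIso (res h (f.rep τ)) (f'.rep τ')

/-- `f` over `F` and `f'` over `F'` are virtually equivalent: a conjugate of `ρ_f` and a conjugate
of `ρ_{f'}` become isomorphic over some number field containing `F` and `F'`. -/
def VirtEquiv {F F' : OpenSubgroup G} (f : Newform k X F) (f' : Newform k X F') : Prop :=
  ∃ (K : OpenSubgroup G) (h : K ≤ F) (h' : K ≤ F') (τ : f.M →+* k) (τ' : f'.M →+* k),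
    RepIso (res h (f.rep τ)) (res h' (f'.rep τ'))

end defs

variable {k : Type} [Field k] [CharZero k] [IsAlgClosed k] [TopologicalSpace k]
  [IsTopologicalRing k] [T2Space k]
variable {G : Type} [Group G] [TopologicalSpace G] {X : GaloisData G}

lemma hasAf_of_virtEquiv (T : AVTheory k X) {F F' : OpenSubgroup G} (f : Newform k X F)
    (f' : Newform k X F') (h : VirtEquiv f f') (hf : HasAf T f') : HasAf T f := by
  classical
  obtain ⟨K, h, h', τ, τ', e, he⟩ := h
  obtain ⟨A, hA, -, a, ha⟩ := hf
  obtain ⟨B, hB, b, hb⟩ := T.baseChange F' K h' A hA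
  refine hasAf_of_potentially T f ⟨K, h, B, τ, hB, b.toLinearMap ∘ₗ a.symm.toLinearMap ∘ₗ
    (LinearMap.single k (fun _ : f'.M →+* k => Fin 2 → k) τ') ∘ₗ e.toLinearMap, ?_, ?_⟩
  · intro h0
    have h1 := LinearMap.congr_fun h0 (e.symm (fun _ => (1 : k)))
    simp only [LinearMap.comp_apply, LinearEquiv.coe_coe, LinearMap.zero_apply,
      e.apply_symm_apply] at h1
    have h2 : (LinearMap.single k (fun _ : f'.M →+* k => Fin 2 → k) τ') (fun _ => (1 : k)) = 0 := by
      apply a.symm.injective
      apply b.injective
      rw [h1, map_zero, map_zero]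
    have h3 := congrFun (congrFun h2 τ') 0
    simp at h3
  · intro g w
    simp only [LinearMap.comp_apply, LinearEquiv.coe_coe]
    have h1 : e (res h (f.rep τ) g w) = f'.rep τ' (incl h' g) (e w) := he g w
    rw [h1, ← hb]
    congr 1
    change _ = A.gal (incl h' g) _
    rw [LinearEquiv.symm_apply_eq, ha, a.apply_symm_apply]
    funext σ
    change _ = (f'.rep σ (incl h' g))
      ((LinearMap.single k (fun _ : f'.M →+* k => Fin 2 → k) τ') (e w) σ)
    by_cases hσ : σ = τ'
    · subst hσ
      simp
    · rw [LinearMap.single_apply, LinearMap.single_apply, Pi.single_eq_of_ne hσ,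
        Pi.single_eq_of_ne hσ, map_zero]

lemma VirtEquiv.symm {F F' : OpenSubgroup G} {f : Newform k X F}
    {f' : Newform k X F'} (h : VirtEquiv f f') : VirtEquiv f' f := by
  obtain ⟨K, h, h', τ, τ', e, he⟩ := h
  refine ⟨K, h', h, τ', τ, e.symm, fun g v => ?_⟩
  rw [LinearEquiv.symm_apply_eq, he, e.apply_symm_apply]

/-- invariance under virtual equivalence -/
theorem hasAf_iff_of_virtEquiv (T : AVTheory k X) {F F' : OpenSubgroup G} (f : Newform k X F)
    (f' : Newform k X F') (h : VirtEquiv f f') : HasAf T f ↔ HasAf T f' :=
  ⟨hasAf_of_virtEquiv T f' f h.symm, hasAf_of_virtEquiv T f f' h⟩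

/-- reduction to level one over large fields -/
theorem level_one_reduction (T : AVTheory k X) (N : ModularTheory T) {E : OpenSubgroup G}
    (hE : TotallyReal X E) :
    (∀ F (f : Newform k X F), N.isNewform F f → Even (F : Subgroup G).index →
      (∀ v, Even (f.cond v)) → HasAf T f) ↔
    (∀ F (f : Newform k X F), N.isNewform F f → F ≤ E → Even (F : Subgroup G).index →
      (∀ v, f.cond v = 0) → HasAf T f) := by
  constructor
  · intro H F f hf _ hF hc
    exact H F f hf hF fun v => by rw [hc v]; exact Even.zero
  · intro H F f hf hF hc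
    obtain ⟨K, h, f', τ, τ', hKE, hf', hc', e, he⟩ := N.potential F f hf E hE
    have hve : VirtEquiv f f' := ⟨K, h, le_rfl, τ, τ', e, he⟩
    refine hasAf_of_virtEquiv T f f' hve ?_
    by_cases hodd : ∃ v, Odd (f'.cond v)
    · exact N.zhang K f' hf' (Or.inr hodd)
    · refine H K f' hf' hKE ?_ fun v => ?_
      · have h1 : (F : Subgroup G).index ∣ (K : Subgroup G).index :=
          Subgroup.index_dvd_of_le h
        exact even_iff_two_dvd.2 ((even_iff_two_dvd.1 hF).trans h1)
      · have h1 : ¬ Odd (f'.cond v) := fun h => hodd ⟨v, h⟩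
        have h2 := hc' v
        interval_cases h3 : f'.cond v
        · rfl
        · exact absurd odd_one h1

end Pool.Agent.Helper26.AF
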