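import Mathlib

/-! Detecting a two-dimensional module of a reductive Lie algebra generated by elements that act
as idempotents. -/

set_option linter.unusedSectionVars false

namespace Pool.Agent.Helper26.AF

/-- representation of a Lie algebra on a vector space, written with linear maps -/
def IsLieRep {k L V : Type} [Field k] [LieRing L] [LieAlgebra k L] [AddCommGroup V] [Module k V]
    (π : L →ₗ[k] Module.End k V) : Prop :=
  ∀ x y, π ⁅x, y⁆ = π x * π y - π y * π x

section

variable {k : Type} [Field k] [CharZero k]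
variable {V W : Type} [AddCommGroup V] [Module k V] [AddCommGroup W] [Module k W]
variable {L : Type} [LieRing L] [LieAlgebra k L]
variable {πV : L →ₗ[k] Module.End k V} {πW : L →ₗ[k] Module.End k W}

/-- elements acting on `W` through scalars -/
def scalarIdeal (hW : IsLieRep πW) : LieIdeal k L where
  carrier := {x | ∃ c : k, πW x = c • (1 : Module.End k W)}
  add_mem' := by
    rintro a b ⟨c, hc⟩ ⟨d, hd⟩
    exact ⟨c + d, by rw [map_add, hc, hd, add_smul]⟩
  zero_mem' := ⟨0, by simp⟩
  smul_mem' := by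
    rintro a x ⟨c, hc⟩
    exact ⟨a * c, by rw [map_smul, hc, smul_smul]⟩
  lie_mem := by
    rintro a x ⟨c, hc⟩
    refine ⟨0, ?_⟩
    rw [hW, hc, zero_smul]
    simp

/-- The core lemma: `πV`, `πW` representations of `L` with `W` of dimension two and irreducible,
the ideals of `L` complemented, elements killing `V` scalar on `W`, and `L` generated as an ideal
by the elements acting on `V` as idempotents and on `W` as idempotents of trace one. Then `W`
embeds in `V`. -/
theorem lie_detect (hV : IsLieRep πV) (hW : IsLieRep πW) [FiniteDimensional k W]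
    (hdim : Module.finrank k W = 2)
    (hirr : ∀ P : Submodule k W, (∀ x, ∀ w ∈ P, πW x w ∈ P) → P = ⊥ ∨ P = ⊤)
    (hred : ∀ I : LieIdeal k L, ∃ J : LieIdeal k L, IsCompl I J)
    (hker : ∀ x, πV x = 0 → ∃ c : k, πW x = c • (1 : Module.End k W))
    (hgen : ∀ I : LieIdeal k L, (∀ x, πV x * πV x = πV x → πW x * πW x = πW x →
      LinearMap.trace k W (πW x) = 1 → x ∈ I) → I = ⊤) :
    ∃ φ : W →ₗ[k] V, φ ≠ 0 ∧ ∀ x w, φ (πW x w) = πV x (φ w) := by
  classical
  -- a nonzero generator
  have hx0 : ∃ x, πV x * πV x = πV x ∧ πW x * πW x = πW x ∧ LinearMap.trace k W (πW x) = 1 := by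
    by_contra hcon
    push Not at hcon
    have h1 : (⊥ : LieIdeal k L) = ⊤ := hgen ⊥ fun x h1 h2 h3 => absurd h3 (hcon x h1 h2)
    have h2 : ∀ x : L, x = 0 := by
      intro x
      have : x ∈ (⊥ : LieIdeal k L) := by rw [h1]; trivial
      simpa using this
    have : Nontrivial W := Module.nontrivial_of_finrank_pos (R := k) (by omega)
    obtain ⟨w, hw⟩ := exists_ne (0 : W)
    rcases hirr (Submodule.span k {w}) (fun x v _ => by rw [h2 x, map_zero]; simp) with h | h
    · rw [Submodule.span_singleton_eq_bot] at h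
      exact hw h
    · have h3 := finrank_span_singleton (K := k) hw
      rw [h, finrank_top, hdim] at h3
      omega
  obtain ⟨x₀, hx₀V, hx₀W, hx₀t⟩ := hx0
  set P := πW x₀ with hP
  -- basis adapted to P
  have hPne1 : P ≠ 1 := by
    intro h
    rw [h, LinearMap.trace_one, hdim] at hx₀t
    norm_num at hx₀t
  have hPne0 : P ≠ 0 := by
    intro h
    rw [h, map_zero] at hx₀t
    exact zero_ne_one hx₀t
  have hPP : ∀ w, P (P w) = P w := fun w => LinearMap.congr_fun hx₀W w
  obtain ⟨u₁, hu₁, hPu₁⟩ : ∃ u₁, u₁ ≠ 0 ∧ P u₁ = u₁ := by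
    obtain ⟨w, hw⟩ : ∃ w, P w ≠ 0 := by
      by_contra hcon
      push Not at hcon
      exact hPne0 (LinearMap.ext hcon)
    exact ⟨P w, hw, hPP w⟩
  obtain ⟨u₀, hu₀, hPu₀⟩ : ∃ u₀, u₀ ≠ 0 ∧ P u₀ = 0 := by
    obtain ⟨w, hw⟩ : ∃ w, w - P w ≠ 0 := by
      by_contra hcon
      push Not at hcon
      exact hPne1 (LinearMap.ext fun w => (sub_eq_zero.1 (hcon w)).symm)
    exact ⟨w - P w, hw, by rw [map_sub, hPP, sub_self]⟩
  have hli : LinearIndependent k ![u₁, u₀] := by
    rw [LinearIndependent.pair_iff]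
    intro a b hab
    have h1 : a • u₁ = 0 := by
      have := congrArg P hab
      rwa [map_add, map_smul, map_smul, hPu₁, hPu₀, smul_zero, add_zero, map_zero] at this
    have ha : a = 0 := (smul_eq_zero.1 h1).resolve_right hu₁
    rw [ha, zero_smul, zero_add] at hab
    exact ⟨ha, (smul_eq_zero.1 hab).resolve_right hu₀⟩
  let B : Module.Basis (Fin 2) k W :=
    basisOfLinearIndependentOfCardEqFinrank hli (by simp [hdim])
  have hB0 : B 0 = u₁ := by simp [B]
  have hB1 : B 1 = u₀ := by simp [B]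
  have hdec : ∀ w : W, ∃ a b : k, w = a • u₁ + b • u₀ := by
    intro w
    refine ⟨B.repr w 0, B.repr w 1, ?_⟩
    conv_lhs => rw [← B.sum_repr w]
    rw [Fin.sum_univ_two, hB0, hB1]
  have hext : ∀ S T : Module.End k W, S u₁ = T u₁ → S u₀ = T u₀ → S = T := by
    intro S T h1 h0
    apply B.ext
    intro i
    fin_cases i
    · simpa [hB0] using h1
    · simpa [hB1] using h0
  -- linear independence in the form used below
  have hind : ∀ a b : k, a • u₁ + b • u₀ = 0 → a = 0 ∧ b = 0 := by
    intro a b h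
    exact LinearIndependent.pair_iff.1 hli a b h
  -- raising and lowering elements
  have hE : ∃ e₁ : L, πW e₁ u₁ = 0 ∧ πW e₁ u₀ = u₁ := by
    obtain ⟨y, hy⟩ : ∃ y, ∀ b : k, πW y u₀ ≠ b • u₀ := by
      by_contra hcon
      push Not at hcon
      rcases hirr (Submodule.span k {u₀}) (by
        intro x w hw
        obtain ⟨c, rfl⟩ := Submodule.mem_span_singleton.1 hw
        obtain ⟨b, hb⟩ := hcon x
        rw [map_smul, hb]
        exact Submodule.smul_mem _ _ (Submodule.smul_mem _ _ (Submodule.mem_span_singleton_self _)))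
        with h | h
      · rw [Submodule.span_singleton_eq_bot] at h
        exact hu₀ h
      · have h3 := finrank_span_singleton (K := k) hu₀
        rw [h, finrank_top, hdim] at h3
        omega
    obtain ⟨a, b, hab⟩ := hdec (πW y u₀)
    obtain ⟨c, d, hcd⟩ := hdec (πW y u₁)
    have ha : a ≠ 0 := by
      rintro rfl
      exact hy b (by rw [hab, zero_smul, zero_add])
    refine ⟨(2 * a)⁻¹ • (⁅x₀, y⁆ + ⁅x₀, ⁅x₀, y⁆⁆), ?_, ?_⟩
    · simp only [map_smul, map_add, hW x₀, LinearMap.smul_apply, LinearMap.add_apply,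
        LinearMap.sub_apply, Module.End.mul_apply]
      rw [← hP]
      simp only [hcd, map_add, map_sub, map_smul, hPu₁, hPu₀, smul_zero, add_zero]
      rw [smul_eq_zero]
      right
      module
    · simp only [map_smul, map_add, hW x₀, LinearMap.smul_apply, LinearMap.add_apply,
        LinearMap.sub_apply, Module.End.mul_apply]
      rw [← hP]
      simp only [hab, map_add, map_smul, hPu₁, hPu₀, smul_zero, add_zero, map_zero, sub_zero]
      rw [← add_smul, smul_smul, ← two_mul, inv_mul_cancel₀ (by simpa using ha), one_smul]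
  have hF : ∃ f₁ : L, πW f₁ u₀ = 0 ∧ πW f₁ u₁ = u₀ := by
    obtain ⟨y, hy⟩ : ∃ y, ∀ b : k, πW y u₁ ≠ b • u₁ := by
      by_contra hcon
      push Not at hcon
      rcases hirr (Submodule.span k {u₁}) (by
        intro x w hw
        obtain ⟨c, rfl⟩ := Submodule.mem_span_singleton.1 hw
        obtain ⟨b, hb⟩ := hcon x
        rw [map_smul, hb]
        exact Submodule.smul_mem _ _ (Submodule.smul_mem _ _ (Submodule.mem_span_singleton_self _)))
        with h | h
      · rw [Submodule.span_singleton_eq_bot] at h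
        exact hu₁ h
      · have h3 := finrank_span_singleton (K := k) hu₁
        rw [h, finrank_top, hdim] at h3
        omega
    obtain ⟨a, b, hab⟩ := hdec (πW y u₀)
    obtain ⟨c, d, hcd⟩ := hdec (πW y u₁)
    have hd : d ≠ 0 := by
      rintro rfl
      exact hy c (by rw [hcd, zero_smul, add_zero])
    refine ⟨(2 * d)⁻¹ • (⁅x₀, ⁅x₀, y⁆⁆ - ⁅x₀, y⁆), ?_, ?_⟩
    · simp only [map_smul, map_sub, hW x₀, LinearMap.smul_apply,
        LinearMap.sub_apply, Module.End.mul_apply]
      rw [← hP]
      simp only [hab, map_add, map_smul, hPu₁, hPu₀, smul_zero, add_zero, map_zero, sub_zero]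
      rw [sub_self, smul_zero]
    · simp only [map_smul, map_sub, hW x₀, LinearMap.smul_apply,
        LinearMap.sub_apply, Module.End.mul_apply]
      rw [← hP]
      simp only [hcd, map_add, map_sub, map_smul, hPu₁, hPu₀, smul_zero, add_zero]
      rw [inv_smul_eq_iff₀ (by simpa using hd)]
      module
  obtain ⟨e₁, he₁1, he₁0⟩ := hE
  obtain ⟨f₁, hf₁0, hf₁1⟩ := hF
  -- the complement of the scalar ideal
  obtain ⟨J, hJ⟩ := hred (scalarIdeal hW)
  have hJ0 : ∀ s ∈ J, (∃ c : k, πW s = c • (1 : Module.End k W)) → s = 0 := by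
    intro s hs hc
    have : s ∈ scalarIdeal hW ⊓ J := ⟨hc, hs⟩
    rw [hJ.inf_eq_bot] at this
    simpa using this
  have hsplit : ∀ x : L, ∃ s ∈ J, ∃ y : L, (∃ c : k, πW y = c • (1 : Module.End k W)) ∧
      x = s + y := by
    intro x
    have : x ∈ scalarIdeal hW ⊔ J := by rw [hJ.sup_eq_top]; trivial
    rw [LieSubmodule.mem_sup] at this
    obtain ⟨y, hy, s, hs, rfl⟩ := this
    exact ⟨s, hs, y, hy, add_comm _ _⟩
  have hcomm : ∀ s ∈ J, ∀ y : L, (∃ c : k, πW y = c • (1 : Module.End k W)) → ⁅s, y⁆ = 0 := by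
    intro s hs y hy
    apply hJ0
    · rw [← lie_skew]
      exact J.neg_mem (lie_mem_right k L J y s hs)
    · obtain ⟨c, hc⟩ := hy
      refine ⟨0, ?_⟩
      rw [hW, hc]
      simp
  obtain ⟨se, hse, ye, ⟨ce, hce⟩, hee⟩ := hsplit e₁
  obtain ⟨sf, hsf, yf, ⟨cf, hcf⟩, hff⟩ := hsplit f₁
  have hWse : πW se = πW e₁ - ce • 1 := by rw [hee, map_add, hce]; simp
  have hWsf : πW sf = πW f₁ - cf • 1 := by rw [hff, map_add, hcf]; simp
  set h : L := ⁅se, sf⁆ with hh
  have hhJ : h ∈ J := lie_mem_right k L J se sf hsf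
  have hWh1 : πW h u₁ = u₁ := by
    rw [hh, hW, hWse, hWsf]
    simp only [LinearMap.sub_apply, Module.End.mul_apply, LinearMap.smul_apply,
      Module.End.one_apply, map_sub, map_smul, he₁1, he₁0, hf₁1, smul_zero, map_zero]
    module
  have hWh0 : πW h u₀ = -u₀ := by
    rw [hh, hW, hWse, hWsf]
    simp only [LinearMap.sub_apply, Module.End.mul_apply, LinearMap.smul_apply,
      Module.End.one_apply, map_sub, map_smul, he₁0, hf₁0, hf₁1, smul_zero, map_zero]
    module
  set e : L := (2 : k)⁻¹ • ⁅h, se⁆ with he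
  set f : L := -((2 : k)⁻¹ • ⁅h, sf⁆) with hf
  have heJ : e ∈ J := J.smul_mem _ (lie_mem_right k L J h se hse)
  have hfJ : f ∈ J := J.neg_mem (J.smul_mem _ (lie_mem_right k L J h sf hsf))
  have hWe1 : πW e u₁ = 0 := by
    rw [he, map_smul, hW, hWse]
    simp only [LinearMap.sub_apply, Module.End.mul_apply, LinearMap.smul_apply,
      Module.End.one_apply, map_sub, map_smul, he₁1, hWh1, smul_zero, map_zero]
    module
  have hWe0 : πW e u₀ = u₁ := by
    rw [he, map_smul, hW, hWse]
    simp only [LinearMap.sub_apply, Module.End.mul_apply, LinearMap.smul_apply,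
      Module.End.one_apply, map_sub, map_smul, he₁0, hWh1, hWh0, map_neg]
    module
  have hWf1 : πW f u₁ = u₀ := by
    rw [hf, map_neg, map_smul, hW, hWsf]
    simp only [LinearMap.sub_apply, LinearMap.neg_apply, Module.End.mul_apply,
      LinearMap.smul_apply, Module.End.one_apply, map_sub, map_smul, hf₁1, hWh1, hWh0]
    have : (-u₀ - cf • u₁ - (u₀ - cf • u₁) : W) = (-2 : k) • u₀ := by module
    rw [this, smul_smul]
    norm_num
  have hWf0 : πW f u₀ = 0 := by
    rw [hf, map_neg, map_smul, hW, hWsf]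
    simp only [LinearMap.sub_apply, LinearMap.neg_apply, Module.End.mul_apply,
      LinearMap.smul_apply, Module.End.one_apply, map_sub, map_smul, hf₁0, hWh0, map_neg, map_zero]
    module
  -- `J` is spanned by `e`, `h`, `f`
  have hspan : ∀ s ∈ J, ∃ α β γ : k, s = α • e + β • h + γ • f := by
    intro s hs
    obtain ⟨a, c, h1⟩ := hdec (πW s u₁)
    obtain ⟨b, d, h0⟩ := hdec (πW s u₀)
    refine ⟨b, (a - d) / 2, c, ?_⟩
    apply sub_eq_zero.1
    apply hJ0 _ (J.sub_mem hs (J.add_mem (J.add_mem (J.smul_mem _ heJ) (J.smul_mem _ hhJ))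
      (J.smul_mem _ hfJ)))
    refine ⟨(a + d) / 2, hext _ _ ?_ ?_⟩
    · simp only [map_sub, map_add, map_smul, LinearMap.sub_apply, LinearMap.add_apply,
        LinearMap.smul_apply, Module.End.one_apply, h1, hWe1, hWh1, hWf1, smul_zero]
      module
    · simp only [map_sub, map_add, map_smul, LinearMap.sub_apply, LinearMap.add_apply,
        LinearMap.smul_apply, Module.End.one_apply, h0, hWe0, hWh0, hWf0, smul_zero]
      module
  have hef : ⁅e, f⁆ = h := by
    apply sub_eq_zero.1
    apply hJ0 _ (J.sub_mem (lie_mem_right k L J e f hfJ) hhJ)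
    refine ⟨0, hext _ _ ?_ ?_⟩
    · simp only [map_sub, hW e f, LinearMap.sub_apply, Module.End.mul_apply, hWe1, hWe0, hWf1,
        hWh1, map_zero, LinearMap.smul_apply, zero_smul, LinearMap.zero_apply]
      module
    · simp only [map_sub, hW e f, LinearMap.sub_apply, Module.End.mul_apply, hWe0, hWf0, hWf1,
        hWh0, map_zero, LinearMap.smul_apply, zero_smul, LinearMap.zero_apply]
      module
  have hhe : ⁅h, e⁆ = (2 : k) • e := by
    apply sub_eq_zero.1
    apply hJ0 _ (J.sub_mem (lie_mem_right k L J h e heJ) (J.smul_mem _ heJ))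
    refine ⟨0, hext _ _ ?_ ?_⟩
    · simp only [map_sub, map_smul, hW h e, LinearMap.sub_apply, Module.End.mul_apply, hWe1,
        hWh1, map_zero, LinearMap.smul_apply, zero_smul, smul_zero,
        LinearMap.zero_apply]
      module
    · simp only [map_sub, map_smul, hW h e, LinearMap.sub_apply, Module.End.mul_apply, hWe0,
        hWh0, hWh1, map_neg, LinearMap.smul_apply, zero_smul, LinearMap.zero_apply]
      module
  have hhf : ⁅h, f⁆ = (-2 : k) • f := by
    apply sub_eq_zero.1
    apply hJ0 _ (J.sub_mem (lie_mem_right k L J h f hfJ) (J.smul_mem _ hfJ))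
    refine ⟨0, hext _ _ ?_ ?_⟩
    · simp only [map_sub, map_smul, hW h f, LinearMap.sub_apply, Module.End.mul_apply, hWf1,
        hWh1, hWh0, LinearMap.smul_apply, zero_smul, LinearMap.zero_apply]
      module
    · simp only [map_sub, map_smul, hW h f, LinearMap.sub_apply, Module.End.mul_apply, hWf0,
        hWh0, map_zero, map_neg, LinearMap.smul_apply, zero_smul, smul_zero,
        LinearMap.zero_apply]
      module
  obtain ⟨s₀, hs₀, y₀, ⟨c₀, hc₀⟩, hx₀⟩ := hsplit x₀
  have hs₀h : s₀ = (2 : k)⁻¹ • h := by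
    apply sub_eq_zero.1
    apply hJ0 _ (J.sub_mem hs₀ (J.smul_mem _ hhJ))
    have hWs₀ : πW s₀ = P - c₀ • 1 := by
      rw [hP, hx₀, map_add, hc₀]; simp
    refine ⟨(2 : k)⁻¹ - c₀, hext _ _ ?_ ?_⟩
    · simp only [map_sub, map_smul, hWs₀, LinearMap.sub_apply, LinearMap.smul_apply,
        Module.End.one_apply, hPu₁, hWh1]
      module
    · simp only [map_sub, map_smul, hWs₀, LinearMap.sub_apply, LinearMap.smul_apply,
        Module.End.one_apply, hPu₀, hWh0]
      module
  have hcomm' : ∀ s ∈ J, ∀ y : L, (∃ c : k, πW y = c • (1 : Module.End k W)) → ⁅y, s⁆ = 0 := by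
    intro s hs y hy
    rw [← lie_skew, hcomm s hs y hy, neg_zero]
  have hx₀e : ⁅x₀, e⁆ = e := by
    rw [hx₀, hs₀h, add_lie, smul_lie, hhe, smul_smul, hcomm' e heJ y₀ ⟨c₀, hc₀⟩, add_zero]
    norm_num
  have hx₀f : ⁅x₀, f⁆ = -f := by
    rw [hx₀, hs₀h, add_lie, smul_lie, hhf, smul_smul, hcomm' f hfJ y₀ ⟨c₀, hc₀⟩, add_zero]
    norm_num
  -- the action on V
  have two : ∀ T : Module.End k V, T = -T → T = 0 := by
    intro T hT
    have : (2 : k) • T = 0 := by
      rw [two_smul]
      nth_rewrite 2 [hT]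
      rw [add_neg_cancel]
    exact (smul_eq_zero.1 this).resolve_left two_ne_zero
  set p := πV x₀ with hp
  set e' := πV e with he'
  set f' := πV f with hf'
  have r1 : p * e' - e' * p = e' := by rw [hp, he', ← hV, hx₀e]
  have r2 : p * f' - f' * p = -f' := by rw [hp, hf', ← hV, hx₀f, map_neg]
  have pep : p * e' * p = 0 := by
    have := congrArg (fun T => p * T) r1
    simp only [mul_sub, ← mul_assoc, hx₀V] at this
    have h2 : p * e' - p * e' * p = p * e' := this
    rw [sub_eq_self] at h2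
    exact h2
  have ep : e' * p = 0 := by
    apply two
    have := congrArg (fun T => T * p) r1
    simp only [sub_mul] at this
    rw [pep, mul_assoc e' p p, hx₀V, zero_sub] at this
    exact this.symm
  have pe : p * e' = e' := by
    rw [ep, sub_zero] at r1; exact r1
  have pfp : p * f' * p = 0 := by
    have := congrArg (fun T => T * p) r2
    simp only [sub_mul, neg_mul] at this
    rw [mul_assoc f' p p, hx₀V] at this
    have h2 : p * f' * p - f' * p = - (f' * p) := this
    rw [sub_eq_neg_self] at h2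
    exact h2
  have pf : p * f' = 0 := by
    apply two
    have := congrArg (fun T => p * T) r2
    simp only [mul_sub, ← mul_assoc, hx₀V, mul_neg] at this
    have h2 : p * f' - p * f' * p = -(p * f') := this
    rw [pfp, sub_zero] at h2
    exact h2
  have fp : f' * p = f' := by
    rw [pf, zero_sub] at r2
    exact neg_injective r2
  have ee : e' * e' = 0 := by
    calc e' * e' = e' * (p * e') := by rw [pe]
      _ = (e' * p) * e' := by rw [mul_assoc]
      _ = 0 := by rw [ep, zero_mul]
  have ff : f' * f' = 0 := by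
    calc f' * f' = (f' * p) * f' := by rw [fp]
      _ = f' * (p * f') := by rw [mul_assoc]
      _ = 0 := by rw [pf, mul_zero]
  have hVh : πV h = e' * f' - f' * e' := by rw [← hef, hV]
  have efe : e' * f' * e' = e' := by
    have h1 : πV h * e' - e' * πV h = (2 : k) • e' := by rw [he', ← hV, hhe, map_smul]
    rw [hVh] at h1
    have h2 : (e' * f' - f' * e') * e' - e' * (e' * f' - f' * e') =
        (2 : k) • (e' * f' * e') := by
      rw [sub_mul, mul_sub, mul_assoc f' e' e', ee, mul_zero, sub_zero, ← mul_assoc e' e' f', ee,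
        zero_mul, zero_sub, sub_neg_eq_add, ← mul_assoc e' f' e', two_smul]
    rw [h2] at h1
    exact smul_right_injective _ (two_ne_zero (α := k)) h1
  -- e' is nonzero
  have he'0 : ∃ v, e' v ≠ 0 := by
    by_contra hcon
    push Not at hcon
    have he0 : e' = 0 := LinearMap.ext hcon
    have : πV h = 0 := by rw [hVh, he0]; simp
    obtain ⟨c, hc⟩ := hker h this
    have h1 := LinearMap.congr_fun hc u₁
    have h0 := LinearMap.congr_fun hc u₀
    rw [hWh1] at h1
    rw [hWh0] at h0
    simp only [LinearMap.smul_apply, Module.End.one_apply] at h1 h0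
    have hc1 : (1 - c) • u₁ = 0 := by rw [sub_smul, one_smul, ← h1, sub_self]
    have hc2 : (1 + c) • u₀ = 0 := by rw [add_smul, one_smul, ← h0, add_neg_cancel]
    have h3 := (smul_eq_zero.1 hc1).resolve_right hu₁
    have h4 := (smul_eq_zero.1 hc2).resolve_right hu₀
    have : (2 : k) = 0 := by linear_combination h3 + h4
    exact two_ne_zero this
  -- the maps ψ
  let ψ : V → W →ₗ[k] V := fun v => (B.coord 0).smulRight v + (B.coord 1).smulRight (f' v)
  have hψ1 : ∀ v, ψ v u₁ = v := by
    intro v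
    simp only [ψ, LinearMap.add_apply, LinearMap.smulRight_apply]
    rw [← hB0]
    simp
  have hψ0 : ∀ v, ψ v u₀ = f' v := by
    intro v
    simp only [ψ, LinearMap.add_apply, LinearMap.smulRight_apply]
    rw [← hB1]
    simp
  have hψadd : ∀ v v' w, ψ (v + v') w = ψ v w + ψ v' w := by
    intro v v' w
    simp only [ψ, LinearMap.add_apply, LinearMap.smulRight_apply, map_add, smul_add]
    abel
  have hψsmul : ∀ (c : k) v w, ψ (c • v) w = c • ψ v w := by
    intro c v w
    simp only [ψ, LinearMap.add_apply, LinearMap.smulRight_apply, map_smul, smul_add]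
    rw [smul_comm c, smul_comm c]
  have hext' : ∀ S T : W →ₗ[k] V, S u₁ = T u₁ → S u₀ = T u₀ → S = T := by
    intro S T h1 h0
    apply B.ext
    intro i
    fin_cases i
    · simpa [hB0] using h1
    · simpa [hB1] using h0
  have appE : ∀ v, e' (e' v) = 0 := fun v => LinearMap.congr_fun ee v
  have appF : ∀ v, f' (f' v) = 0 := fun v => LinearMap.congr_fun ff v
  have appEFE : ∀ v, e' (f' (e' v)) = e' v := fun v => LinearMap.congr_fun efe v
  have appPE : ∀ v, p (e' v) = e' v := fun v => LinearMap.congr_fun pe v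
  have appPF : ∀ v, p (f' v) = 0 := fun v => LinearMap.congr_fun pf v
  have hψe : ∀ v w, e' (ψ (e' v) w) = ψ (e' v) (πW e w) := by
    intro v w
    have : e' ∘ₗ ψ (e' v) = ψ (e' v) ∘ₗ πW e := by
      apply hext'
      · simp only [LinearMap.comp_apply, hψ1, hWe1, map_zero, appE]
      · simp only [LinearMap.comp_apply, hψ0, hψ1, hWe0, appEFE]
    exact LinearMap.congr_fun this w
  have hψf : ∀ v w, f' (ψ (e' v) w) = ψ (e' v) (πW f w) := by
    intro v w
    have : f' ∘ₗ ψ (e' v) = ψ (e' v) ∘ₗ πW f := by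
      apply hext'
      · simp only [LinearMap.comp_apply, hψ1, hψ0, hWf1]
      · simp only [LinearMap.comp_apply, hψ0, hWf0, map_zero, appF]
    exact LinearMap.congr_fun this w
  have hψh : ∀ v w, πV h (ψ (e' v) w) = ψ (e' v) (πW h w) := by
    intro v w
    rw [hVh, LinearMap.sub_apply, Module.End.mul_apply, Module.End.mul_apply, hψf, hψe, hψe, hψf,
      ← map_sub, ← hef, hW]
    rfl
  have hψJ : ∀ s ∈ J, ∀ v w, πV s (ψ (e' v) w) = ψ (e' v) (πW s w) := by
    intro s hs v w
    obtain ⟨α, β, γ, rfl⟩ := hspan s hs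
    simp only [map_add, map_smul, LinearMap.add_apply, LinearMap.smul_apply, ← he', ← hf',
      hψe, hψf, hψh]
  -- elements acting as scalars on W commute with e' and f'
  have hcE : ∀ y : L, (∃ c : k, πW y = c • (1 : Module.End k W)) → ∀ v,
      πV y (e' v) = e' (πV y v) := by
    intro y hy v
    have h1 : πV y * e' - e' * πV y = 0 := by rw [he', ← hV, hcomm' e heJ y hy, map_zero]
    exact LinearMap.congr_fun (sub_eq_zero.1 h1) v
  have hcF : ∀ y : L, (∃ c : k, πW y = c • (1 : Module.End k W)) → ∀ v,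
      πV y (f' v) = f' (πV y v) := by
    intro y hy v
    have h1 : πV y * f' - f' * πV y = 0 := by rw [hf', ← hV, hcomm' f hfJ y hy, map_zero]
    exact LinearMap.congr_fun (sub_eq_zero.1 h1) v
  have hψy : ∀ y : L, (∃ c : k, πW y = c • (1 : Module.End k W)) → ∀ v w,
      πV y (ψ v w) = ψ (πV y v) w := by
    intro y hy v w
    simp only [ψ, LinearMap.add_apply, LinearMap.smulRight_apply, map_add, map_smul, hcF y hy]
  have hψinj : ∀ v w, w ≠ 0 → ψ (e' v) w = 0 → e' v = 0 := by
    intro v w hw h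
    obtain ⟨a, b, rfl⟩ := hdec w
    rw [map_add, map_smul, map_smul, hψ1, hψ0] at h
    have h1 : a • e' v = 0 := by
      have := congrArg p h
      rwa [map_add, map_smul, map_smul, appPE, appPF, smul_zero, add_zero, map_zero] at this
    rcases smul_eq_zero.1 h1 with ha | ha
    · rw [ha, zero_smul, zero_add] at h
      rcases smul_eq_zero.1 h with hb | hb
      · exfalso
        apply hw
        rw [ha, hb]; simp
      · rw [← appEFE, hb, map_zero]
    · exact ha
  -- the key computation
  have key : ∀ x, πV x * πV x = πV x → πW x * πW x = πW x → LinearMap.trace k W (πW x) = 1 →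
      ∀ s ∈ J, ∀ y, ∀ c : k, πW y = c • (1 : Module.End k W) → x = s + y →
      ∀ v, πV y (e' v) = c • e' v := by
    intro x hxV hxW hxt s hs y c hc hxs v
    have hy : ∃ c : k, πW y = c • (1 : Module.End k W) := ⟨c, hc⟩
    -- the trace of `πW s` is zero
    have htr : ∀ a b : L, LinearMap.trace k W (πW ⁅a, b⁆) = 0 := by
      intro a b
      rw [hW, map_sub, LinearMap.trace_mul_comm, sub_self]
    have hts : LinearMap.trace k W (πW s) = 0 := by
      obtain ⟨α, β, γ, rfl⟩ := hspan s hs
      have t1 : LinearMap.trace k W (πW e) = 0 := by rw [he, map_smul, map_smul, htr, smul_zero]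
      have t2 : LinearMap.trace k W (πW f) = 0 := by
        rw [hf, map_neg, map_smul, map_neg, map_smul, htr, smul_zero, neg_zero]
      have t3 : LinearMap.trace k W (πW h) = 0 := by rw [hh, htr]
      simp [t1, t2, t3]
    have hc2 : c = (2 : k)⁻¹ := by
      have : LinearMap.trace k W (πW x) = 2 * c := by
        rw [hxs, map_add, map_add, hts, hc, map_smul, LinearMap.trace_one, hdim, smul_eq_mul]
        push_cast; ring
      rw [hxt] at this
      field_simp
      linear_combination -this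
    have hQ : ∀ w, πW x w = πW s w + (2 : k)⁻¹ • w := by
      intro w
      rw [hxs, map_add, hc, hc2]; simp
    -- eigenvectors
    have hQne1 : πW x ≠ 1 := by
      intro h
      rw [h, LinearMap.trace_one, hdim] at hxt
      norm_num at hxt
    have hQne0 : πW x ≠ 0 := by
      intro h
      rw [h, map_zero] at hxt
      exact zero_ne_one hxt
    have hQQ : ∀ w, πW x (πW x w) = πW x w := fun w => LinearMap.congr_fun hxW w
    obtain ⟨w₁, hw₁, hQw₁⟩ : ∃ w, w ≠ 0 ∧ πW x w = w := by
      obtain ⟨w, hw⟩ : ∃ w, πW x w ≠ 0 := by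
        by_contra hcon
        push Not at hcon
        exact hQne0 (LinearMap.ext hcon)
      exact ⟨πW x w, hw, hQQ w⟩
    obtain ⟨w₀, hw₀, hQw₀⟩ : ∃ w, w ≠ 0 ∧ πW x w = 0 := by
      obtain ⟨w, hw⟩ : ∃ w, w - πW x w ≠ 0 := by
        by_contra hcon
        push Not at hcon
        exact hQne1 (LinearMap.ext fun w => (sub_eq_zero.1 (hcon w)).symm)
      exact ⟨w - πW x w, hw, by rw [map_sub, hQQ, sub_self]⟩
    have hSw₁ : πW s w₁ = (2 : k)⁻¹ • w₁ := by
      have := hQ w₁
      rw [hQw₁] at this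
      have h2 : πW s w₁ = w₁ - (2 : k)⁻¹ • w₁ := by rw [eq_sub_iff_add_eq]; exact this.symm
      rw [h2]; module
    have hSw₀ : πW s w₀ = -((2 : k)⁻¹ • w₀) := by
      have := hQ w₀
      rw [hQw₀] at this
      exact eq_neg_of_add_eq_zero_left this.symm
    -- action of x
    have hx : ∀ v w, πV x (ψ (e' v) w) = ψ (e' v) (πW s w) + ψ (e' (πV y v)) w := by
      intro v w
      rw [hxs, map_add, LinearMap.add_apply, hψJ s hs, hψy y hy, hcE y hy]
    have hxx : ∀ v, πV x (πV x v) = πV x v := fun v => LinearMap.congr_fun hxV v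
    set v₁ := πV y v with hv₁
    set v₂ := πV y v₁ with hv₂
    have eq1 := hxx (ψ (e' v) w₁)
    have eq0 := hxx (ψ (e' v) w₀)
    rw [hx, map_add, hx, hx, ← hv₁, ← hv₂] at eq1 eq0
    simp only [hSw₁, hSw₀, map_smul, map_neg] at eq1 eq0
    -- consequences
    have c1 : e' v₂ = (4 : k)⁻¹ • e' v := by
      have : ψ (e' (v₂ - (4 : k)⁻¹ • v)) w₁ = 0 := by
        rw [map_sub, map_smul, sub_eq_add_neg, ← neg_smul, hψadd, hψsmul]
        have h2 : ψ (e' v₂) w₁ = (4 : k)⁻¹ • ψ (e' v) w₁ := by
          have h3 : ψ (e' v₂) w₁ = ((2 : k)⁻¹ • ψ (e' v) w₁ + ψ (e' v₁) w₁) -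
            ((2 : k)⁻¹ • (2 : k)⁻¹ • ψ (e' v) w₁ + (2 : k)⁻¹ • ψ (e' v₁) w₁ +
              (2 : k)⁻¹ • ψ (e' v₁) w₁) := by
            rw [← eq1]; module
          rw [h3]; module
        rw [h2]; module
      have h4 := hψinj _ _ hw₁ this
      rw [map_sub, map_smul, sub_eq_zero] at h4
      exact h4
    have c0 : e' v₂ - (2 : k) • e' v₁ + (3 / 4 : k) • e' v = 0 := by
      have : ψ (e' (v₂ - (2 : k) • v₁ + (3 / 4 : k) • v)) w₀ = 0 := by
        have h5 : e' (v₂ - (2 : k) • v₁ + (3 / 4 : k) • v) =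
          e' v₂ + ((-2 : k) • e' v₁ + (3 / 4 : k) • e' v) := by
          rw [map_add, map_sub, map_smul, map_smul]; module
        rw [h5, hψadd, hψadd, hψsmul, hψsmul]
        have h3 : ψ (e' v₂) w₀ = (-((2 : k)⁻¹ • ψ (e' v) w₀) + ψ (e' v₁) w₀) -
            (-((2 : k)⁻¹ • -((2 : k)⁻¹ • ψ (e' v) w₀)) + -((2 : k)⁻¹ • ψ (e' v₁) w₀) +
              -((2 : k)⁻¹ • ψ (e' v₁) w₀)) := by
          rw [← eq0]; module
        rw [h3]; module
      have h4 := hψinj _ _ hw₀ this
      rw [← h4, map_add, map_sub, map_smul, map_smul]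
    rw [hcE y hy, ← hv₁, hc2]
    have c2 : (2 : k) • e' v₁ = e' v := by
      have : e' v = e' v₂ + (3 / 4 : k) • e' v := by rw [c1]; module
      rw [this, ← sub_eq_zero, ← neg_eq_zero, ← c0]
      module
    rw [← c2]; module
  -- the ideal
  let I : LieIdeal k L :=
    { carrier := {x | ∃ s ∈ J, ∃ y, ∃ c : k, πW y = c • (1 : Module.End k W) ∧ x = s + y ∧
        ∀ v, πV y (e' v) = c • e' v}
      add_mem' := by
        rintro _ _ ⟨s, hs, y, c, hc, rfl, h1⟩ ⟨s', hs', y', c', hc', rfl, h1'⟩
        refine ⟨s + s', J.add_mem hs hs', y + y', c + c', ?_, by abel, ?_⟩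
        · rw [map_add, hc, hc', add_smul]
        · intro v
          rw [map_add, LinearMap.add_apply, h1, h1', add_smul]
      zero_mem' := ⟨0, J.zero_mem, 0, 0, by simp, by simp, fun v => by simp⟩
      smul_mem' := by
        rintro a _ ⟨s, hs, y, c, hc, rfl, h1⟩
        refine ⟨a • s, J.smul_mem _ hs, a • y, a * c, ?_, smul_add _ _ _, ?_⟩
        · rw [map_smul, hc, smul_smul]
        · intro v
          rw [map_smul, LinearMap.smul_apply, h1, smul_smul]
      lie_mem := by
        rintro x _ ⟨s, hs, y, c, hc, rfl, h1⟩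
        obtain ⟨s', hs', y', ⟨c', hc'⟩, rfl⟩ := hsplit x
        refine ⟨⁅s', s⁆, lie_mem_right k L J s' s hs, ⁅y', y⁆, 0, ?_, ?_, ?_⟩
        · rw [hW, hc, hc']
          simp only [smul_mul_assoc, one_mul, mul_smul_comm, mul_one, zero_smul]
          rw [smul_comm, sub_self]
        · rw [add_lie, lie_add, lie_add, hcomm s' hs' y ⟨c, hc⟩, hcomm' s hs y' ⟨c', hc'⟩]
          abel
        · intro v
          rw [hV, LinearMap.sub_apply, Module.End.mul_apply, Module.End.mul_apply, h1, map_smul,
            hcE y' ⟨c', hc'⟩, h1, sub_self, zero_smul] }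
  have hI : I = ⊤ := by
    apply hgen
    intro x hxV hxW hxt
    obtain ⟨s, hs, y, ⟨c, hc⟩, hxs⟩ := hsplit x
    exact ⟨s, hs, y, c, hc, hxs, key x hxV hxW hxt s hs y c hc hxs⟩
  obtain ⟨v₀, hv₀⟩ := he'0
  refine ⟨ψ (e' v₀), ?_, ?_⟩
  · intro h0
    apply hv₀
    rw [← hψ1 (e' v₀), h0, LinearMap.zero_apply]
  · intro x w
    have hx : x ∈ I := by rw [hI]; trivial
    obtain ⟨s, hs, y, c, hc, rfl, h1⟩ := hx
    have a1 : πW (s + y) w = πW s w + c • w := by rw [map_add, hc]; simp
    have a2 : ∀ v, πV (s + y) v = πV s v + πV y v := fun v => by rw [map_add]; rfl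
    rw [a1, a2, (ψ (e' v₀)).map_add, (ψ (e' v₀)).map_smul, hψJ s hs, hψy y ⟨c, hc⟩, h1, hψsmul]

end

end Pool.Agent.Helper26.AF
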