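import Pool.Agent.Helper26.AF.Lie

/-! Detecting a two-dimensional module of a reductive Lie algebra from its eigenvalues. -/

set_option linter.unusedSectionVars false
set_option linter.unusedSimpArgs false

namespace Pool.Agent.Helper26.AF

section

variable {k : Type} [Field k] [CharZero k]
variable {V W : Type} [AddCommGroup V] [Module k V] [AddCommGroup W] [Module k W]
variable {L : Type} [LieRing L] [LieAlgebra k L]
variable {πV : L →ₗ[k] Module.End k V} {πW : L →ₗ[k] Module.End k W}

/-- an `sl₂`-triple spanning `J`, in standard position on `W`, with square-zero images on `V` -/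
structure Triple (πV : L →ₗ[k] Module.End k V) (πW : L →ₗ[k] Module.End k W)
    (J : LieIdeal k L) where
  e : L
  f : L
  h : L
  u₁ : W
  u₀ : W
  B : Module.Basis (Fin 2) k W
  hB0 : B 0 = u₁
  hB1 : B 1 = u₀
  heJ : e ∈ J
  hfJ : f ∈ J
  hhJ : h ∈ J
  hWe1 : πW e u₁ = 0
  hWe0 : πW e u₀ = u₁
  hWf1 : πW f u₁ = u₀
  hWf0 : πW f u₀ = 0
  hWh1 : πW h u₁ = u₁
  hWh0 : πW h u₀ = -u₀
  hspan : ∀ s ∈ J, ∃ α β γ : k, s = α • e + β • h + γ • f
  hef : ⁅e, f⁆ = h
  ee : πV e * πV e = 0
  ff : πV f * πV f = 0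
  efe : πV e * πV f * πV e = πV e
  fef : πV f * πV e * πV f = πV f

theorem exists_triple (hV : IsLieRep πV) (hW : IsLieRep πW) [FiniteDimensional k W]
    (hdim : Module.finrank k W = 2)
    (hirr : ∀ P : Submodule k W, (∀ x, ∀ w ∈ P, πW x w ∈ P) → P = ⊥ ∨ P = ⊤)
    {J : LieIdeal k L} (hJ : IsCompl (scalarIdeal hW) J) {x₀ : L}
    (hx₀V : πV x₀ * πV x₀ = πV x₀) (hx₀W : πW x₀ * πW x₀ = πW x₀)
    (hx₀t : LinearMap.trace k W (πW x₀) = 1) : Nonempty (Triple πV πW J) := by
  classical
  set P := πW x₀ with hP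
  -- basis adapted to P
  have hPne1 : P ≠ 1 := by
    intro h
    rw [h, LinearMap.trace_one, hdim] at hx₀t
    norm_num at hx₀t
  have hPne0 : P ≠ 0 := by
    intro h
    rw [h, map_zero] at hx₀t
    exact zero_ne_one hx₀t
  have hPP : ∀ w, P (P w) = P w := fun w => LinearMap.congr_fun hx₀W w
  obtain ⟨u₁, hu₁, hPu₁⟩ : ∃ u₁, u₁ ≠ 0 ∧ P u₁ = u₁ := by
    obtain ⟨w, hw⟩ : ∃ w, P w ≠ 0 := by
      by_contra hcon
      push Not at hcon
      exact hPne0 (LinearMap.ext hcon)
    exact ⟨P w, hw, hPP w⟩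
  obtain ⟨u₀, hu₀, hPu₀⟩ : ∃ u₀, u₀ ≠ 0 ∧ P u₀ = 0 := by
    obtain ⟨w, hw⟩ : ∃ w, w - P w ≠ 0 := by
      by_contra hcon
      push Not at hcon
      exact hPne1 (LinearMap.ext fun w => (sub_eq_zero.1 (hcon w)).symm)
    exact ⟨w - P w, hw, by rw [map_sub, hPP, sub_self]⟩
  have hli : LinearIndependent k ![u₁, u₀] := by
    rw [LinearIndependent.pair_iff]
    intro a b hab
    have h1 : a • u₁ = 0 := by
      have := congrArg P hab
      rwa [map_add, map_smul, map_smul, hPu₁, hPu₀, smul_zero, add_zero, map_zero] at this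
    have ha : a = 0 := (smul_eq_zero.1 h1).resolve_right hu₁
    rw [ha, zero_smul, zero_add] at hab
    exact ⟨ha, (smul_eq_zero.1 hab).resolve_right hu₀⟩
  let B : Module.Basis (Fin 2) k W :=
    basisOfLinearIndependentOfCardEqFinrank hli (by simp [hdim])
  have hB0 : B 0 = u₁ := by simp [B]
  have hB1 : B 1 = u₀ := by simp [B]
  have hdec : ∀ w : W, ∃ a b : k, w = a • u₁ + b • u₀ := by
    intro w
    refine ⟨B.repr w 0, B.repr w 1, ?_⟩
    conv_lhs => rw [← B.sum_repr w]
    rw [Fin.sum_univ_two, hB0, hB1]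
  have hext : ∀ S T : Module.End k W, S u₁ = T u₁ → S u₀ = T u₀ → S = T := by
    intro S T h1 h0
    apply B.ext
    intro i
    fin_cases i
    · simpa [hB0] using h1
    · simpa [hB1] using h0
  -- linear independence in the form used below
  have hind : ∀ a b : k, a • u₁ + b • u₀ = 0 → a = 0 ∧ b = 0 := by
    intro a b h
    exact LinearIndependent.pair_iff.1 hli a b h
  -- raising and lowering elements
  have hE : ∃ e₁ : L, πW e₁ u₁ = 0 ∧ πW e₁ u₀ = u₁ := by
    obtain ⟨y, hy⟩ : ∃ y, ∀ b : k, πW y u₀ ≠ b • u₀ := by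
      by_contra hcon
      push Not at hcon
      rcases hirr (Submodule.span k {u₀}) (by
        intro x w hw
        obtain ⟨c, rfl⟩ := Submodule.mem_span_singleton.1 hw
        obtain ⟨b, hb⟩ := hcon x
        rw [map_smul, hb]
        exact Submodule.smul_mem _ _ (Submodule.smul_mem _ _ (Submodule.mem_span_singleton_self _)))
        with h | h
      · rw [Submodule.span_singleton_eq_bot] at h
        exact hu₀ h
      · have h3 := finrank_span_singleton (K := k) hu₀
        rw [h, finrank_top, hdim] at h3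
        omega
    obtain ⟨a, b, hab⟩ := hdec (πW y u₀)
    obtain ⟨c, d, hcd⟩ := hdec (πW y u₁)
    have ha : a ≠ 0 := by
      rintro rfl
      exact hy b (by rw [hab, zero_smul, zero_add])
    refine ⟨(2 * a)⁻¹ • (⁅x₀, y⁆ + ⁅x₀, ⁅x₀, y⁆⁆), ?_, ?_⟩
    · simp only [map_smul, map_add, hW x₀, LinearMap.smul_apply, LinearMap.add_apply,
        LinearMap.sub_apply, Module.End.mul_apply]
      rw [← hP]
      simp only [hcd, map_add, map_sub, map_smul, hPu₁, hPu₀, smul_zero, add_zero]
      rw [smul_eq_zero]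
      right
      module
    · simp only [map_smul, map_add, hW x₀, LinearMap.smul_apply, LinearMap.add_apply,
        LinearMap.sub_apply, Module.End.mul_apply]
      rw [← hP]
      simp only [hab, map_add, map_smul, hPu₁, hPu₀, smul_zero, add_zero, map_zero, sub_zero]
      rw [← add_smul, smul_smul, ← two_mul, inv_mul_cancel₀ (by simpa using ha), one_smul]
  have hF : ∃ f₁ : L, πW f₁ u₀ = 0 ∧ πW f₁ u₁ = u₀ := by
    obtain ⟨y, hy⟩ : ∃ y, ∀ b : k, πW y u₁ ≠ b • u₁ := by
      by_contra hcon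
      push Not at hcon
      rcases hirr (Submodule.span k {u₁}) (by
        intro x w hw
        obtain ⟨c, rfl⟩ := Submodule.mem_span_singleton.1 hw
        obtain ⟨b, hb⟩ := hcon x
        rw [map_smul, hb]
        exact Submodule.smul_mem _ _ (Submodule.smul_mem _ _ (Submodule.mem_span_singleton_self _)))
        with h | h
      · rw [Submodule.span_singleton_eq_bot] at h
        exact hu₁ h
      · have h3 := finrank_span_singleton (K := k) hu₁
        rw [h, finrank_top, hdim] at h3
        omega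
    obtain ⟨a, b, hab⟩ := hdec (πW y u₀)
    obtain ⟨c, d, hcd⟩ := hdec (πW y u₁)
    have hd : d ≠ 0 := by
      rintro rfl
      exact hy c (by rw [hcd, zero_smul, add_zero])
    refine ⟨(2 * d)⁻¹ • (⁅x₀, ⁅x₀, y⁆⁆ - ⁅x₀, y⁆), ?_, ?_⟩
    · simp only [map_smul, map_sub, hW x₀, LinearMap.smul_apply,
        LinearMap.sub_apply, Module.End.mul_apply]
      rw [← hP]
      simp only [hab, map_add, map_smul, hPu₁, hPu₀, smul_zero, add_zero, map_zero, sub_zero]
      rw [sub_self, smul_zero]
    · simp only [map_smul, map_sub, hW x₀, LinearMap.smul_apply,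
        LinearMap.sub_apply, Module.End.mul_apply]
      rw [← hP]
      simp only [hcd, map_add, map_sub, map_smul, hPu₁, hPu₀, smul_zero, add_zero]
      rw [inv_smul_eq_iff₀ (by simpa using hd)]
      module
  obtain ⟨e₁, he₁1, he₁0⟩ := hE
  obtain ⟨f₁, hf₁0, hf₁1⟩ := hF
  -- the complement of the scalar ideal
  have hJ0 : ∀ s ∈ J, (∃ c : k, πW s = c • (1 : Module.End k W)) → s = 0 := by
    intro s hs hc
    have : s ∈ scalarIdeal hW ⊓ J := ⟨hc, hs⟩
    rw [hJ.inf_eq_bot] at this
    simpa using this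
  have hsplit : ∀ x : L, ∃ s ∈ J, ∃ y : L, (∃ c : k, πW y = c • (1 : Module.End k W)) ∧
      x = s + y := by
    intro x
    have : x ∈ scalarIdeal hW ⊔ J := by rw [hJ.sup_eq_top]; trivial
    rw [LieSubmodule.mem_sup] at this
    obtain ⟨y, hy, s, hs, rfl⟩ := this
    exact ⟨s, hs, y, hy, add_comm _ _⟩
  have hcomm : ∀ s ∈ J, ∀ y : L, (∃ c : k, πW y = c • (1 : Module.End k W)) → ⁅s, y⁆ = 0 := by
    intro s hs y hy
    apply hJ0
    · rw [← lie_skew]
      exact J.neg_mem (lie_mem_right k L J y s hs)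
    · obtain ⟨c, hc⟩ := hy
      refine ⟨0, ?_⟩
      rw [hW, hc]
      simp
  obtain ⟨se, hse, ye, ⟨ce, hce⟩, hee⟩ := hsplit e₁
  obtain ⟨sf, hsf, yf, ⟨cf, hcf⟩, hff⟩ := hsplit f₁
  have hWse : πW se = πW e₁ - ce • 1 := by rw [hee, map_add, hce]; simp
  have hWsf : πW sf = πW f₁ - cf • 1 := by rw [hff, map_add, hcf]; simp
  set h : L := ⁅se, sf⁆ with hh
  have hhJ : h ∈ J := lie_mem_right k L J se sf hsf
  have hWh1 : πW h u₁ = u₁ := by
    rw [hh, hW, hWse, hWsf]
    simp only [LinearMap.sub_apply, Module.End.mul_apply, LinearMap.smul_apply,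
      Module.End.one_apply, map_sub, map_smul, he₁1, he₁0, hf₁1, smul_zero, map_zero]
    module
  have hWh0 : πW h u₀ = -u₀ := by
    rw [hh, hW, hWse, hWsf]
    simp only [LinearMap.sub_apply, Module.End.mul_apply, LinearMap.smul_apply,
      Module.End.one_apply, map_sub, map_smul, he₁0, hf₁0, hf₁1, smul_zero, map_zero]
    module
  set e : L := (2 : k)⁻¹ • ⁅h, se⁆ with he
  set f : L := -((2 : k)⁻¹ • ⁅h, sf⁆) with hf
  have heJ : e ∈ J := J.smul_mem _ (lie_mem_right k L J h se hse)
  have hfJ : f ∈ J := J.neg_mem (J.smul_mem _ (lie_mem_right k L J h sf hsf))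
  have hWe1 : πW e u₁ = 0 := by
    rw [he, map_smul, hW, hWse]
    simp only [LinearMap.sub_apply, Module.End.mul_apply, LinearMap.smul_apply,
      Module.End.one_apply, map_sub, map_smul, he₁1, hWh1, smul_zero, map_zero]
    module
  have hWe0 : πW e u₀ = u₁ := by
    rw [he, map_smul, hW, hWse]
    simp only [LinearMap.sub_apply, Module.End.mul_apply, LinearMap.smul_apply,
      Module.End.one_apply, map_sub, map_smul, he₁0, hWh1, hWh0, map_neg]
    module
  have hWf1 : πW f u₁ = u₀ := by
    rw [hf, map_neg, map_smul, hW, hWsf]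
    simp only [LinearMap.sub_apply, LinearMap.neg_apply, Module.End.mul_apply,
      LinearMap.smul_apply, Module.End.one_apply, map_sub, map_smul, hf₁1, hWh1, hWh0]
    have : (-u₀ - cf • u₁ - (u₀ - cf • u₁) : W) = (-2 : k) • u₀ := by module
    rw [this, smul_smul]
    norm_num
  have hWf0 : πW f u₀ = 0 := by
    rw [hf, map_neg, map_smul, hW, hWsf]
    simp only [LinearMap.sub_apply, LinearMap.neg_apply, Module.End.mul_apply,
      LinearMap.smul_apply, Module.End.one_apply, map_sub, map_smul, hf₁0, hWh0, map_neg, map_zero]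
    module
  -- `J` is spanned by `e`, `h`, `f`
  have hspan : ∀ s ∈ J, ∃ α β γ : k, s = α • e + β • h + γ • f := by
    intro s hs
    obtain ⟨a, c, h1⟩ := hdec (πW s u₁)
    obtain ⟨b, d, h0⟩ := hdec (πW s u₀)
    refine ⟨b, (a - d) / 2, c, ?_⟩
    apply sub_eq_zero.1
    apply hJ0 _ (J.sub_mem hs (J.add_mem (J.add_mem (J.smul_mem _ heJ) (J.smul_mem _ hhJ))
      (J.smul_mem _ hfJ)))
    refine ⟨(a + d) / 2, hext _ _ ?_ ?_⟩
    · simp only [map_sub, map_add, map_smul, LinearMap.sub_apply, LinearMap.add_apply,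
        LinearMap.smul_apply, Module.End.one_apply, h1, hWe1, hWh1, hWf1, smul_zero]
      module
    · simp only [map_sub, map_add, map_smul, LinearMap.sub_apply, LinearMap.add_apply,
        LinearMap.smul_apply, Module.End.one_apply, h0, hWe0, hWh0, hWf0, smul_zero]
      module
  have hef : ⁅e, f⁆ = h := by
    apply sub_eq_zero.1
    apply hJ0 _ (J.sub_mem (lie_mem_right k L J e f hfJ) hhJ)
    refine ⟨0, hext _ _ ?_ ?_⟩
    · simp only [map_sub, hW e f, LinearMap.sub_apply, Module.End.mul_apply, hWe1, hWe0, hWf1,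
        hWh1, map_zero, LinearMap.smul_apply, zero_smul, LinearMap.zero_apply]
      module
    · simp only [map_sub, hW e f, LinearMap.sub_apply, Module.End.mul_apply, hWe0, hWf0, hWf1,
        hWh0, map_zero, LinearMap.smul_apply, zero_smul, LinearMap.zero_apply]
      module
  have hhe : ⁅h, e⁆ = (2 : k) • e := by
    apply sub_eq_zero.1
    apply hJ0 _ (J.sub_mem (lie_mem_right k L J h e heJ) (J.smul_mem _ heJ))
    refine ⟨0, hext _ _ ?_ ?_⟩
    · simp only [map_sub, map_smul, hW h e, LinearMap.sub_apply, Module.End.mul_apply, hWe1,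
        hWh1, map_zero, LinearMap.smul_apply, zero_smul, smul_zero,
        LinearMap.zero_apply]
      module
    · simp only [map_sub, map_smul, hW h e, LinearMap.sub_apply, Module.End.mul_apply, hWe0,
        hWh0, hWh1, map_neg, LinearMap.smul_apply, zero_smul, LinearMap.zero_apply]
      module
  have hhf : ⁅h, f⁆ = (-2 : k) • f := by
    apply sub_eq_zero.1
    apply hJ0 _ (J.sub_mem (lie_mem_right k L J h f hfJ) (J.smul_mem _ hfJ))
    refine ⟨0, hext _ _ ?_ ?_⟩
    · simp only [map_sub, map_smul, hW h f, LinearMap.sub_apply, Module.End.mul_apply, hWf1,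
        hWh1, hWh0, LinearMap.smul_apply, zero_smul, LinearMap.zero_apply]
      module
    · simp only [map_sub, map_smul, hW h f, LinearMap.sub_apply, Module.End.mul_apply, hWf0,
        hWh0, map_zero, map_neg, LinearMap.smul_apply, zero_smul, smul_zero,
        LinearMap.zero_apply]
      module
  obtain ⟨s₀, hs₀, y₀, ⟨c₀, hc₀⟩, hx₀⟩ := hsplit x₀
  have hs₀h : s₀ = (2 : k)⁻¹ • h := by
    apply sub_eq_zero.1
    apply hJ0 _ (J.sub_mem hs₀ (J.smul_mem _ hhJ))
    have hWs₀ : πW s₀ = P - c₀ • 1 := by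
      rw [hP, hx₀, map_add, hc₀]; simp
    refine ⟨(2 : k)⁻¹ - c₀, hext _ _ ?_ ?_⟩
    · simp only [map_sub, map_smul, hWs₀, LinearMap.sub_apply, LinearMap.smul_apply,
        Module.End.one_apply, hPu₁, hWh1]
      module
    · simp only [map_sub, map_smul, hWs₀, LinearMap.sub_apply, LinearMap.smul_apply,
        Module.End.one_apply, hPu₀, hWh0]
      module
  have hcomm' : ∀ s ∈ J, ∀ y : L, (∃ c : k, πW y = c • (1 : Module.End k W)) → ⁅y, s⁆ = 0 := by
    intro s hs y hy
    rw [← lie_skew, hcomm s hs y hy, neg_zero]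
  have hx₀e : ⁅x₀, e⁆ = e := by
    rw [hx₀, hs₀h, add_lie, smul_lie, hhe, smul_smul, hcomm' e heJ y₀ ⟨c₀, hc₀⟩, add_zero]
    norm_num
  have hx₀f : ⁅x₀, f⁆ = -f := by
    rw [hx₀, hs₀h, add_lie, smul_lie, hhf, smul_smul, hcomm' f hfJ y₀ ⟨c₀, hc₀⟩, add_zero]
    norm_num
  -- the action on V
  have two : ∀ T : Module.End k V, T = -T → T = 0 := by
    intro T hT
    have : (2 : k) • T = 0 := by
      rw [two_smul]
      nth_rewrite 2 [hT]
      rw [add_neg_cancel]
    exact (smul_eq_zero.1 this).resolve_left two_ne_zero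
  set p := πV x₀ with hp
  set e' := πV e with he'
  set f' := πV f with hf'
  have r1 : p * e' - e' * p = e' := by rw [hp, he', ← hV, hx₀e]
  have r2 : p * f' - f' * p = -f' := by rw [hp, hf', ← hV, hx₀f, map_neg]
  have pep : p * e' * p = 0 := by
    have := congrArg (fun T => p * T) r1
    simp only [mul_sub, ← mul_assoc, hx₀V] at this
    have h2 : p * e' - p * e' * p = p * e' := this
    rw [sub_eq_self] at h2
    exact h2
  have ep : e' * p = 0 := by
    apply two
    have := congrArg (fun T => T * p) r1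
    simp only [sub_mul] at this
    rw [pep, mul_assoc e' p p, hx₀V, zero_sub] at this
    exact this.symm
  have pe : p * e' = e' := by
    rw [ep, sub_zero] at r1; exact r1
  have pfp : p * f' * p = 0 := by
    have := congrArg (fun T => T * p) r2
    simp only [sub_mul, neg_mul] at this
    rw [mul_assoc f' p p, hx₀V] at this
    have h2 : p * f' * p - f' * p = - (f' * p) := this
    rw [sub_eq_neg_self] at h2
    exact h2
  have pf : p * f' = 0 := by
    apply two
    have := congrArg (fun T => p * T) r2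
    simp only [mul_sub, ← mul_assoc, hx₀V, mul_neg] at this
    have h2 : p * f' - p * f' * p = -(p * f') := this
    rw [pfp, sub_zero] at h2
    exact h2
  have fp : f' * p = f' := by
    rw [pf, zero_sub] at r2
    exact neg_injective r2
  have ee : e' * e' = 0 := by
    calc e' * e' = e' * (p * e') := by rw [pe]
      _ = (e' * p) * e' := by rw [mul_assoc]
      _ = 0 := by rw [ep, zero_mul]
  have ff : f' * f' = 0 := by
    calc f' * f' = (f' * p) * f' := by rw [fp]
      _ = f' * (p * f') := by rw [mul_assoc]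
      _ = 0 := by rw [pf, mul_zero]
  have hVh : πV h = e' * f' - f' * e' := by rw [← hef, hV]
  have efe : e' * f' * e' = e' := by
    have h1 : πV h * e' - e' * πV h = (2 : k) • e' := by rw [he', ← hV, hhe, map_smul]
    rw [hVh] at h1
    have h2 : (e' * f' - f' * e') * e' - e' * (e' * f' - f' * e') =
        (2 : k) • (e' * f' * e') := by
      rw [sub_mul, mul_sub, mul_assoc f' e' e', ee, mul_zero, sub_zero, ← mul_assoc e' e' f', ee,
        zero_mul, zero_sub, sub_neg_eq_add, ← mul_assoc e' f' e', two_smul]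
    rw [h2] at h1
    exact smul_right_injective _ (two_ne_zero (α := k)) h1
  have fef : f' * e' * f' = f' := by
    have h1 : πV h * f' - f' * πV h = (-2 : k) • f' := by rw [hf', ← hV, hhf, map_smul]
    rw [hVh] at h1
    have h2 : (e' * f' - f' * e') * f' - f' * (e' * f' - f' * e') =
        (-2 : k) • (f' * e' * f') := by
      rw [sub_mul, mul_sub, mul_assoc e' f' f', ff, mul_zero, zero_sub, ← mul_assoc f' f' e', ff,
        zero_mul, sub_zero, ← mul_assoc f' e' f', neg_smul, two_smul]
      abel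
    rw [h2] at h1
    have h3 : (-2 : k) ≠ 0 := by norm_num
    exact smul_right_injective _ h3 h1
  exact ⟨⟨e, f, h, u₁, u₀, B, hB0, hB1, heJ, hfJ, hhJ, hWe1, hWe0, hWf1, hWf0, hWh1, hWh0, hspan,
    hef, ee, ff, efe, fef⟩⟩

end

end Pool.Agent.Helper26.AF
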