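import Pool.Agent.Helper26.AF.Lie2

/-! Detecting a two-dimensional module of a reductive Lie algebra from its eigenvalues. -/

set_option linter.unusedSectionVars false
set_option linter.unusedSimpArgs false

namespace Pool.Agent.Helper26.AF

section

variable {k : Type} [Field k] [CharZero k] [IsAlgClosed k]
variable {V W : Type} [AddCommGroup V] [Module k V] [FiniteDimensional k V] [AddCommGroup W]
  [Module k W] [FiniteDimensional k W]

lemma two_roots (hdim : Module.finrank k W = 2) (q : Module.End k W) :
    ∃ a b : k, q.HasEigenvalue a ∧ q.HasEigenvalue b ∧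
      (∀ w, q (q w) - (a + b) • q w + (a * b) • w = 0) ∧ LinearMap.trace k W q = a + b := by
  have hs : q.charpoly.Splits := IsAlgClosed.splits q.charpoly
  have hc : Multiset.card q.charpoly.roots = 2 := by
    rw [← hs.natDegree_eq_card_roots, LinearMap.charpoly_natDegree, hdim]
  obtain ⟨a, b, hab⟩ := Multiset.card_eq_two.1 hc
  have hne : q.charpoly ≠ 0 := (LinearMap.charpoly_monic q).ne_zero
  refine ⟨a, b, ?_, ?_, ?_, ?_⟩
  · rw [Module.End.hasEigenvalue_iff_isRoot_charpoly, ← Polynomial.mem_roots hne, hab]
    simp
  · rw [Module.End.hasEigenvalue_iff_isRoot_charpoly, ← Polynomial.mem_roots hne, hab]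
    simp
  · intro w
    have h1 := hs.eq_prod_roots
    rw [hab, (LinearMap.charpoly_monic q).leadingCoeff] at h1
    simp only [map_one, one_mul, Multiset.insert_eq_cons, Multiset.map_cons,
      Multiset.map_singleton, Multiset.prod_cons, Multiset.prod_singleton] at h1
    have h2 := LinearMap.aeval_self_charpoly q
    rw [h1] at h2
    have h3 := LinearMap.congr_fun h2 w
    simp only [map_mul, map_sub, Polynomial.aeval_X, Polynomial.aeval_C, Module.End.mul_apply,
      LinearMap.sub_apply, Module.algebraMap_end_apply, LinearMap.zero_apply, map_smul] at h3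
    rw [← h3]
    module
  · rw [Module.End.trace_eq_sum_roots_charpoly_of_splits hs, hab]
    simp

/-- an eigenvalue of an idempotent is `0` or `1` -/
lemma eig_idem {p : Module.End k V} (hp : p * p = p) {a : k} (ha : p.HasEigenvalue a) :
    a = 0 ∨ a = 1 := by
  obtain ⟨v, hv⟩ := ha.exists_hasEigenvector
  have h1 : p v = a • v := hv.apply_eq_smul
  have h2 : p (p v) = p v := LinearMap.congr_fun hp v
  rw [h1, map_smul, h1, smul_smul] at h2
  have h3 : (a * a - a) • v = 0 := by rw [sub_smul, h2, sub_self]
  have h4 := (smul_eq_zero.1 h3).resolve_right hv.2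
  have h5 : a * (a - 1) = 0 := by linear_combination h4
  rcases mul_eq_zero.1 h5 with h | h
  · exact Or.inl h
  · exact Or.inr (sub_eq_zero.1 h)

variable {L : Type} [LieRing L] [LieAlgebra k L]
variable {πV : L →ₗ[k] Module.End k V} {πW : L →ₗ[k] Module.End k W}

/-- elements acting on `V` as idempotents act on `W` as `0`, `1` or an idempotent of rank one -/
lemma gen_cases (hV : IsLieRep πV) (hW : IsLieRep πW) (hdim : Module.finrank k W = 2)
    (hirr : ∀ P : Submodule k W, (∀ x, ∀ w ∈ P, πW x w ∈ P) → P = ⊥ ∨ P = ⊤)
    (hfaith : ∀ x, πV x = 0 → x = 0)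
    (heig : ∀ x a, (πW x).HasEigenvalue a → (πV x).HasEigenvalue a) {x : L}
    (hx : πV x * πV x = πV x) :
    πW x = 0 ∨ πW x = 1 ∨ (πW x * πW x = πW x ∧ LinearMap.trace k W (πW x) = 1) := by
  obtain ⟨a, b, ha, hb, hq, ht⟩ := two_roots hdim (πW x)
  have ha' := eig_idem hx (heig x a ha)
  have hb' := eig_idem hx (heig x b hb)
  by_cases hab : a = b
  · subst hab
    -- `q - a` is nilpotent and central
    set N : Module.End k W := πW x - a • 1 with hN
    have hNN : N * N = 0 := by
      apply LinearMap.ext
      intro w
      rw [hN]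
      simp only [Module.End.mul_apply, LinearMap.sub_apply, LinearMap.smul_apply,
        Module.End.one_apply, map_sub, map_smul, LinearMap.zero_apply]
      rw [← hq w]
      module
    have hNN' : ∀ T : Module.End k W, N * (N * T) = 0 := fun T => by
      rw [← mul_assoc, hNN, zero_mul]
    have hWN : ∀ y : L, πW ⁅x, y⁆ = N * πW y - πW y * N := by
      intro y
      rw [hW, hN, sub_mul, mul_sub, smul_mul_assoc, mul_smul_comm, one_mul, mul_one]
      abel
    have hcube : ∀ z : L, ⁅x, ⁅x, ⁅x, z⁆⁆⁆ = ⁅x, z⁆ := by
      intro z
      apply sub_eq_zero.1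
      apply hfaith
      have hPP' : ∀ T : Module.End k V, πV x * (πV x * T) = πV x * T := fun T => by
        rw [← mul_assoc, hx]
      have hV' : ∀ y : L, πV ⁅x, y⁆ = πV x * πV y - πV y * πV x := fun y => hV x y
      rw [map_sub, hV', hV', hV']
      simp only [mul_sub, sub_mul, mul_assoc, hx, hPP']
      abel
    have hcomm : ∀ z : L, N * πW z = πW z * N := by
      intro z
      have h1 := congrArg πW (hcube z)
      rw [hWN, hWN, hWN] at h1
      have h2 : N * (N * (N * πW z - πW z * N) - (N * πW z - πW z * N) * N) -
          (N * (N * πW z - πW z * N) - (N * πW z - πW z * N) * N) * N = 0 := by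
        simp only [mul_sub, sub_mul, mul_assoc, hNN, hNN', mul_zero]
        simp
      rw [h2] at h1
      exact sub_eq_zero.1 h1.symm
    have hNz : N = 0 := by
      rcases hirr (LinearMap.ker N) (by
        intro z w hw
        rw [LinearMap.mem_ker] at hw ⊢
        have := LinearMap.congr_fun (hcomm z) w
        simp only [Module.End.mul_apply] at this
        rw [this, hw, map_zero]) with h | h
      · exfalso
        have h1 : ∀ w : W, w = 0 := by
          intro w
          have h2 : N w ∈ LinearMap.ker N := by
            rw [LinearMap.mem_ker]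
            exact LinearMap.congr_fun hNN w
          rw [h, Submodule.mem_bot] at h2
          have h3 : w ∈ LinearMap.ker N := h2
          rwa [h, Submodule.mem_bot] at h3
        have : Nontrivial W := Module.nontrivial_of_finrank_pos (R := k) (by omega)
        obtain ⟨w, hw⟩ := exists_ne (0 : W)
        exact hw (h1 w)
      · exact LinearMap.ker_eq_top.1 h
    rcases ha' with rfl | rfl
    · left
      rw [hN, zero_smul, sub_zero] at hNz
      exact hNz
    · right; left
      rw [hN, one_smul] at hNz
      exact sub_eq_zero.1 hNz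
  · right; right
    have hsum : a + b = 1 := by
      rcases ha' with rfl | rfl <;> rcases hb' with rfl | rfl <;> simp_all
    have hprod : a * b = 0 := by
      rcases ha' with rfl | rfl <;> rcases hb' with rfl | rfl <;> simp_all
    refine ⟨LinearMap.ext fun w => ?_, by rw [ht, hsum]⟩
    have := hq w
    rw [hsum, hprod, one_smul, zero_smul, add_zero, sub_eq_zero] at this
    exact this

end

end Pool.Agent.Helper26.AF
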