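import Pool.Agent.Helper26.AF.Lie3
import Pool.Agent.Helper26.AF.Common

/-! Detecting a two-dimensional module of a reductive Lie algebra from its eigenvalues. -/

set_option linter.unusedSectionVars false
set_option linter.unusedSimpArgs false

namespace Pool.Agent.Helper26.AF

section

variable {k : Type} [Field k] [CharZero k] [IsAlgClosed k]
variable {V W : Type} [AddCommGroup V] [Module k V] [FiniteDimensional k V] [AddCommGroup W]
  [Module k W] [FiniteDimensional k W]
variable {L : Type} [LieRing L] [LieAlgebra k L]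
variable {πV : L →ₗ[k] Module.End k V} {πW : L →ₗ[k] Module.End k W}

/-- central elements -/
def cen (k L : Type) [Field k] [LieRing L] [LieAlgebra k L] : Submodule k L where
  carrier := {z | ∀ x : L, ⁅x, z⁆ = 0}
  add_mem' := by
    intro a b ha hb x
    rw [lie_add, ha x, hb x, add_zero]
  zero_mem' := by intro x; exact lie_zero x
  smul_mem' := by
    intro c a ha x
    rw [lie_smul, ha x, smul_zero]

/-- half the trace -/
noncomputable def tau (πW : L →ₗ[k] Module.End k W) : L →ₗ[k] k :=
  (2 : k)⁻¹ • (LinearMap.trace k W ∘ₗ πW)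

lemma central_scalar (hW : IsLieRep πW) (hdim : Module.finrank k W = 2)
    (hirr : ∀ P : Submodule k W, (∀ x, ∀ w ∈ P, πW x w ∈ P) → P = ⊥ ∨ P = ⊤) {z : L}
    (hz : z ∈ cen k L) : πW z = tau πW z • (1 : Module.End k W) := by
  obtain ⟨a, -, ha, -, -, -⟩ := two_roots hdim (πW z)
  obtain ⟨v, hv⟩ := ha.exists_hasEigenvector
  have hcomm : ∀ x w, πW x (πW z w) = πW z (πW x w) := by
    intro x w
    have h1 : πW x * πW z - πW z * πW x = 0 := by rw [← hW, hz x, map_zero]
    exact LinearMap.congr_fun (sub_eq_zero.1 h1) w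
  have htop : Module.End.eigenspace (πW z) a = ⊤ := by
    rcases hirr (Module.End.eigenspace (πW z) a) (by
      intro x w hw
      rw [Module.End.mem_eigenspace_iff] at hw ⊢
      rw [← hcomm, hw, map_smul]) with h | h
    · exact absurd h ha
    · exact h
  have hsc : πW z = a • (1 : Module.End k W) := by
    apply LinearMap.ext
    intro w
    have : w ∈ Module.End.eigenspace (πW z) a := by rw [htop]; trivial
    rw [Module.End.mem_eigenspace_iff] at this
    rw [this]; rfl
  have : tau πW z = a := by
    unfold tau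
    simp only [LinearMap.smul_apply, LinearMap.comp_apply, hsc, map_smul, LinearMap.trace_one,
      hdim, smul_eq_mul]
    push_cast
    field_simp
  rw [this]; exact hsc

/-- the family of operators -/
noncomputable def shifted (πV : L →ₗ[k] Module.End k V) (πW : L →ₗ[k] Module.End k W) :
    cen k L →ₗ[k] Module.End k V where
  toFun z := πV z - tau πW z • 1
  map_add' a b := by
    rw [Submodule.coe_add, map_add, map_add, add_smul]
    abel
  map_smul' c a := by
    rw [Submodule.coe_smul, map_smul, map_smul, RingHom.id_apply, smul_sub, smul_assoc]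

lemma shifted_apply (z : cen k L) (v : V) :
    shifted πV πW z v = πV z v - tau πW z • v := rfl

/-- there is a highest weight vector on which the centre acts as on `W` -/
lemma exists_vector (hV : IsLieRep πV) (hW : IsLieRep πW) (hdim : Module.finrank k W = 2)
    (hirr : ∀ P : Submodule k W, (∀ x, ∀ w ∈ P, πW x w ∈ P) → P = ⊥ ∨ P = ⊤)
    (hcompl : ∀ P : Submodule k V, (∀ x, ∀ v ∈ P, πV x v ∈ P) →
      ∃ Q : Submodule k V, (∀ x, ∀ v ∈ Q, πV x v ∈ Q) ∧ IsCompl P Q)
    (heig : ∀ x a, (πW x).HasEigenvalue a → (πV x).HasEigenvalue a) {J : LieIdeal k L}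
    (t : Triple πV πW J) :
    ∃ v : V, v ≠ 0 ∧ πV t.e (πV t.f v) = v ∧ ∀ z ∈ cen k L, πV z v = tau πW z • v := by
  have hcz : ∀ z ∈ cen k L, ∀ x v, πV x (πV z v) = πV z (πV x v) := by
    intro z hz x v
    have h1 : πV x * πV z - πV z * πV x = 0 := by rw [← hV, hz x, map_zero]
    exact LinearMap.congr_fun (sub_eq_zero.1 h1) v
  have appE : ∀ v, πV t.e (πV t.e v) = 0 := fun v => LinearMap.congr_fun t.ee v
  have appF : ∀ v, πV t.f (πV t.f v) = 0 := fun v => LinearMap.congr_fun t.ff v
  have appEFE : ∀ v, πV t.e (πV t.f (πV t.e v)) = πV t.e v := fun v =>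
    LinearMap.congr_fun t.efe v
  have appFEF : ∀ v, πV t.f (πV t.e (πV t.f v)) = πV t.f v := fun v =>
    LinearMap.congr_fun t.fef v
  have appH : ∀ v, πV t.h v = πV t.e (πV t.f v) - πV t.f (πV t.e v) := by
    intro v
    rw [← t.hef, hV]; rfl
  have key : ∃ v ∈ LinearMap.range (πV t.e * πV t.f), v ≠ 0 ∧
      ∀ z, shifted πV πW z v = 0 := by
    refine common_kernel (shifted πV πW) (LinearMap.range (πV t.e * πV t.f)) ?_ ?_ ?_ ?_
    · rintro ⟨z, hz⟩ _ ⟨w, rfl⟩
      refine ⟨shifted πV πW ⟨z, hz⟩ w, ?_⟩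
      simp only [Module.End.mul_apply, shifted_apply, map_sub, map_smul, hcz z hz]
    · rintro ⟨z, hz⟩ ⟨z', hz'⟩
      apply LinearMap.ext
      intro v
      simp only [Module.End.mul_apply, shifted_apply, map_sub, map_smul, hcz z hz]
      module
    · rintro ⟨z, hz⟩ v - h
      obtain ⟨Q, hQ, hPQ⟩ := hcompl (LinearMap.ker (shifted πV πW ⟨z, hz⟩)) (by
        intro x v hv
        rw [LinearMap.mem_ker, shifted_apply, sub_eq_zero] at hv ⊢
        rw [← hcz z hz, hv, map_smul])
      have hmem : v ∈ LinearMap.ker (shifted πV πW ⟨z, hz⟩) ⊔ Q := by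
        rw [hPQ.sup_eq_top]; trivial
      obtain ⟨a, ha, b, hb, rfl⟩ := Submodule.mem_sup.1 hmem
      rw [LinearMap.mem_ker] at ha
      rw [map_add, ha, zero_add] at h ⊢
      have hbQ : shifted πV πW ⟨z, hz⟩ b ∈ Q := by
        rw [shifted_apply]
        exact Q.sub_mem (hQ z b hb) (Q.smul_mem _ hb)
      have h0 : shifted πV πW ⟨z, hz⟩ b ∈ LinearMap.ker (shifted πV πW ⟨z, hz⟩) ⊓ Q := ⟨h, hbQ⟩
      rw [hPQ.inf_eq_bot, Submodule.mem_bot] at h0
      exact h0
    · rintro ⟨z, hz⟩
      set c := tau πW z with hc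
      -- a generic number
      have hfin := Module.End.finite_hasEigenvalue (πV z)
      have hfin2 : Set.Finite (((fun μ => μ - c) '' {μ | (πV z).HasEigenvalue μ}) ∪
          ((fun μ => (μ - c) / 2) '' {μ | (πV z).HasEigenvalue μ})) :=
        (hfin.image _).union (hfin.image _)
      obtain ⟨l, hl⟩ := hfin2.exists_notMem
      simp only [Set.mem_union, not_or] at hl
      obtain ⟨hl1, hl2⟩ := hl
      have hn1 : ¬ (πV z).HasEigenvalue (c + l) := fun h => hl1 ⟨_, h, by ring⟩
      have hn2 : ¬ (πV z).HasEigenvalue (c + 2 * l) := fun h => hl2 ⟨_, h, by ring⟩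
      have hu : (πW (z + l • t.h)).HasEigenvalue (c + l) := by
        refine Module.End.hasEigenvalue_of_hasEigenvector (x := t.u₁)
          ⟨Module.End.mem_eigenspace_iff.2 ?_, ?_⟩
        · rw [map_add, map_smul, LinearMap.add_apply, LinearMap.smul_apply, t.hWh1,
            central_scalar hW hdim hirr hz, LinearMap.smul_apply, Module.End.one_apply, add_smul]
        · rw [← t.hB0]
          exact t.B.ne_zero 0
      obtain ⟨v, hv⟩ := (heig _ _ hu).exists_hasEigenvector
      have hv1 : πV z v + l • (πV t.e (πV t.f v) - πV t.f (πV t.e v)) = (c + l) • v := by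
        have := hv.apply_eq_smul
        rw [map_add, map_smul, LinearMap.add_apply, LinearMap.smul_apply, appH] at this
        exact this
      have hAv : πV z (πV t.e (πV t.f v)) = c • πV t.e (πV t.f v) := by
        have h1 := congrArg (fun x => πV t.e (πV t.f x)) hv1
        simp only [map_add, map_smul, map_sub, appF, map_zero, sub_zero, appFEF, hcz z hz] at h1
        have h2 : πV z (πV t.e (πV t.f v)) = (c + l) • πV t.e (πV t.f v) -
            l • πV t.e (πV t.f v) := by rw [← h1]; abel
        rw [h2]; module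
      have hBv : πV z (πV t.f (πV t.e v)) = (c + 2 * l) • πV t.f (πV t.e v) := by
        have h1 := congrArg (fun x => πV t.f (πV t.e x)) hv1
        simp only [map_add, map_smul, map_sub, appE, map_zero, zero_sub, appEFE, hcz z hz, map_neg, map_neg,
          smul_neg] at h1
        have h2 : πV z (πV t.f (πV t.e v)) = (c + l) • πV t.f (πV t.e v) +
            l • πV t.f (πV t.e v) := by rw [← h1]; abel
        rw [h2]; module
      refine ⟨πV t.e (πV t.f v), ⟨v, rfl⟩, ?_, ?_⟩
      · intro h0
        have hB0 : πV t.f (πV t.e v) = 0 := by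
          by_contra hne
          exact hn2 (Module.End.hasEigenvalue_of_hasEigenvector
            ⟨Module.End.mem_eigenspace_iff.2 hBv, hne⟩)
        rw [h0, hB0, sub_zero, smul_zero, add_zero] at hv1
        exact hn1 (Module.End.hasEigenvalue_of_hasEigenvector
            ⟨Module.End.mem_eigenspace_iff.2 hv1, hv.2⟩)
      · rw [shifted_apply, hAv, sub_self]
  obtain ⟨v, hvP, hv0, hv⟩ := key
  obtain ⟨w, rfl⟩ := hvP
  refine ⟨_, hv0, ?_, ?_⟩
  · simp only [Module.End.mul_apply]
    rw [appFEF]
  · intro z hz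
    have := hv ⟨z, hz⟩
    rw [shifted_apply, sub_eq_zero] at this
    exact this

end

end Pool.Agent.Helper26.AF
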