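import Pool.Agent.Helper26.AF.Lie4

/-! Detecting a two-dimensional module of a reductive Lie algebra from its eigenvalues. -/

set_option linter.unusedSectionVars false
set_option linter.unusedSimpArgs false

namespace Pool.Agent.Helper26.AF

section

variable {k : Type} [Field k] [CharZero k] [IsAlgClosed k]
variable {V W : Type} [AddCommGroup V] [Module k V] [FiniteDimensional k V] [AddCommGroup W]
  [Module k W] [FiniteDimensional k W]
variable {L : Type} [LieRing L] [LieAlgebra k L]
variable {πV : L →ₗ[k] Module.End k V} {πW : L →ₗ[k] Module.End k W}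

variable {M : Type} [AddCommGroup M] [Module k M] [FiniteDimensional k M]

/-- the maps commuting with `J` and with the centre -/
def homJ (ι : M ≃ₗ[k] (W →ₗ[k] V)) (πV : L →ₗ[k] Module.End k V) (πW : L →ₗ[k] Module.End k W)
    (J : LieIdeal k L) : Submodule k M where
  carrier := {m | ∀ y, (y ∈ J ∨ y ∈ cen k L) → ∀ w, πV y (ι m w) = ι m (πW y w)}
  add_mem' := by
    intro a b ha hb y hy w
    rw [map_add, LinearMap.add_apply, map_add, ha y hy, hb y hy, LinearMap.add_apply]
  zero_mem' := by intro y _ w; simp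
  smul_mem' := by
    intro c a ha y hy w
    rw [map_smul, LinearMap.smul_apply, map_smul, ha y hy, LinearMap.smul_apply]

/-- the action on homomorphisms -/
def dmap (πV : L →ₗ[k] Module.End k V) (πW : L →ₗ[k] Module.End k W) (x : L)
    (φ : W →ₗ[k] V) : W →ₗ[k] V :=
  πV x ∘ₗ φ - φ ∘ₗ πW x

lemma dmap_apply (πV : L →ₗ[k] Module.End k V) (πW : L →ₗ[k] Module.End k W) (x : L) (φ : W →ₗ[k] V) (w : W) :
    dmap πV πW x φ w = πV x (φ w) - φ (πW x w) := rfl

lemma dmap_lie (hV : IsLieRep πV) (hW : IsLieRep πW) (x y : L) (φ : W →ₗ[k] V) :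
    dmap πV πW ⁅x, y⁆ φ = dmap πV πW x (dmap πV πW y φ) - dmap πV πW y (dmap πV πW x φ) := by
  apply LinearMap.ext
  intro w
  simp only [LinearMap.sub_apply, dmap_apply, map_sub]
  rw [hV x y, hW x y]
  simp only [LinearMap.sub_apply, Module.End.mul_apply, map_sub]
  abel

lemma dmap_mem (ι : M ≃ₗ[k] (W →ₗ[k] V)) (hV : IsLieRep πV) (hW : IsLieRep πW)
    {J : LieIdeal k L} (x : L) {m : M} (hφ : m ∈ homJ ι πV πW J) :
    ι.symm (dmap πV πW x (ι m)) ∈ homJ ι πV πW J := by
  intro y hy w
  rw [ι.apply_symm_apply]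
  set φ := ι m
  have h0 : ∀ y, (y ∈ J ∨ y ∈ cen k L) → dmap πV πW y φ = 0 := by
    intro y hy
    apply LinearMap.ext
    intro w
    rw [dmap_apply, hφ y hy, sub_self]; rfl
  have hyx : (⁅y, x⁆ ∈ J ∨ ⁅y, x⁆ ∈ cen k L) := by
    rcases hy with hy | hy
    · left
      rw [← lie_skew]
      exact J.neg_mem (lie_mem_right k L J x y hy)
    · left
      rw [← lie_skew, hy x, neg_zero]
      exact J.zero_mem
  have h1 := dmap_lie hV hW y x φ
  rw [h0 _ hyx, h0 y hy] at h1
  have h2 := LinearMap.congr_fun h1 w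
  simp only [LinearMap.zero_apply, LinearMap.sub_apply, dmap_apply, map_zero, sub_self,
    sub_zero] at h2
  rw [dmap_apply, dmap_apply]
  exact (sub_eq_zero.1 h2.symm)

/-- the representation on `homJ` -/
noncomputable def actU (ι : M ≃ₗ[k] (W →ₗ[k] V)) (hV : IsLieRep πV) (hW : IsLieRep πW)
    (J : LieIdeal k L) : L →ₗ[k] Module.End k (homJ ι πV πW J) where
  toFun x :=
    { toFun := fun φ => ⟨ι.symm (dmap πV πW x (ι φ)), dmap_mem ι hV hW x φ.2⟩
      map_add' := fun a b => by
        apply Subtype.ext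
        apply ι.injective
        apply LinearMap.ext
        intro w
        simp only [dmap_apply, Submodule.coe_add, LinearMap.add_apply, map_add,
          ι.apply_symm_apply]
        abel
      map_smul' := fun c a => by
        apply Subtype.ext
        apply ι.injective
        apply LinearMap.ext
        intro w
        simp only [dmap_apply, Submodule.coe_smul, LinearMap.smul_apply, map_smul,
          RingHom.id_apply, smul_sub, ι.apply_symm_apply] }
  map_add' a b := by
    apply LinearMap.ext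
    intro φ
    apply Subtype.ext
    apply ι.injective
    apply LinearMap.ext
    intro w
    simp only [LinearMap.coe_mk, AddHom.coe_mk, dmap_apply, Submodule.coe_add,
      LinearMap.add_apply, map_add, ι.apply_symm_apply]
    abel
  map_smul' c a := by
    apply LinearMap.ext
    intro φ
    apply Subtype.ext
    apply ι.injective
    apply LinearMap.ext
    intro w
    simp only [LinearMap.coe_mk, AddHom.coe_mk, dmap_apply, Submodule.coe_smul,
      LinearMap.smul_apply, map_smul, RingHom.id_apply, smul_sub, ι.apply_symm_apply]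

lemma actU_apply (ι : M ≃ₗ[k] (W →ₗ[k] V)) (hV : IsLieRep πV) (hW : IsLieRep πW)
    (J : LieIdeal k L) (x : L) (φ : homJ ι πV πW J) :
    ι (actU ι hV hW J x φ : homJ ι πV πW J) = dmap πV πW x (ι φ) :=
  ι.apply_symm_apply _

lemma actU_lie (ι : M ≃ₗ[k] (W →ₗ[k] V)) (hV : IsLieRep πV) (hW : IsLieRep πW)
    (J : LieIdeal k L) : IsLieRep (actU ι hV hW J) := by
  intro x y
  apply LinearMap.ext
  intro φ
  apply Subtype.ext
  apply ι.injective
  rw [actU_apply, dmap_lie hV hW, LinearMap.sub_apply, Submodule.coe_sub, map_sub,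
    Module.End.mul_apply, Module.End.mul_apply, actU_apply, actU_apply, actU_apply, actU_apply]

/-- traces vanish -/
lemma trace_actU (ι : M ≃ₗ[k] (W →ₗ[k] V)) (hV : IsLieRep πV) (hW : IsLieRep πW) (J : LieIdeal k L)
    (hred : ∀ I : LieIdeal k L, ∃ J : LieIdeal k L, IsCompl I J) (x : L) :
    LinearMap.trace k _ (actU ι hV hW J x) = 0 := by
  have hbr : ∀ x y : L, LinearMap.trace k _ (actU ι hV hW J ⁅x, y⁆) = 0 := by
    intro x y
    rw [actU_lie ι hV hW J x y, map_sub, LinearMap.trace_mul_comm, sub_self]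
  let K : LieIdeal k L :=
    { carrier := {x | LinearMap.trace k _ (actU ι hV hW J x) = 0}
      add_mem' := by
        intro a b ha hb
        change LinearMap.trace k _ (actU ι hV hW J (a + b)) = 0
        rw [map_add, map_add]
        have ha' : LinearMap.trace k _ (actU ι hV hW J a) = 0 := ha
        have hb' : LinearMap.trace k _ (actU ι hV hW J b) = 0 := hb
        rw [ha', hb', add_zero]
      zero_mem' := by
        change LinearMap.trace k _ (actU ι hV hW J 0) = 0
        rw [map_zero, map_zero]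
      smul_mem' := by
        intro c a ha
        change LinearMap.trace k _ (actU ι hV hW J (c • a)) = 0
        have ha' : LinearMap.trace k _ (actU ι hV hW J a) = 0 := ha
        rw [map_smul, map_smul, ha', smul_zero]
      lie_mem := by
        intro y a _
        exact hbr y a }
  obtain ⟨C, hC⟩ := hred K
  have hCbot : ∀ c ∈ C, c = 0 := by
    intro c hc
    have hcen : c ∈ cen k L := by
      intro y
      have h1 : ⁅y, c⁆ ∈ C := lie_mem_right k L C y c hc
      have h2 : ⁅y, c⁆ ∈ K := hbr y c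
      have h3 : ⁅y, c⁆ ∈ K ⊓ C := ⟨h2, h1⟩
      rw [hC.inf_eq_bot] at h3
      simpa using h3
    have h0 : actU ι hV hW J c = 0 := by
      apply LinearMap.ext
      intro φ
      apply Subtype.ext
      apply ι.injective
      rw [actU_apply]
      apply LinearMap.ext
      intro w
      rw [dmap_apply, φ.2 c (Or.inr hcen), sub_self]
      simp
    have h2 : c ∈ K := by
      change LinearMap.trace k _ (actU ι hV hW J c) = 0
      rw [h0, map_zero]
    have h3 : c ∈ K ⊓ C := ⟨h2, hc⟩
    rw [hC.inf_eq_bot] at h3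
    simpa using h3
  have hx : x ∈ K ⊔ C := by rw [hC.sup_eq_top]; trivial
  rw [LieSubmodule.mem_sup] at hx
  obtain ⟨y, hy, c, hc, rfl⟩ := hx
  rw [hCbot c hc, add_zero]
  exact hy

/-- the generators act trivially on `homJ` -/
lemma actU_gen (ι : M ≃ₗ[k] (W →ₗ[k] V)) (hV : IsLieRep πV) (hW : IsLieRep πW) (hdim : Module.finrank k W = 2)
    (hirr : ∀ P : Submodule k W, (∀ x, ∀ w ∈ P, πW x w ∈ P) → P = ⊥ ∨ P = ⊤)
    (hfaith : ∀ x, πV x = 0 → x = 0)
    (hred : ∀ I : LieIdeal k L, ∃ J : LieIdeal k L, IsCompl I J)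
    (heig : ∀ x a, (πW x).HasEigenvalue a → (πV x).HasEigenvalue a)
    {J : LieIdeal k L} (hJ : IsCompl (scalarIdeal hW) J) {x : L}
    (hx : πV x * πV x = πV x) : actU ι hV hW J x = 0 := by
  have hxx : ∀ v, πV x (πV x v) = πV x v := fun v => LinearMap.congr_fun hx v
  have htr := trace_actU ι hV hW J hred x
  rcases gen_cases hV hW hdim hirr hfaith heig hx with h0 | h1 | ⟨hq, hqt⟩
  · have hid : IsIdempotentElem (actU ι hV hW J x) := by
      apply LinearMap.ext
      intro φ
      apply Subtype.ext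
      apply ι.injective
      apply LinearMap.ext
      intro w
      rw [Module.End.mul_apply, actU_apply, actU_apply]
      simp only [dmap_apply, h0, LinearMap.zero_apply, map_zero, sub_zero, hxx]
    exact LinearMap.IsIdempotentElem.eq_zero_of_trace_eq_zero hid htr
  · have hid : IsIdempotentElem (-(actU ι hV hW J x)) := by
      apply LinearMap.ext
      intro φ
      apply Subtype.ext
      apply ι.injective
      apply LinearMap.ext
      intro w
      rw [Module.End.mul_apply, LinearMap.neg_apply, LinearMap.neg_apply, map_neg, neg_neg,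
        actU_apply, Submodule.coe_neg, map_neg, actU_apply, LinearMap.neg_apply]
      simp only [dmap_apply, h1, Module.End.one_apply, map_sub, hxx]
      abel
    have h2 : -(actU ι hV hW J x) = 0 :=
      LinearMap.IsIdempotentElem.eq_zero_of_trace_eq_zero hid (by rw [map_neg, htr, neg_zero])
    exact neg_eq_zero.1 h2
  · -- rank one
    have hqq : ∀ w, πW x (πW x w) = πW x w := fun w => LinearMap.congr_fun hq w
    have hne1 : πW x ≠ 1 := by
      intro h
      rw [h, LinearMap.trace_one, hdim] at hqt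
      norm_num at hqt
    have hne0 : πW x ≠ 0 := by
      intro h
      rw [h, map_zero] at hqt
      exact zero_ne_one hqt
    obtain ⟨w₁, hw₁, hqw₁⟩ : ∃ w, w ≠ 0 ∧ πW x w = w := by
      obtain ⟨w, hw⟩ : ∃ w, πW x w ≠ 0 := by
        by_contra hcon
        push Not at hcon
        exact hne0 (LinearMap.ext hcon)
      exact ⟨πW x w, hw, hqq w⟩
    obtain ⟨w₀, hw₀, hqw₀⟩ : ∃ w, w ≠ 0 ∧ πW x w = 0 := by
      obtain ⟨w, hw⟩ : ∃ w, w - πW x w ≠ 0 := by
        by_contra hcon
        push Not at hcon
        exact hne1 (LinearMap.ext fun w => (sub_eq_zero.1 (hcon w)).symm)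
      exact ⟨w - πW x w, hw, by rw [map_sub, hqq, sub_self]⟩
    -- a map commuting with `J` with a kernel vanishes
    have hker : ∀ χ : W →ₗ[k] V, ι.symm χ ∈ homJ ι πV πW J → ∀ w, w ≠ 0 → χ w = 0 → χ = 0 := by
      intro χ hχ w hw h
      rcases hirr (LinearMap.ker χ) (by
        intro y v hv
        rw [LinearMap.mem_ker] at hv ⊢
        have hy : y ∈ scalarIdeal hW ⊔ J := by rw [hJ.sup_eq_top]; trivial
        rw [LieSubmodule.mem_sup] at hy
        obtain ⟨s, ⟨c, hc⟩, j, hj, rfl⟩ := hy
        have hjv := hχ j (Or.inl hj) v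
        rw [ι.apply_symm_apply] at hjv
        rw [map_add, LinearMap.add_apply, hc, LinearMap.smul_apply, Module.End.one_apply,
          map_add, map_smul, hv, smul_zero, zero_add, ← hjv, hv, map_zero])
        with h1 | h1
      · exfalso
        have : w ∈ LinearMap.ker χ := h
        rw [h1, Submodule.mem_bot] at this
        exact hw this
      · exact LinearMap.ker_eq_top.1 h1
    apply LinearMap.ext
    intro m
    apply Subtype.ext
    apply ι.injective
    rw [actU_apply, LinearMap.zero_apply, ZeroMemClass.coe_zero, map_zero]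
    set φ := ι m with hφ
    set ψ := dmap πV πW x φ with hψ
    have hψU : ι.symm ψ ∈ homJ ι πV πW J := dmap_mem ι hV hW x m.2
    have hψ'U : ι.symm (dmap πV πW x ψ) ∈ homJ ι πV πW J := by
      have := dmap_mem ι hV hW x hψU
      rwa [ι.apply_symm_apply] at this
    have hp : ∀ w, πV x (φ w) = ψ w + φ (πW x w) := by
      intro w
      rw [hψ, dmap_apply, sub_add_cancel]
    have hpψ : ∀ w, πV x (ψ w) = dmap πV πW x ψ w + ψ (πW x w) := by
      intro w
      rw [dmap_apply πV πW x ψ w, sub_add_cancel]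
    have hkey : ∀ w, (dmap πV πW x ψ - ψ) w = -((2 : k) • ψ (πW x w)) := by
      intro w
      have h1 := hxx (φ w)
      rw [hp, map_add, hpψ, hp, hqq] at h1
      rw [LinearMap.sub_apply, sub_eq_iff_eq_add]
      have h2 : dmap πV πW x ψ w = (ψ w + φ (πW x w)) -
          (ψ (πW x w) + (ψ (πW x w) + φ (πW x w))) := by
        rw [← h1]; abel
      rw [h2]; module
    have hχ0 : dmap πV πW x ψ - ψ = 0 := by
      refine hker _ ?_ w₀ hw₀ ?_
      · rw [map_sub]
        exact Submodule.sub_mem _ hψ'U hψU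
      · rw [hkey, hqw₀, map_zero, smul_zero, neg_zero]
    refine hker ψ hψU w₁ hw₁ ?_
    have h1 := hkey w₁
    rw [hχ0, LinearMap.zero_apply, hqw₁, eq_comm, neg_eq_zero] at h1
    exact (smul_eq_zero.1 h1).resolve_left two_ne_zero

/-- auxiliary form of `lie_detect_local` -/
theorem lie_detect_aux (ι : M ≃ₗ[k] (W →ₗ[k] V)) (hV : IsLieRep πV) (hW : IsLieRep πW) (hdim : Module.finrank k W = 2)
    (hirr : ∀ P : Submodule k W, (∀ x, ∀ w ∈ P, πW x w ∈ P) → P = ⊥ ∨ P = ⊤)
    (hfaith : ∀ x, πV x = 0 → x = 0)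
    (hcompl : ∀ P : Submodule k V, (∀ x, ∀ v ∈ P, πV x v ∈ P) →
      ∃ Q : Submodule k V, (∀ x, ∀ v ∈ Q, πV x v ∈ Q) ∧ IsCompl P Q)
    (hred : ∀ I : LieIdeal k L, ∃ J : LieIdeal k L, IsCompl I J)
    (heig : ∀ x a, (πW x).HasEigenvalue a → (πV x).HasEigenvalue a)
    (hgen : ∀ I : LieIdeal k L, (∀ x, πV x * πV x = πV x → x ∈ I) → I = ⊤) :
    ∃ φ : W →ₗ[k] V, φ ≠ 0 ∧ ∀ x w, φ (πW x w) = πV x (φ w) := by
  classical
  have hx0 : ∃ x, πV x * πV x = πV x ∧ πW x * πW x = πW x ∧ LinearMap.trace k W (πW x) = 1 := by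
    by_contra hcon
    push Not at hcon
    have h1 : scalarIdeal hW = ⊤ := by
      apply hgen
      intro x hx
      rcases gen_cases hV hW hdim hirr hfaith heig hx with h | h | ⟨h, h'⟩
      · exact ⟨0, by rw [h, zero_smul]⟩
      · exact ⟨1, by rw [h, one_smul]⟩
      · exact absurd h' (hcon x hx h)
    have : Nontrivial W := Module.nontrivial_of_finrank_pos (R := k) (by omega)
    obtain ⟨w, hw⟩ := exists_ne (0 : W)
    rcases hirr (Submodule.span k {w}) (fun x v hv => by
      have hx : x ∈ scalarIdeal hW := by rw [h1]; trivial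
      obtain ⟨c, hc⟩ := hx
      rw [hc]
      exact Submodule.smul_mem _ _ hv) with h | h
    · rw [Submodule.span_singleton_eq_bot] at h
      exact hw h
    · have h3 := finrank_span_singleton (K := k) hw
      rw [h, finrank_top, hdim] at h3
      omega
  obtain ⟨x₀, hx₀V, hx₀W, hx₀t⟩ := hx0
  obtain ⟨J, hJ⟩ := hred (scalarIdeal hW)
  obtain ⟨t⟩ := exists_triple hV hW hdim hirr hJ hx₀V hx₀W hx₀t
  obtain ⟨v, hv0, hAv, hcv⟩ := exists_vector hV hW hdim hirr hcompl heig t
  have hev : πV t.e v = 0 := by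
    rw [← hAv]
    exact LinearMap.congr_fun t.ee _
  have hffv : πV t.f (πV t.f v) = 0 := LinearMap.congr_fun t.ff v
  -- the map
  let φ : W →ₗ[k] V := (t.B.coord 0).smulRight v + (t.B.coord 1).smulRight (πV t.f v)
  have hφ1 : φ t.u₁ = v := by
    simp only [φ, LinearMap.add_apply, LinearMap.smulRight_apply]
    rw [← t.hB0]
    simp
  have hφ0 : φ t.u₀ = πV t.f v := by
    simp only [φ, LinearMap.add_apply, LinearMap.smulRight_apply]
    rw [← t.hB1]
    simp
  have hext' : ∀ S T : W →ₗ[k] V, S t.u₁ = T t.u₁ → S t.u₀ = T t.u₀ → S = T := by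
    intro S T h1 h0
    apply t.B.ext
    intro i
    fin_cases i
    · simpa [t.hB0] using h1
    · simpa [t.hB1] using h0
  have hφe : ∀ w, πV t.e (φ w) = φ (πW t.e w) := by
    intro w
    have : πV t.e ∘ₗ φ = φ ∘ₗ πW t.e := by
      apply hext'
      · simp only [LinearMap.comp_apply, hφ1, t.hWe1, map_zero, hev]
      · simp only [LinearMap.comp_apply, hφ0, hφ1, t.hWe0, hAv]
    exact LinearMap.congr_fun this w
  have hφf : ∀ w, πV t.f (φ w) = φ (πW t.f w) := by
    intro w
    have : πV t.f ∘ₗ φ = φ ∘ₗ πW t.f := by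
      apply hext'
      · simp only [LinearMap.comp_apply, hφ1, hφ0, t.hWf1]
      · simp only [LinearMap.comp_apply, hφ0, t.hWf0, map_zero, hffv]
    exact LinearMap.congr_fun this w
  have hφh : ∀ w, πV t.h (φ w) = φ (πW t.h w) := by
    intro w
    rw [← t.hef, hV, hW]
    simp only [LinearMap.sub_apply, Module.End.mul_apply, hφe, hφf, map_sub]
  have hφU : ι.symm φ ∈ homJ ι πV πW J := by
    rintro y (hy | hy) w <;> rw [ι.apply_symm_apply]
    · obtain ⟨α, β, γ, rfl⟩ := t.hspan y hy
      simp only [map_add, map_smul, LinearMap.add_apply, LinearMap.smul_apply, hφe, hφf, hφh]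
    · have hcf : πV y (πV t.f v) = πV t.f (πV y v) := by
        have h1 : πV t.f * πV y - πV y * πV t.f = 0 := by rw [← hV, hy t.f, map_zero]
        exact (LinearMap.congr_fun (sub_eq_zero.1 h1) v).symm
      have : πV y ∘ₗ φ = φ ∘ₗ πW y := by
        rw [central_scalar hW hdim hirr hy]
        apply hext'
        · simp only [LinearMap.comp_apply, hφ1, LinearMap.smul_apply, Module.End.one_apply,
            map_smul, hcv y hy]
        · simp only [LinearMap.comp_apply, hφ0, LinearMap.smul_apply, Module.End.one_apply,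
            map_smul, hcf, hcv y hy]
      exact LinearMap.congr_fun this w
  -- the ideal
  let I : LieIdeal k L :=
    { carrier := {x | actU ι hV hW J x = 0}
      add_mem' := by
        intro a b ha hb
        change actU ι hV hW J (a + b) = 0
        have ha' : actU ι hV hW J a = 0 := ha
        have hb' : actU ι hV hW J b = 0 := hb
        rw [map_add, ha', hb', add_zero]
      zero_mem' := map_zero _
      smul_mem' := by
        intro c a ha
        change actU ι hV hW J (c • a) = 0
        have ha' : actU ι hV hW J a = 0 := ha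
        rw [map_smul, ha', smul_zero]
      lie_mem := by
        intro y a ha
        change actU ι hV hW J ⁅y, a⁆ = 0
        have ha' : actU ι hV hW J a = 0 := ha
        rw [actU_lie ι hV hW J y a, ha']
        simp }
  have hI : I = ⊤ := hgen I fun x hx => actU_gen ι hV hW hdim hirr hfaith hred heig hJ hx
  refine ⟨φ, ?_, ?_⟩
  · intro h0
    apply hv0
    rw [← hφ1, h0, LinearMap.zero_apply]
  · intro x w
    have hx : x ∈ I := by rw [hI]; trivial
    have hx' : actU ι hV hW J x = 0 := hx
    have h1 := congrArg (fun T : Module.End k (homJ ι πV πW J) =>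
      ι (T ⟨ι.symm φ, hφU⟩ : homJ ι πV πW J) w) hx'
    simp only [actU_apply, LinearMap.zero_apply, ZeroMemClass.coe_zero, ι.apply_symm_apply,
      map_zero] at h1
    rw [dmap_apply, sub_eq_zero] at h1
    exact h1.symm

/-- The core lemma: `πV`, `πW` representations of `L`, `πV` faithful and completely reducible,
`W` of dimension two and irreducible, the ideals of `L` complemented, `L` generated as an ideal by
the elements acting on `V` as idempotents, and every eigenvalue of every element on `W` also an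
eigenvalue on `V`. Then `W` embeds in `V`. -/
theorem lie_detect_local (hV : IsLieRep πV) (hW : IsLieRep πW) (hdim : Module.finrank k W = 2)
    (hirr : ∀ P : Submodule k W, (∀ x, ∀ w ∈ P, πW x w ∈ P) → P = ⊥ ∨ P = ⊤)
    (hfaith : ∀ x, πV x = 0 → x = 0)
    (hcompl : ∀ P : Submodule k V, (∀ x, ∀ v ∈ P, πV x v ∈ P) →
      ∃ Q : Submodule k V, (∀ x, ∀ v ∈ Q, πV x v ∈ Q) ∧ IsCompl P Q)
    (hred : ∀ I : LieIdeal k L, ∃ J : LieIdeal k L, IsCompl I J)
    (heig : ∀ x a, (πW x).HasEigenvalue a → (πV x).HasEigenvalue a)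
    (hgen : ∀ I : LieIdeal k L, (∀ x, πV x * πV x = πV x → x ∈ I) → I = ⊤) :
    ∃ φ : W →ₗ[k] V, φ ≠ 0 ∧ ∀ x w, φ (πW x w) = πV x (φ w) :=
  lie_detect_aux (M := W →ₗ[k] V) (LinearEquiv.refl k _) hV hW hdim hirr hfaith hcompl hred heig
    hgen

end

end Pool.Agent.Helper26.AF
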