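import Pool.Agent.Helper26.AF.Statement

/-! Characterisations of the existence of `A_f`. -/

open scoped TensorProduct

set_option linter.unusedSectionVars false

namespace Pool.Agent.Helper26.AF

section lemmas

variable {k : Type} [Field k] [CharZero k] [TopologicalSpace k] [IsTopologicalRing k]

/-- continuity of the coefficients of characteristic polynomials -/
lemma continuous_charpoly_coeff {Γ V : Type} [Group Γ] [TopologicalSpace Γ] [AddCommGroup V]
    [Module k V] [FiniteDimensional k V] {ρ : Representation k Γ V} (hρ : ContRep ρ) (i : ℕ) :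
    Continuous fun g => (ρ g).charpoly.coeff i := by
  let b := Module.finBasis k V
  let p := (Matrix.charpoly.univ k (Fin (Module.finrank k V))).coeff i
  have h : (fun g => (ρ g).charpoly.coeff i) =
      fun g => MvPolynomial.eval (fun ij => b.coord ij.1 (ρ g (b ij.2))) p := by
    funext g
    have := Matrix.charpoly.univ_coeff_eval₂Hom (Fin (Module.finrank k V)) (RingHom.id k)
      (fun ij => b.coord ij.1 (ρ g (b ij.2))) i
    rw [← LinearMap.charpoly_toMatrix (ρ g) b]
    have h2 : LinearMap.toMatrix b b (ρ g) =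
      Matrix.of (Function.curry fun ij => b.coord ij.1 (ρ g (b ij.2))) := by
      ext x y
      rw [LinearMap.toMatrix_apply]
      rfl
    rw [h2, ← this]
    rfl
  rw [h]
  refine (MvPolynomial.continuous_eval p).comp ?_
  exact continuous_pi fun ij => hρ _ _

/-- Kolchin's theorem in dimension two, for a normal subgroup of an irreducible group -/
lemma kolchin {Γ : Type} [Group Γ] {ρ : Representation k Γ (Fin 2 → k)} (hρ : ρ.IsIrreducible)
    (N : Subgroup Γ) [hN : N.Normal] (h : ∀ n ∈ N, (ρ n - 1) * (ρ n - 1) = 0) :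
    ∀ n ∈ N, ρ n = 1 := by
  classical
  -- the fixed space
  let P : Submodule k (Fin 2 → k) :=
    { carrier := {w | ∀ n ∈ N, ρ n w = w}
      add_mem' := by
        intro a b ha hb n hn
        rw [map_add, ha n hn, hb n hn]
      zero_mem' := by intro n _; exact map_zero _
      smul_mem' := by
        intro c a ha n hn
        rw [map_smul, ha n hn] }
  have hP : Stable ρ P := by
    intro g w hw n hn
    have h1 : ρ (g⁻¹ * n * g) w = w := hw _ (by
      have := hN.conj_mem n hn g⁻¹
      simpa using this)
    have h2 : ρ n (ρ g w) = ρ g (ρ (g⁻¹ * n * g) w) := by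
      rw [← Module.End.mul_apply, ← Module.End.mul_apply, ← map_mul, ← map_mul]
      congr 2
      group
    rw [h2, h1]
  rcases irr_cases hρ hP with e | e
  · -- no fixed vector: contradiction
    by_contra hcon
    push Not at hcon
    obtain ⟨a, haN, ha⟩ := hcon
    -- a nonzero vector killed by ρ a - 1
    set A := ρ a - 1 with hA
    have hAA : ∀ w, A (A w) = 0 := fun w => LinearMap.congr_fun (h a haN) w
    have hA0 : A ≠ 0 := fun h0 => ha (sub_eq_zero.1 h0)
    obtain ⟨w, hw⟩ : ∃ w, A w ≠ 0 := by
      by_contra hcon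
      push Not at hcon
      exact hA0 (LinearMap.ext hcon)
    set u := A w with hu
    have hAu : A u = 0 := hAA w
    -- u, w is a basis
    have hli : LinearIndependent k ![u, w] := by
      rw [LinearIndependent.pair_iff]
      intro x y hxy
      have h1 := congrArg A hxy
      rw [map_add, map_smul, map_smul, hAu, smul_zero, zero_add, map_zero, ← hu] at h1
      have hy : y = 0 := (smul_eq_zero.1 h1).resolve_right hw
      rw [hy, zero_smul, add_zero] at hxy
      exact ⟨(smul_eq_zero.1 hxy).resolve_right hw, hy⟩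
    let B : Module.Basis (Fin 2) k (Fin 2 → k) :=
      basisOfLinearIndependentOfCardEqFinrank hli (by simp)
    have hB0 : B 0 = u := by simp [B]
    have hB1 : B 1 = w := by simp [B]
    have hdec : ∀ x : Fin 2 → k, ∃ a b : k, x = a • u + b • w := by
      intro x
      refine ⟨B.repr x 0, B.repr x 1, ?_⟩
      conv_lhs => rw [← B.sum_repr x]
      rw [Fin.sum_univ_two, hB0, hB1]
    have hind : ∀ a b : k, a • u + b • w = 0 → a = 0 ∧ b = 0 := by
      intro a b h
      exact LinearIndependent.pair_iff.1 hli a b h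
    -- u is fixed by all of N
    have hfix : u ∈ P := by
      intro n hn
      set C := ρ n - 1 with hC
      have hCC : ∀ w, C (C w) = 0 := fun w => LinearMap.congr_fun (h n hn) w
      -- the product a n is unipotent too
      have hD : ∀ x, (ρ (a * n) - 1) ((ρ (a * n) - 1) x) = 0 := fun x =>
        LinearMap.congr_fun (h _ (N.mul_mem haN hn)) x
      have hDe : ∀ x, (ρ (a * n) - 1) x = A (C x) + A x + C x := by
        intro x
        have h1 : ρ a = A + 1 := by rw [hA]; simp
        have h2 : ρ n = C + 1 := by rw [hC]; simp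
        rw [map_mul, h1, h2]
        simp only [LinearMap.sub_apply, Module.End.mul_apply, LinearMap.add_apply,
          Module.End.one_apply, map_add]
        abel
      obtain ⟨c, d, hcd⟩ := hdec (C u)
      obtain ⟨p, q, hpq⟩ := hdec (C w)
      have hAw : A w = u := rfl
      -- first compute the square on u
      have e1 := hCC u
      rw [hcd, map_add, map_smul, map_smul, hcd, hpq] at e1
      have e1' : (c * c + d * p) • u + (c * d + d * q) • w = 0 := by
        rw [← e1]; module
      have e2 := hCC w
      rw [hpq, map_add, map_smul, map_smul, hcd, hpq] at e2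
      have e2' : (p * c + q * p) • u + (p * d + q * q) • w = 0 := by
        rw [← e2]; module
      have e3 := hD u
      rw [hDe, hDe u] at e3
      simp only [map_add, hcd, hpq, map_smul, hAu, hAw, smul_zero, add_zero, zero_add,
        smul_add] at e3
      have e3' : ((c + d) * (c + d) + d * p + d * q + d) • u +
          (d * (c + d) + d * q) • w = 0 := by
        rw [← e3]; module
      obtain ⟨a1, a2⟩ := hind _ _ e1'
      obtain ⟨b1, b2⟩ := hind _ _ e2'
      obtain ⟨c1, c2⟩ := hind _ _ e3'
      have hd0 : d = 0 := by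
        have : d * d = 0 := by linear_combination c2 - a2
        exact mul_self_eq_zero.1 this
      have hc0 : c = 0 := by
        rw [hd0] at a1
        have : c * c = 0 := by linear_combination a1
        exact mul_self_eq_zero.1 this
      have hCu : C u = 0 := by rw [hcd, hd0, hc0]; simp
      have : ρ n u = C u + u := by rw [hC]; simp
      rw [this, hCu, zero_add]
    rw [e, Submodule.mem_bot] at hfix
    exact hw hfix
  · intro n hn
    apply LinearMap.ext
    intro w
    have : w ∈ P := by rw [e]; trivial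
    exact this n hn

end lemmas

variable {k : Type} [Field k] [CharZero k] [IsAlgClosed k] [TopologicalSpace k]
  [IsTopologicalRing k] [T2Space k]
variable {G : Type} [Group G] [TopologicalSpace G] [IsTopologicalGroup G] {X : GaloisData G}
variable {T : AVTheory k X} {F : OpenSubgroup G} {f : Newform k X F}

lemma contRep_res {V : Type} [AddCommGroup V] [Module k V] {K L : OpenSubgroup G} (h : L ≤ K)
    {ρ : Representation k K V} (hρ : ContRep ρ) : ContRep (res h ρ) := by
  intro l x
  have hi : Continuous (incl h) := by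
    refine Continuous.subtype_mk (continuous_subtype_val) _
  exact (hρ l x).comp hi

/-- existence over `F` implies potential occurrence -/
lemma potentially_of_hasAf (hf : HasAf T f) : Potentially T f := by
  classical
  obtain ⟨A, hA, -, e, he⟩ := hf
  obtain ⟨τ⟩ : Nonempty (f.M →+* k) := inferInstance
  refine ⟨F, le_refl F, A, τ, hA, e.symm.toLinearMap ∘ₗ
    LinearMap.single k (fun _ : f.M →+* k => Fin 2 → k) τ, ?_, ?_⟩
  · intro h
    have h1 := LinearMap.congr_fun h (fun _ => (1 : k))
    simp only [LinearMap.comp_apply, LinearEquiv.coe_coe, LinearMap.zero_apply] at h1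
    have h2 : (LinearMap.single k (fun _ : f.M →+* k => Fin 2 → k) τ) (fun _ => (1 : k)) = 0 := by
      apply e.symm.injective
      rw [h1, map_zero]
    have h3 := congrFun (congrFun h2 τ) 0
    simp at h3
  · intro g w
    simp only [LinearMap.comp_apply, LinearEquiv.coe_coe]
    rw [LinearEquiv.symm_apply_eq, he, e.apply_symm_apply]
    have hg : (res (le_refl F) (f.rep τ)) g = f.rep τ g := rfl
    rw [hg]
    funext σ
    change _ = (f.rep σ g) ((LinearMap.single k (fun _ : f.M →+* k => Fin 2 → k) τ) w σ)
    by_cases hσ : σ = τ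
    · subst hσ
      simp
    · rw [LinearMap.single_apply, LinearMap.single_apply, Pi.single_eq_of_ne hσ,
        Pi.single_eq_of_ne hσ, map_zero]

lemma dvd_of_potentially (hcm : NonCM f) {K : OpenSubgroup G} (h : K ≤ F) {B : AbVar k X K}
    {τ : f.M →+* k} {φ : (Fin 2 → k) →ₗ[k] (k ⊗[ℚ] B.H)} (hB : T.isAV K B) (h0 : φ ≠ 0)
    (hφ : ∀ (g : K) (w : Fin 2 → k), φ (f.rep τ (incl h g) w) = B.gal g (φ w)) (g : K) :
    (f.rep τ (incl h g)).charpoly ∣ (B.gal g).charpoly := by
  have he : Equivar (res h (f.rep τ)) B.gal φ := fun g => LinearMap.ext fun w => hφ g w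
  exact charpoly_dvd (T.good K B hB).semisimple he (irr_injective (hcm τ K h) he h0) g

lemma approx_of_potentially (hcm : NonCM f) (hf : Potentially T f) :
    Approximable T f := by
  obtain ⟨K, h, B, τ, hB, φ, h0, hφ⟩ := hf
  refine ⟨K, h, τ, B.bad, Module.finrank ℚ B.H, (T.good K B hB).bad_finite, ?_⟩
  intro R _ N hN
  refine ⟨B, hB, subset_rfl, le_rfl, fun v _ φ' _ i => ?_⟩
  rw [(Polynomial.modByMonic_eq_zero_iff_dvd (LinearMap.charpoly_monic _)).2
    (dvd_of_potentially hcm h hB h0 hφ φ'), Polynomial.coeff_zero]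
  exact mem_of_mem_nhds hN

lemma charpoly_repIso {Γ V W : Type} [Group Γ] [AddCommGroup V] [Module k V] [AddCommGroup W]
    [Module k W] [FiniteDimensional k V] [FiniteDimensional k W] {ρ : Representation k Γ V}
    {σ : Representation k Γ W} (h : RepIso ρ σ) (g : Γ) : (ρ g).charpoly = (σ g).charpoly := by
  obtain ⟨e, he⟩ := h
  have : σ g = e.conj (ρ g) := by
    apply LinearMap.ext
    intro w
    rw [LinearEquiv.conj_apply_apply, he, e.apply_symm_apply]
  rw [this, LinearEquiv.charpoly_conj]

lemma locally_of_approx (hf : Approximable T f) : LocallyDivides T f := by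
  classical
  obtain ⟨K, h, τ, S, n, hS, hR⟩ := hf
  obtain ⟨m, C, hC, hfin⟩ := T.shafarevich K S n hS
  -- one of the finitely many classes works for all places
  have hex : ∃ i, ∀ v ∉ S, ∀ φ ∈ X.frob K v,
      (f.rep τ (incl h φ)).charpoly ∣ ((C i).gal φ).charpoly := by
    by_contra hcon
    push Not at hcon
    choose v hv φ hφ hnd using hcon
    have hc : ∀ i, ∃ j, (((C i).gal (φ i)).charpoly %ₘ
        (f.rep τ (incl h (φ i))).charpoly).coeff j ≠ 0 := by
      intro i
      by_contra hcon
      push Not at hcon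
      apply hnd i
      rw [← Polynomial.modByMonic_eq_zero_iff_dvd (LinearMap.charpoly_monic _)]
      exact Polynomial.ext fun j => by rw [hcon j, Polynomial.coeff_zero]
    choose j hj using hc
    let c : Fin m → k := fun i => (((C i).gal (φ i)).charpoly %ₘ
        (f.rep τ (incl h (φ i))).charpoly).coeff (j i)
    have hN : (Set.range c)ᶜ ∈ nhds (0 : k) := by
      refine IsOpen.mem_nhds (Set.finite_range c).isClosed.isOpen_compl ?_
      rintro ⟨i, hi⟩
      exact hj i hi
    obtain ⟨B, hB, hbad, hdim, hdvd⟩ := hR (Finset.univ.image v) (by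
      intro w hw
      obtain ⟨i, -, rfl⟩ := Finset.mem_image.1 hw
      exact hv i) _ hN
    obtain ⟨i, hi⟩ := hfin B hB hbad hdim
    have := hdvd (v i) (Finset.mem_image_of_mem _ (Finset.mem_univ _)) (φ i) (hφ i) (j i)
    rw [charpoly_repIso hi] at this
    exact this ⟨i, rfl⟩
  obtain ⟨i, hi⟩ := hex
  exact ⟨K, h, C i, τ, Sᶜ, hC i, X.chebotarev K S hS, fun v hv φ hφ => hi v hv φ hφ⟩

/-- tensor occurrence implies the torsion field condition -/
lemma torsion_of_tensor (hf : TensorOccurs T f) : InTorsionField T f := by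
  obtain ⟨K, h, B, τ, hB, n, r, σ, Φ, hΦ, hequi⟩ := hf
  refine ⟨K, h, B, τ, hB, ⊤, fun g _ hg => ?_⟩
  change ∃ c : k, f.rep τ (incl h g) = c • 1
  have h1 : TensorProduct.map (f.rep τ (incl h g)) (σ g) = LinearMap.id := by
    apply LinearMap.ext
    intro x
    apply hΦ
    have h2 := LinearMap.congr_fun (hequi g) x
    have h3 : (PiTensorProduct.map (fun _ : Fin n => B.gal g) :
        (⨂[k] (_ : Fin n), (k ⊗[ℚ] B.H)) →ₗ[k] _) = LinearMap.id := by
      rw [hg]
      exact PiTensorProduct.map_id
    rw [h3] at h2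
    exact h2
  -- apply a coordinate functional on the second factor
  let u : Fin (r + 1) → k := Pi.single 0 1
  let l : (Fin (r + 1) → k) →ₗ[k] k := LinearMap.proj 0
  set c : k := l (σ g u) with hc
  have h2 : ∀ w, c • (f.rep τ (incl h g) w) = w := by
    intro w
    have h3 := LinearMap.congr_fun h1 (w ⊗ₜ[k] u)
    rw [TensorProduct.map_tmul, LinearMap.id_apply] at h3
    have h4 := congrArg (TensorProduct.rid k (Fin 2 → k) ∘ₗ
      TensorProduct.map LinearMap.id l : _ →ₗ[k] (Fin 2 → k)) h3
    simp only [LinearMap.comp_apply, TensorProduct.map_tmul, LinearMap.id_apply,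
      LinearEquiv.coe_coe, TensorProduct.rid_tmul] at h4
    rw [← hc] at h4
    rw [h4]
    simp [l, u]
  have hc0 : c ≠ 0 := by
    intro h0
    have h3 := h2 (Pi.single 0 1)
    rw [h0, zero_smul] at h3
    have := congrFun h3 0
    simp at this
  refine ⟨c⁻¹, LinearMap.ext fun w => ?_⟩
  rw [LinearMap.smul_apply, Module.End.one_apply]
  conv_rhs => rw [← h2 w]
  rw [smul_smul, inv_mul_cancel₀ hc0, one_smul]

/-- potential occurrence implies tensor occurrence -/
lemma tensor_of_potentially (hcm : NonCM f) (hf : Potentially T f) : TensorOccurs T f := by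
  obtain ⟨K, h, B, τ, hB, φ, h0, hφ⟩ := hf
  have he : Equivar (res h (f.rep τ)) B.gal φ := fun g => LinearMap.ext fun w => hφ g w
  have hinj := irr_injective (hcm τ K h) he h0
  let a : ((Fin 2 → k) ⊗[k] (Fin (0 + 1) → k)) ≃ₗ[k] (Fin 2 → k) :=
    (TensorProduct.congr (LinearEquiv.refl k (Fin 2 → k))
      (LinearEquiv.funUnique (Fin 1) k k)).trans (TensorProduct.rid k (Fin 2 → k))
  let b : (⨂[k] (_ : Fin 1), (k ⊗[ℚ] B.H)) ≃ₗ[k] (k ⊗[ℚ] B.H) :=
    PiTensorProduct.subsingletonEquiv 0
  refine ⟨K, h, B, τ, hB, 1, 0, 1, b.symm.toLinearMap ∘ₗ φ ∘ₗ a.toLinearMap, ?_, ?_⟩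
  · intro x y hxy
    exact a.injective (hinj (b.symm.injective hxy))
  · intro g
    apply TensorProduct.ext'
    intro w c
    simp only [LinearMap.comp_apply, LinearEquiv.coe_coe, TensorProduct.map_tmul]
    have ha : ∀ w c, a (w ⊗ₜ c) = c 0 • w := by
      intro w c
      simp [a]
    have hb : ∀ v : k ⊗[ℚ] B.H, b.symm v = PiTensorProduct.tprod k (fun _ => v) := by
      intro v
      rw [LinearEquiv.symm_apply_eq]
      simp [b]
    rw [ha, ha, hb, hb, PiTensorProduct.map_tprod]
    congr 1
    funext i
    rw [map_smul, hφ, map_smul, map_smul]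
    rfl

lemma torsion_of_locally (hcm : NonCM f) (hf : LocallyDivides T f) : InTorsionField T f := by
  obtain ⟨K, h, B, τ, S, hB, hS, hdvd⟩ := hf
  have hgood := T.good K B hB
  set ρ := res h (f.rep τ) with hρ
  have hρc : ContRep ρ := contRep_res h (f.continuous τ)
  -- the closed condition
  have hclosed : ∀ g : K, (B.gal g).charpoly.aeval (ρ g) = 0 := by
    intro g
    apply LinearMap.ext
    intro w
    funext i
    -- both sides are continuous functions of g
    have hcont : Continuous fun g : K => ((B.gal g).charpoly.aeval (ρ g) w) i := by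
      have hexp : ∀ g : K, ((B.gal g).charpoly.aeval (ρ g) w) i =
          ∑ j ∈ Finset.range (Module.finrank k (k ⊗[ℚ] B.H) + 1),
            (B.gal g).charpoly.coeff j * (ρ (g ^ j) w) i := by
        intro g
        rw [Polynomial.aeval_eq_sum_range, LinearMap.charpoly_natDegree, LinearMap.sum_apply,
          Finset.sum_apply]
        refine Finset.sum_congr rfl fun j _ => ?_
        rw [LinearMap.smul_apply, Pi.smul_apply, smul_eq_mul, map_pow]
      simp_rw [hexp]
      have : IsTopologicalGroup K := inferInstanceAs (IsTopologicalGroup (K : Subgroup G))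
      refine continuous_finsetSum _ fun j _ => ?_
      refine (continuous_charpoly_coeff hgood.continuous j).mul ?_
      exact (hρc (LinearMap.proj i) w).comp (continuous_pow j)
    have hz : (fun g : K => ((B.gal g).charpoly.aeval (ρ g) w) i) = fun _ => 0 := by
      refine Continuous.ext_on hS hcont continuous_const ?_
      intro φ hφ
      simp only [Set.mem_iUnion] at hφ
      obtain ⟨v, hv, hφ⟩ := hφ
      obtain ⟨q, hq⟩ := hdvd v hv φ hφ
      have h1 : (ρ φ).charpoly.aeval (ρ φ) = 0 := LinearMap.aeval_self_charpoly _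
      have h2 : (B.gal φ).charpoly.aeval (ρ φ) = 0 := by
        rw [hq, map_mul]
        change Polynomial.aeval (ρ φ) (ρ φ).charpoly * _ = 0
        rw [h1, zero_mul]
      change ((B.gal φ).charpoly.aeval (ρ φ) w) i = 0
      rw [h2]; rfl
    exact congrFun hz g
  let N : Subgroup K := (MonoidHom.ker (B.gal : K →* _))
  have hN : ∀ n ∈ N, (ρ n - 1) * (ρ n - 1) = 0 := by
    intro n hn
    have h1 : B.gal n = 1 := hn
    have h2 := hclosed n
    rw [h1] at h2
    have h3 : (1 : Module.End k (k ⊗[ℚ] B.H)).charpoly =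
        (Polynomial.X - 1) ^ Module.finrank k (k ⊗[ℚ] B.H) := LinearMap.charpoly_one
    rw [h3, map_pow, map_sub, map_one, Polynomial.aeval_X] at h2
    -- a nilpotent endomorphism of a plane has square zero
    have h4 : IsNilpotent (ρ n - 1) := ⟨_, h2⟩
    have h5 := h4.charpoly_eq_X_pow_finrank
    have h6 := LinearMap.aeval_self_charpoly (ρ n - 1)
    rw [h5] at h6
    simpa [sq] using h6
  refine ⟨K, h, B, τ, hB, ⊤, fun g _ hg => ⟨1, ?_⟩⟩
  rw [one_smul]
  exact kolchin (hcm τ K h) N hN g hg

lemma potentially_of_torsion (hcm : NonCM f) (hL : HasLie T f) (hf : InTorsionField T f) :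
    Potentially T f := by
  obtain ⟨K, h, B, τ, hB, hU⟩ := hf
  obtain ⟨M⟩ := hL K h B τ hB
  have hker := M.kernel hU
  obtain ⟨φ, hφ0, hφ⟩ := lie_detect M.lieV M.lieW (by simp) (by
      intro P hP
      obtain ⟨U', hU'⟩ := M.stable (Submodule.prod ⊥ P) (by
        rintro x ⟨a, b⟩ ⟨ha, hb⟩
        refine ⟨?_, hP x b hb⟩
        simp only [Submodule.bot_coe, Set.mem_singleton_iff] at ha ⊢
        rw [ha, map_zero])
      let K' : OpenSubgroup G := K ⊓ U'
      have hK' : K' ≤ K := inf_le_left
      refine irr_cases (hcm τ K' (hK'.trans h)) ?_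
      intro g w hw
      have := hU' (incl hK' g) (show (g : G) ∈ U' from (inf_le_right : K' ≤ U') g.2) (0, w)
        ⟨by simp, hw⟩
      exact this.2) M.reductive hker M.generated
  -- the graph of φ
  let P : Submodule k ((k ⊗[ℚ] B.H) × (Fin 2 → k)) :=
    LinearMap.range (φ.prod LinearMap.id)
  obtain ⟨U', hU'⟩ := M.stable P (by
    rintro x _ ⟨w, rfl⟩
    refine ⟨M.onW x w, ?_⟩
    simp [LinearMap.prod_apply, hφ])
  let K' : OpenSubgroup G := K ⊓ U'
  have hK' : K' ≤ K := inf_le_left
  have hequi : ∀ (g : K') (w : Fin 2 → k),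
      φ (f.rep τ (incl (hK'.trans h) g) w) = B.gal (incl hK' g) (φ w) := by
    intro g w
    obtain ⟨w', hw'⟩ := hU' (incl hK' g) (show (g : G) ∈ U' from
      (inf_le_right : K' ≤ U') g.2) (φ w, w) ⟨w, rfl⟩
    have h1 : φ w' = B.gal (incl hK' g) (φ w) := congrArg Prod.fst hw'
    have h2 : w' = f.rep τ (incl h (incl hK' g)) w := congrArg Prod.snd hw'
    rw [← h1, h2]
    rfl
  obtain ⟨C, hC, e, he⟩ := T.baseChange K K' hK' B hB
  refine ⟨K', hK'.trans h, C, τ, hC, e.toLinearMap ∘ₗ φ, ?_, ?_⟩
  · intro h0
    apply hφ0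
    apply LinearMap.ext
    intro w
    apply e.injective
    rw [LinearMap.zero_apply, map_zero]
    exact LinearMap.congr_fun h0 w
  · intro g w
    simp only [LinearMap.comp_apply, LinearEquiv.coe_coe]
    have h1 : φ ((res (hK'.trans h) (f.rep τ)) g w) = B.gal (incl hK' g) (φ w) := hequi g w
    rw [h1]
    exact he g (φ w)

/-- The characterisation theorem. -/
theorem tfae_hasAf (hcm : NonCM f) (hL : HasLie T f) :
    [HasAf T f, Potentially T f, TensorOccurs T f, InTorsionField T f, LocallyDivides T f,
      Approximable T f].TFAE := by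
  tfae_have 1 → 2 := potentially_of_hasAf
  tfae_have 2 → 1 := hasAf_of_potentially T f
  tfae_have 2 → 3 := tensor_of_potentially hcm
  tfae_have 3 → 4 := torsion_of_tensor
  tfae_have 4 → 2 := potentially_of_torsion hcm hL
  tfae_have 2 → 6 := approx_of_potentially hcm
  tfae_have 6 → 5 := locally_of_approx
  tfae_have 5 → 4 := torsion_of_locally hcm
  tfae_finish

end Pool.Agent.Helper26.AF
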