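import Pool.Agent.Helper26.AF.LocalDefs
import Pool.Agent.Helper26.AF.Tfae
import Pool.Agent.Helper26.AF.Lie5

/-! The local-global criterion for the existence of `A_f`. -/

open scoped TensorProduct

set_option linter.unusedSectionVars false

namespace Pool.Agent.Helper26.AF

variable {k : Type} [Field k] [CharZero k] [IsAlgClosed k] [TopologicalSpace k]
  [IsTopologicalRing k] [T2Space k]
variable {G : Type} [Group G] [TopologicalSpace G] [IsTopologicalGroup G] {X : GaloisData G}
variable {T : AVTheory k X} {F : OpenSubgroup G} {f : Newform k X F}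

section lin

variable {V : Type} [AddCommGroup V] [Module k V] [FiniteDimensional k V]

/-- eigenvalues of `q` are eigenvalues of `S` if and only if the square of the characteristic
polynomial of `S` kills `q` -/
lemma sq_charpoly_of_eigIn {q : Module.End k (Fin 2 → k)} {S : Module.End k V}
    (h : EigIn q S) : S.charpoly.aeval q * S.charpoly.aeval q = 0 := by
  obtain ⟨a, b, ha, hb, hq, -⟩ := two_roots (by simp) q
  have h1 : (Polynomial.X - Polynomial.C a) ∣ S.charpoly := by
    rw [Polynomial.dvd_iff_isRoot, ← Module.End.hasEigenvalue_iff_isRoot_charpoly]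
    exact h a ha
  have h2 : (Polynomial.X - Polynomial.C b) ∣ S.charpoly := by
    rw [Polynomial.dvd_iff_isRoot, ← Module.End.hasEigenvalue_iff_isRoot_charpoly]
    exact h b hb
  obtain ⟨c, hc⟩ := mul_dvd_mul h1 h2
  rw [← map_mul, hc, map_mul]
  have h3 : (Polynomial.aeval q) ((Polynomial.X - Polynomial.C a) *
      (Polynomial.X - Polynomial.C b)) = 0 := by
    apply LinearMap.ext
    intro w
    simp only [map_mul, map_sub, Polynomial.aeval_X, Polynomial.aeval_C, Module.End.mul_apply,
      LinearMap.sub_apply, Module.algebraMap_end_apply, LinearMap.zero_apply, map_smul]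
    rw [← hq w]
    module
  rw [h3, zero_mul]

lemma eigIn_of_sq_charpoly {q : Module.End k (Fin 2 → k)} {S : Module.End k V}
    (h : S.charpoly.aeval q * S.charpoly.aeval q = 0) : EigIn q S := by
  intro a ha
  obtain ⟨w, hw⟩ := ha.exists_hasEigenvector
  rw [Module.End.hasEigenvalue_iff_isRoot_charpoly]
  have h1 : ∀ P : Polynomial k, Polynomial.aeval q P w = P.eval a • w := fun P =>
    Module.End.aeval_apply_of_hasEigenvector hw
  have h2 := LinearMap.congr_fun h w
  rw [Module.End.mul_apply, h1, map_smul, h1, smul_smul, LinearMap.zero_apply] at h2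
  exact mul_self_eq_zero.1 ((smul_eq_zero.1 h2).resolve_right hw.2)

end lin

/-- the local condition at dense places holds for all elements -/
lemma eigIn_all {K : OpenSubgroup G} (h : K ≤ F) {B : AbVar k X K} {τ : f.M →+* k}
    (hB : T.isAV K B) {S : Set (X.Pl K)} (hS : Dense (⋃ v ∈ S, X.frob K v))
    (hloc : ∀ v ∈ S, ∀ φ ∈ X.frob K v, EigIn (res h (f.rep τ) φ) (B.gal φ)) (g : K) :
    EigIn (res h (f.rep τ) g) (B.gal g) := by
  have hgood := T.good K B hB
  set ρ := res h (f.rep τ) with hρ
  have hρc : ContRep ρ := contRep_res h (f.continuous τ)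
  have hcont1 : ∀ w i, Continuous fun g : K => ((B.gal g).charpoly.aeval (ρ g) w) i := by
    intro w i
    have hexp : ∀ g : K, ((B.gal g).charpoly.aeval (ρ g) w) i =
        ∑ j ∈ Finset.range (Module.finrank k (k ⊗[ℚ] B.H) + 1),
          (B.gal g).charpoly.coeff j * (ρ (g ^ j) w) i := by
      intro g
      rw [Polynomial.aeval_eq_sum_range, LinearMap.charpoly_natDegree, LinearMap.sum_apply,
        Finset.sum_apply]
      refine Finset.sum_congr rfl fun j _ => ?_
      rw [LinearMap.smul_apply, Pi.smul_apply, smul_eq_mul, map_pow]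
    simp_rw [hexp]
    have : IsTopologicalGroup K := inferInstanceAs (IsTopologicalGroup (K : Subgroup G))
    refine continuous_finsetSum _ fun j _ => ?_
    refine (continuous_charpoly_coeff hgood.continuous j).mul ?_
    exact (hρc (LinearMap.proj i) w).comp (continuous_pow j)
  have hclosed : ∀ g : K, (B.gal g).charpoly.aeval (ρ g) * (B.gal g).charpoly.aeval (ρ g) = 0 := by
    intro g
    apply LinearMap.ext
    intro w
    funext i
    have hexp2 : ∀ g : K, (((B.gal g).charpoly.aeval (ρ g) *
        (B.gal g).charpoly.aeval (ρ g)) w) i =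
        ∑ j : Fin 2, ((B.gal g).charpoly.aeval (ρ g) w) j *
          ((B.gal g).charpoly.aeval (ρ g) (Pi.single j 1)) i := by
      intro g
      rw [Module.End.mul_apply]
      have hw : ((B.gal g).charpoly.aeval (ρ g) w) =
          ∑ j : Fin 2, ((B.gal g).charpoly.aeval (ρ g) w) j • (Pi.single j 1 : Fin 2 → k) := by
        funext l
        rw [Finset.sum_apply]
        simp [Pi.single_apply]
      conv_lhs => rw [hw]
      rw [map_sum, Finset.sum_apply]
      refine Finset.sum_congr rfl fun j _ => ?_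
      rw [map_smul, Pi.smul_apply, smul_eq_mul]
    have hcont : Continuous fun g : K => (((B.gal g).charpoly.aeval (ρ g) *
        (B.gal g).charpoly.aeval (ρ g)) w) i := by
      simp_rw [hexp2]
      exact continuous_finsetSum _ fun j _ => (hcont1 w j).mul (hcont1 _ i)
    have hz : (fun g : K => (((B.gal g).charpoly.aeval (ρ g) *
        (B.gal g).charpoly.aeval (ρ g)) w) i) = fun _ => 0 := by
      refine Continuous.ext_on hS hcont continuous_const ?_
      intro φ hφ
      simp only [Set.mem_iUnion] at hφ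
      obtain ⟨v, hv, hφ⟩ := hφ
      change (((B.gal φ).charpoly.aeval (ρ φ) * (B.gal φ).charpoly.aeval (ρ φ)) w) i = 0
      rw [sq_charpoly_of_eigIn (hloc v hv φ hφ)]
      rfl
    exact congrFun hz g
  exact eigIn_of_sq_charpoly (hclosed g)

/-- local containment implies potential occurrence -/
theorem potentially_of_contained (hcm : NonCM f) (hM : HasAbelianMonodromy T)
    (hf : LocallyContained T f) : Potentially T f := by
  obtain ⟨K, h, B, τ, S, hB, hS, hloc⟩ := hf
  have hgood := T.good K B hB
  set ρ := res h (f.rep τ) with hρ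
  have hρc : ContRep ρ := contRep_res h (f.continuous τ)
  have hall : ∀ g : K, EigIn (ρ g) (B.gal g) := eigIn_all h hB hS hloc
  -- the kernel
  let N : Subgroup K := (MonoidHom.ker (B.gal : K →* _))
  have hN : ∀ n ∈ N, (ρ n - 1) * (ρ n - 1) = 0 := by
    intro n hn
    have h1 : B.gal n = 1 := hn
    obtain ⟨a, b, ha, hb, hq, -⟩ := two_roots (by simp) (ρ n)
    have hone : ∀ c : k, Module.End.HasEigenvalue (B.gal n) c → c = 1 := by
      intro c hc
      obtain ⟨v, hv⟩ := hc.exists_hasEigenvector
      have h2 := hv.apply_eq_smul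
      rw [h1, Module.End.one_apply] at h2
      have h3 : (c - 1) • v = 0 := by rw [sub_smul, one_smul, ← h2, sub_self]
      exact sub_eq_zero.1 ((smul_eq_zero.1 h3).resolve_right hv.2)
    have ha1 := hone a (hall n a ha)
    have hb1 := hone b (hall n b hb)
    apply LinearMap.ext
    intro w
    have := hq w
    rw [ha1, hb1] at this
    simp only [Module.End.mul_apply, LinearMap.sub_apply, Module.End.one_apply, map_sub,
      LinearMap.zero_apply]
    rw [← this]
    module
  have hker : TrivialOnKernel B.gal ρ := ⟨⊤, fun g _ hg => kolchin (hcm τ K h) N hN g hg⟩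
  obtain ⟨M⟩ := hM K B hB
  obtain ⟨onW, hD⟩ := M.differential ρ hρc hker
  -- `L`-stable subspaces of `W` are trivial
  have hirr : ∀ P : Submodule k (Fin 2 → k), (∀ x, ∀ w ∈ P, onW x w ∈ P) → P = ⊥ ∨ P = ⊤ := by
    intro P hP
    obtain ⟨U', hU'⟩ := (hD.stable_iff (Submodule.prod ⊥ P)).1 (by
      rintro x ⟨a, b⟩ ⟨ha, hb⟩
      refine ⟨?_, hP x b hb⟩
      simp only [Submodule.bot_coe, Set.mem_singleton_iff] at ha ⊢
      rw [ha, map_zero])
    let K' : OpenSubgroup G := K ⊓ U'
    have hK' : K' ≤ K := inf_le_left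
    refine irr_cases (hcm τ K' (hK'.trans h)) ?_
    intro g w hw
    have := hU' (incl hK' g) (show (g : G) ∈ U' from (inf_le_right : K' ≤ U') g.2) (0, w)
      ⟨by simp, hw⟩
    exact this.2
  -- complete reducibility of `V` under `L`
  have hcompl : ∀ P : Submodule k (k ⊗[ℚ] B.H), (∀ x, ∀ v ∈ P, M.onV x v ∈ P) →
      ∃ Q : Submodule k (k ⊗[ℚ] B.H), (∀ x, ∀ v ∈ Q, M.onV x v ∈ Q) ∧ IsCompl P Q := by
    intro P hP
    obtain ⟨U', hU'⟩ := (hD.stable_iff (Submodule.prod P ⊥)).1 (by
      rintro x ⟨a, b⟩ ⟨ha, hb⟩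
      refine ⟨hP x a ha, ?_⟩
      simp only [Submodule.bot_coe, Set.mem_singleton_iff] at hb ⊢
      rw [hb, map_zero])
    let K' : OpenSubgroup G := K ⊓ U'
    have hK' : K' ≤ K := inf_le_left
    have hPst : ∀ (g : K'), ∀ v ∈ P, B.gal (incl hK' g) v ∈ P := by
      intro g v hv
      have := hU' (incl hK' g) (show (g : G) ∈ U' from (inf_le_right : K' ≤ U') g.2) (v, 0)
        ⟨hv, by simp⟩
      exact this.1
    obtain ⟨C, hC, e, he⟩ := T.baseChange K K' hK' B hB
    have hss := (T.good K' C hC).semisimple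
    have hPe : Stable C.gal (P.map e.toLinearMap) := by
      rintro g _ ⟨v, hv, rfl⟩
      refine ⟨B.gal (incl hK' g) v, hPst g v hv, ?_⟩
      exact he g v
    obtain ⟨Q', hQ', hcomp⟩ := exists_compl hss hPe
    let Q : Submodule k (k ⊗[ℚ] B.H) := Q'.comap e.toLinearMap
    have hQst : ∀ (g : K'), ∀ v ∈ Q, B.gal (incl hK' g) v ∈ Q := by
      intro g v hv
      change e (B.gal (incl hK' g) v) ∈ Q'
      have h1 : e (res hK' B.gal g v) = C.gal g (e v) := he g v
      have h2 : e (B.gal (incl hK' g) v) = C.gal g (e v) := h1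
      rw [h2]
      exact hQ' g _ hv
    refine ⟨Q, ?_, ?_⟩
    · have hst : LieStable M.onV onW (Submodule.prod Q ⊥) := by
        rw [hD.stable_iff]
        refine ⟨K', ?_⟩
        rintro g hg ⟨a, b⟩ ⟨ha, hb⟩
        refine ⟨hQst ⟨g, hg⟩ a ha, ?_⟩
        simp only [Submodule.bot_coe, Set.mem_singleton_iff] at hb ⊢
        rw [hb, map_zero]
      intro x v hv
      exact (hst x (v, 0) ⟨hv, by simp⟩).1
    · constructor
      · rw [Submodule.disjoint_def]
        intro v hv1 hv2
        have h1 : e v ∈ P.map e.toLinearMap := ⟨v, hv1, rfl⟩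
        have h2 : e v ∈ Q' := hv2
        have h3 := (Submodule.disjoint_def.1 hcomp.disjoint) _ h1 h2
        exact e.injective (by rw [h3, map_zero])
      · rw [codisjoint_iff, eq_top_iff]
        intro v _
        have h1 : e v ∈ P.map e.toLinearMap ⊔ Q' := by
          rw [hcomp.sup_eq_top]; trivial
        obtain ⟨_, ⟨a, ha, rfl⟩, b, hb, hab⟩ := Submodule.mem_sup.1 h1
        refine Submodule.mem_sup.2 ⟨a, ha, e.symm b, ?_, ?_⟩
        · change e (e.symm b) ∈ Q'
          rw [e.apply_symm_apply]; exact hb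
        · apply e.injective
          rw [map_add, e.apply_symm_apply]
          exact hab
  obtain ⟨φ, hφ0, hφ⟩ := lie_detect_local M.lieV hD.lie (by simp) hirr M.faithful hcompl
    M.reductive (hD.eig hall) M.generated
  -- the graph of φ
  let P : Submodule k ((k ⊗[ℚ] B.H) × (Fin 2 → k)) :=
    LinearMap.range (φ.prod LinearMap.id)
  obtain ⟨U', hU'⟩ := (hD.stable_iff P).1 (by
    rintro x _ ⟨w, rfl⟩
    refine ⟨onW x w, ?_⟩
    simp [LinearMap.prod_apply, hφ])
  let K' : OpenSubgroup G := K ⊓ U'
  have hK' : K' ≤ K := inf_le_left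
  have hequi : ∀ (g : K') (w : Fin 2 → k),
      φ (f.rep τ (incl (hK'.trans h) g) w) = B.gal (incl hK' g) (φ w) := by
    intro g w
    obtain ⟨w', hw'⟩ := hU' (incl hK' g) (show (g : G) ∈ U' from
      (inf_le_right : K' ≤ U') g.2) (φ w, w) ⟨w, rfl⟩
    have h1 : φ w' = B.gal (incl hK' g) (φ w) := congrArg Prod.fst hw'
    have h2 : w' = f.rep τ (incl h (incl hK' g)) w := congrArg Prod.snd hw'
    rw [← h1, h2]
    rfl
  obtain ⟨C, hC, e, he⟩ := T.baseChange K K' hK' B hB
  refine ⟨K', hK'.trans h, C, τ, hC, e.toLinearMap ∘ₗ φ, ?_, ?_⟩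
  · intro h0
    apply hφ0
    apply LinearMap.ext
    intro w
    apply e.injective
    rw [LinearMap.zero_apply, map_zero]
    exact LinearMap.congr_fun h0 w
  · intro g w
    simp only [LinearMap.comp_apply, LinearEquiv.coe_coe]
    have h1 : φ ((res (hK'.trans h) (f.rep τ)) g w) = B.gal (incl hK' g) (φ w) := hequi g w
    rw [h1]
    exact he g (φ w)

lemma contained_of_locallyDivides (hf : LocallyDivides T f) : LocallyContained T f := by
  obtain ⟨K, h, B, τ, S, hB, hS, hdvd⟩ := hf
  refine ⟨K, h, B, τ, S, hB, hS, fun v hv φ hφ a ha => ?_⟩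
  rw [Module.End.hasEigenvalue_iff_isRoot_charpoly] at ha ⊢
  exact ha.dvd (hdvd v hv φ hφ)

/-- The local-global criterion. -/
theorem tfae_local (hcm : NonCM f) (hM : HasAbelianMonodromy T) :
    [HasAf T f, LocallyContained T f, Approximable T f].TFAE := by
  tfae_have 1 → 3 := fun hf => approx_of_potentially hcm (potentially_of_hasAf hf)
  tfae_have 3 → 2 := fun hf => contained_of_locallyDivides (locally_of_approx hf)
  tfae_have 2 → 1 := fun hf => hasAf_of_potentially T f (potentially_of_contained hcm hM hf)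
  tfae_finish

end Pool.Agent.Helper26.AF
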