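import Pool.Agent.Helper26.AF.Statement

/-! The conditions of the local-global criterion. -/

open scoped TensorProduct

set_option linter.unusedSectionVars false

namespace Pool.Agent.Helper26.AF

variable {k : Type} [Field k] [CharZero k] [TopologicalSpace k]
variable {G : Type} [Group G] [TopologicalSpace G] {X : GaloisData G}

/-- every eigenvalue of `θ` is an eigenvalue of `S` -/
def EigIn {V W : Type} [AddCommGroup V] [Module k V] [AddCommGroup W] [Module k W]
    (θ : Module.End k W) (S : Module.End k V) : Prop :=
  ∀ a : k, θ.HasEigenvalue a → S.HasEigenvalue a

section generic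

variable {K : OpenSubgroup G} {V W : Type} [AddCommGroup V] [Module k V] [AddCommGroup W]
  [Module k W]

/-- on some open subgroup, the elements acting trivially in `ρ` act trivially in `σ` -/
def TrivialOnKernel (ρ : Representation k K V) (σ : Representation k K W) : Prop :=
  ∃ U : OpenSubgroup G, ∀ g : K, (g : G) ∈ U → ρ g = 1 → σ g = 1

variable {L : Type} [LieRing L] [LieAlgebra k L]

/-- `L` is generated, as an ideal, by its elements acting on `V` as idempotents -/
def IdempotentGenerated (onV : L →ₗ[k] Module.End k V) : Prop :=
  ∀ I : LieIdeal k L, (∀ x, onV x * onV x = onV x → x ∈ I) → I = ⊤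

/-- `onW` is the differential of `σ`: a subspace of `V × W` is stable under `L` if and only if it
is stable under an open subgroup, and if the eigenvalues of every group element in `σ` are among
those in `ρ`, then the same is true for the elements of `L`. -/
structure IsDifferential (ρ : Representation k K V) (σ : Representation k K W)
    (onV : L →ₗ[k] Module.End k V) (onW : L →ₗ[k] Module.End k W) : Prop where
  lie : IsLieRep onW
  stable_iff : ∀ P : Submodule k (V × W), LieStable onV onW P ↔ VirtStable ρ σ P
  eig : (∀ g, EigIn (σ g) (ρ g)) → ∀ x, EigIn (onW x) (onV x)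

end generic

/-- The Lie algebra `L` of the image of the Galois group of `K` in `GL(V)`, with coefficients
extended to `k`: it is reductive; it is generated, as an ideal, by its elements acting on `V` as
idempotents (weak Hodge cocharacters); and every continuous two-dimensional representation which
is trivial on the kernel of `ρ` (up to an open subgroup) has a differential. -/
structure AbelianMonodromy (K : OpenSubgroup G) {V : Type} [AddCommGroup V] [Module k V]
    (ρ : Representation k K V) where
  L : Type
  [ring : LieRing L]
  [alg : LieAlgebra k L]
  onV : L →ₗ[k] Module.End k V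
  lieV : IsLieRep onV
  faithful : ∀ x, onV x = 0 → x = 0
  reductive : ∀ I : LieIdeal k L, ∃ J : LieIdeal k L, IsCompl I J
  generated : IdempotentGenerated onV
  differential : ∀ σ : Representation k K (Fin 2 → k), ContRep σ → TrivialOnKernel ρ σ →
    ∃ onW : L →ₗ[k] Module.End k (Fin 2 → k), IsDifferential ρ σ onV onW

attribute [instance] AbelianMonodromy.ring AbelianMonodromy.alg

/-- The monodromy Lie algebras of all abelian varieties exist (Faltings, Bogomolov, Pink). -/
def HasAbelianMonodromy (T : AVTheory k X) : Prop :=
  ∀ (K : OpenSubgroup G) (B : AbVar k X K), T.isAV K B → Nonempty (AbelianMonodromy K B.gal)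

/-- Local condition: for some abelian variety `B` over a finite extension `K` of `F`, at all places
of a set with dense Frobenius elements, the eigenvalues of Frobenius on `f` are among the
eigenvalues of Frobenius on `B`. -/
def LocallyContained (T : AVTheory k X) {F : OpenSubgroup G} (f : Newform k X F) : Prop :=
  ∃ (K : OpenSubgroup G) (h : K ≤ F) (B : AbVar k X K) (τ : f.M →+* k) (S : Set (X.Pl K)),
    T.isAV K B ∧ Dense (⋃ v ∈ S, X.frob K v) ∧
      ∀ v ∈ S, ∀ φ ∈ X.frob K v, EigIn (res h (f.rep τ) φ) (B.gal φ)

end Pool.Agent.Helper26.AF
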