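import Pool.Agent.Helper26.AF.Rep
import Pool.Agent.Helper26.AF.Idem
import Pool.Agent.Helper26.AF.Defs

/-! Multiplicity one of a two-dimensional odd representation in a simple abelian variety. -/

open scoped TensorProduct

set_option linter.unusedSectionVars false

namespace Pool.Agent.Helper26.AF

section lin

variable {k : Type} [Field k] [CharZero k]

/-- an involution of trace zero on `k²` has a one-dimensional fixed space -/
lemma fixed_line (C : (Fin 2 → k) →ₗ[k] (Fin 2 → k)) (h2 : ∀ w, C (C w) = w)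
    (ht : LinearMap.trace k _ C = 0) :
    ∃ u : Fin 2 → k, u ≠ 0 ∧ C u = u ∧ ∀ w, C w = w → ∃ α : k, w = α • u := by
  have hex : ∃ w, C w + w ≠ 0 := by
    by_contra hcon
    push Not at hcon
    have : C = -LinearMap.id := by
      ext1 w
      apply LinearMap.ext
      intro x
      simpa using eq_neg_of_add_eq_zero_left (hcon _)
    rw [this, map_neg, LinearMap.trace_id] at ht
    simp at ht
  obtain ⟨w, hw⟩ := hex
  refine ⟨C w + w, hw, by rw [map_add, h2, add_comm], ?_⟩
  set u := C w + w with hu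
  have hCu : C u = u := by rw [hu, map_add, h2, add_comm]
  intro x hx
  by_contra hcon
  push Not at hcon
  have hli : LinearIndependent k ![u, x] := by
    rw [LinearIndependent.pair_iff]
    intro a b hab
    by_cases hb : b = 0
    · subst hb
      simp only [zero_smul, add_zero] at hab
      rcases smul_eq_zero.1 hab with h | h
      · exact ⟨h, rfl⟩
      · exact absurd h hw
    · exfalso
      apply hcon (-(b⁻¹ * a))
      have : b • x = -(a • u) := by
        rw [add_comm] at hab
        exact eq_neg_of_add_eq_zero_left hab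
      calc x = b⁻¹ • (b • x) := by rw [smul_smul, inv_mul_cancel₀ hb, one_smul]
        _ = -(b⁻¹ * a) • u := by rw [this, smul_neg, smul_smul, neg_smul]
  have hspan : Submodule.span k (Set.range ![u, x]) = ⊤ :=
    hli.span_eq_top_of_card_eq_finrank (by simp)
  have hC : C = LinearMap.id := by
    apply LinearMap.ext_on_range hspan
    intro i
    fin_cases i
    · simpa using hCu
    · simpa using hx
  rw [hC, LinearMap.trace_id] at ht
  simp at ht

end lin

variable {k : Type} [Field k] [CharZero k] [IsAlgClosed k] [TopologicalSpace k]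
variable {G : Type} [Group G] [TopologicalSpace G] {X : GaloisData G} {F : OpenSubgroup G}

/-- the `k`-span of the endomorphism algebra -/
def EndK (A : AbVar k X F) : Submodule k (Module.End k (k ⊗[ℚ] A.H)) :=
  Submodule.span k ((fun d : Module.End ℚ A.H => LinearMap.baseChange k d) '' A.endo)

/-- the endomorphism algebra of a simple abelian variety acts freely -/
lemma endK_free (A : AbVar k X F) (hs : A.IsSimple) {h : A.H} (hh : h ≠ 0)
    {T : Module.End k (k ⊗[ℚ] A.H)} (hT : T ∈ EndK A) (h0 : T (1 ⊗ₜ h) = 0) : T = 0 := by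
  let l : A.endo →ₗ[ℚ] Module.End k (k ⊗[ℚ] A.H) :=
    { toFun := fun d => LinearMap.baseChange k (d : Module.End ℚ A.H)
      map_add' := fun a b => by simp [LinearMap.baseChange_add]
      map_smul' := fun c a => by simp [LinearMap.baseChange_smul] }
  have hr : EndK A = LinearMap.range (l.liftBaseChange k) := by
    rw [LinearMap.range_liftBaseChange]
    unfold EndK
    congr 1
    ext T
    constructor
    · rintro ⟨d, hd, rfl⟩
      exact ⟨⟨d, hd⟩, rfl⟩
    · rintro ⟨d, rfl⟩
      exact ⟨d.1, d.2, rfl⟩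
  rw [hr] at hT
  obtain ⟨t, rfl⟩ := hT
  let j : A.endo →ₗ[ℚ] A.H :=
    { toFun := fun d => (d : Module.End ℚ A.H) h
      map_add' := fun a b => by simp
      map_smul' := fun c a => by simp }
  have hj : Function.Injective j := by
    rw [injective_iff_map_eq_zero]
    intro d hd
    by_contra hd0
    obtain ⟨e, _, he⟩ := hs.2 d.1 d.2 (fun h => hd0 (Subtype.ext h))
    apply hh
    have h1 : (e * d.1) h = h := by rw [he]; rfl
    rw [← h1, Module.End.mul_apply]
    have : d.1 h = 0 := hd
    rw [this, map_zero]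
  have hjk : Function.Injective (j.baseChange k) := by
    rw [LinearMap.baseChange_eq_ltensor]
    exact Module.Flat.lTensor_preserves_injective_linearMap _ hj
  have key : ∀ t : k ⊗[ℚ] A.endo, (l.liftBaseChange k t) (1 ⊗ₜ h) = j.baseChange k t := by
    intro t
    induction t using TensorProduct.induction_on with
    | zero => simp
    | tmul a d =>
      rw [LinearMap.liftBaseChange_tmul]
      simp [l, j, TensorProduct.smul_tmul']
    | add x y hx hy => rw [map_add, LinearMap.add_apply, hx, hy, map_add]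
  rw [key] at h0
  have : t = 0 := hjk (by rw [h0, map_zero])
  rw [this, map_zero]

/-- a vector of Betti homology fixed by complex conjugation -/
lemma exists_real_vector (A : AbVar k X F) (hA : A.Good) (hc : X.conj ∈ F)
    {ρ : Representation k F (Fin 2 → k)} (hρ : ρ.IsIrreducible)
    (hodd : LinearMap.trace k _ (ρ ⟨X.conj, hc⟩) = 0)
    {φ : (Fin 2 → k) →ₗ[k] (k ⊗[ℚ] A.H)} (hφ : Equivar ρ A.gal φ) (h0 : φ ≠ 0) :
    ∃ h : A.H, h ≠ 0 ∧ A.gal ⟨X.conj, hc⟩ (1 ⊗ₜ h) = 1 ⊗ₜ h := by
  have hsq : ∀ w, ρ ⟨X.conj, hc⟩ (ρ ⟨X.conj, hc⟩ w) = w := by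
    intro w
    rw [← Module.End.mul_apply, ← map_mul]
    have : (⟨X.conj, hc⟩ * ⟨X.conj, hc⟩ : F) = 1 := Subtype.ext X.conj_sq
    rw [this, map_one]; rfl
  obtain ⟨u, hu, hCu, -⟩ := fixed_line _ hsq hodd
  obtain ⟨c, hcH⟩ := hA.real hc
  have hφi := irr_injective hρ hφ h0
  have hfix : A.gal ⟨X.conj, hc⟩ (φ u) = φ u := by rw [← hφ.apply, hCu]
  have hne : φ u ≠ 0 := by
    intro h
    exact hu (hφi (by rw [h, map_zero]))
  have hker : ¬ Function.Injective (c - 1 : Module.End ℚ A.H) := by
    intro hinj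
    have : Function.Injective (LinearMap.baseChange k (c - 1 : Module.End ℚ A.H)) := by
      rw [LinearMap.baseChange_eq_ltensor]
      exact Module.Flat.lTensor_preserves_injective_linearMap _ hinj
    apply hne
    apply this
    rw [map_zero]
    have h1 : LinearMap.baseChange k (c - 1 : Module.End ℚ A.H) = LinearMap.baseChange k c - 1 := by
      rw [LinearMap.baseChange_sub, Module.End.one_eq_id, LinearMap.baseChange_id]; rfl
    rw [h1, LinearMap.sub_apply, ← hcH, hfix]
    simp
  rw [injective_iff_map_eq_zero] at hker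
  push Not at hker
  obtain ⟨h, h1, h2⟩ := hker
  refine ⟨h, h2, ?_⟩
  rw [hcH, LinearMap.baseChange_tmul]
  have : c h = h := by
    rw [LinearMap.sub_apply] at h1
    exact sub_eq_zero.1 h1
  rw [this]

lemma equivar_comp {Γ U V W : Type} [Group Γ] [AddCommGroup U] [Module k U] [AddCommGroup V]
    [Module k V] [AddCommGroup W] [Module k W] {ρ : Representation k Γ U}
    {σ : Representation k Γ V} {τ : Representation k Γ W} {S : V →ₗ[k] W} {T : U →ₗ[k] V}
    (hS : Equivar σ τ S) (hT : Equivar ρ σ T) : Equivar ρ τ (S ∘ₗ T) := by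
  intro g
  rw [LinearMap.comp_assoc, hT g, ← LinearMap.comp_assoc, hS g, LinearMap.comp_assoc]

lemma equivar_mem_endK (A : AbVar k X F) (hA : A.Good) {T : Module.End k (k ⊗[ℚ] A.H)}
    (hT : Equivar A.gal A.gal T) : T ∈ EndK A := hA.tate T fun g => hT g

/-- multiplicity one -/
lemma mult_one (A : AbVar k X F) (hA : A.Good) (hs : A.IsSimple) (hc : X.conj ∈ F)
    {ρ : Representation k F (Fin 2 → k)} (hρ : ρ.IsIrreducible)
    (hodd : LinearMap.trace k _ (ρ ⟨X.conj, hc⟩) = 0)
    {φ₁ φ₂ : (Fin 2 → k) →ₗ[k] (k ⊗[ℚ] A.H)} (h₁ : Equivar ρ A.gal φ₁)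
    (h₂ : Equivar ρ A.gal φ₂) (h0 : φ₁ ≠ 0) : ∃ c : k, φ₂ = c • φ₁ := by
  by_contra hcon
  push Not at hcon
  -- the map from the direct sum of two copies
  let Φ : ((Fin 2 → k) × (Fin 2 → k)) →ₗ[k] (k ⊗[ℚ] A.H) := φ₁.coprod φ₂
  have hΦ : Equivar (prodRep ρ ρ) A.gal Φ := by
    intro g
    apply LinearMap.ext
    rintro ⟨a, b⟩
    simp only [Φ, LinearMap.comp_apply, LinearMap.coprod_apply, prodRep, MonoidHom.coe_mk,
      OneHom.coe_mk, LinearMap.prodMap_apply, map_add, h₁.apply, h₂.apply]
  have hi₁ := irr_injective hρ h₁ h0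
  have hinj : Function.Injective Φ := by
    rw [injective_iff_map_eq_zero]
    rintro ⟨a, b⟩ hab
    have hab' : φ₁ a + φ₂ b = 0 := hab
    -- the set of b with φ₂ b in the range of φ₁ is stable
    have hst : Stable ρ ((LinearMap.range φ₁).comap φ₂) := by
      intro g v hv
      rw [Submodule.mem_comap] at hv ⊢
      rw [h₂.apply]
      exact stable_range h₁ g _ hv
    rcases irr_cases hρ hst with e | e
    · have hb : b ∈ (LinearMap.range φ₁).comap φ₂ := by
        rw [Submodule.mem_comap]
        refine ⟨-a, ?_⟩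
        rw [map_neg]
        exact (eq_neg_of_add_eq_zero_right hab').symm
      rw [e, Submodule.mem_bot] at hb
      subst hb
      simp only [map_zero, add_zero] at hab'
      have : a = 0 := hi₁ (by rw [hab', map_zero])
      simp [this]
    · exfalso
      -- φ₁⁻¹ φ₂ is an endomorphism, hence a scalar
      have hr : ∀ b, φ₂ b ∈ LinearMap.range φ₁ := by
        intro b
        have : b ∈ (LinearMap.range φ₁).comap φ₂ := by rw [e]; trivial
        exact this
      let e1 := LinearEquiv.ofInjective φ₁ hi₁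
      let S : (Fin 2 → k) →ₗ[k] (Fin 2 → k) := e1.symm.toLinearMap ∘ₗ φ₂.codRestrict _ hr
      have hS : ∀ b, φ₁ (S b) = φ₂ b := by
        intro b
        have : e1 (S b) = (φ₂.codRestrict _ hr) b := e1.apply_symm_apply _
        exact congrArg Subtype.val this
      have hSe : Equivar ρ ρ S := by
        intro g
        apply LinearMap.ext
        intro b
        apply hi₁
        simp only [LinearMap.comp_apply]
        rw [hS, h₁.apply, hS, h₂.apply]
      obtain ⟨c, hcS⟩ := schur hρ hSe
      apply hcon c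
      apply LinearMap.ext
      intro b
      rw [← hS b, hcS]
      simp
  obtain ⟨p, hp, hpΦ⟩ := exists_leftInv hA.semisimple hΦ hinj
  let p₁ := LinearMap.fst k _ _ ∘ₗ p
  let p₂ := LinearMap.snd k _ _ ∘ₗ p
  have hfst : Equivar (prodRep ρ ρ) ρ (LinearMap.fst k (Fin 2 → k) (Fin 2 → k)) := fun g => rfl
  have hsnd : Equivar (prodRep ρ ρ) ρ (LinearMap.snd k (Fin 2 → k) (Fin 2 → k)) := fun g => rfl
  have hp₁ : Equivar A.gal ρ p₁ := equivar_comp hfst hp
  have hp₂ : Equivar A.gal ρ p₂ := equivar_comp hsnd hp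
  have e11 : ∀ a, p₁ (φ₁ a) = a := by
    intro a
    have := LinearMap.congr_fun hpΦ (a, 0)
    have h : p (φ₁ a) = (a, 0) := by simpa [Φ] using this
    simp only [p₁, LinearMap.comp_apply, h, LinearMap.fst_apply]
  have e12 : ∀ a, p₁ (φ₂ a) = 0 := by
    intro a
    have := LinearMap.congr_fun hpΦ (0, a)
    have h : p (φ₂ a) = (0, a) := by simpa [Φ] using this
    simp only [p₁, LinearMap.comp_apply, h, LinearMap.fst_apply]
  have e21 : ∀ a, p₂ (φ₁ a) = 0 := by
    intro a
    have := LinearMap.congr_fun hpΦ (a, 0)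
    have h : p (φ₁ a) = (a, 0) := by simpa [Φ] using this
    simp only [p₂, LinearMap.comp_apply, h, LinearMap.snd_apply]
  have e22 : ∀ a, p₂ (φ₂ a) = a := by
    intro a
    have := LinearMap.congr_fun hpΦ (0, a)
    have h : p (φ₂ a) = (0, a) := by simpa [Φ] using this
    simp only [p₂, LinearMap.comp_apply, h, LinearMap.snd_apply]
  obtain ⟨h, hh, hfix⟩ := exists_real_vector A hA hc hρ hodd h₁ h0
  have hsq : ∀ w, ρ ⟨X.conj, hc⟩ (ρ ⟨X.conj, hc⟩ w) = w := by
    intro w
    rw [← Module.End.mul_apply, ← map_mul]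
    have : (⟨X.conj, hc⟩ * ⟨X.conj, hc⟩ : F) = 1 := Subtype.ext X.conj_sq
    rw [this, map_one]; rfl
  obtain ⟨u, hu, hCu, hline⟩ := fixed_line _ hsq hodd
  obtain ⟨α₁, hα₁⟩ := hline (p₁ (1 ⊗ₜ h)) (by rw [← hp₁.apply, hfix])
  obtain ⟨α₂, hα₂⟩ := hline (p₂ (1 ⊗ₜ h)) (by rw [← hp₂.apply, hfix])
  have hne : ∃ a : Fin 2 → k, a ≠ 0 := ⟨u, hu⟩
  -- first operator
  let T : Module.End k (k ⊗[ℚ] A.H) := φ₁ ∘ₗ (α₂ • p₁ - α₁ • p₂)
  have hTe : Equivar A.gal A.gal T := by
    apply equivar_comp h₁
    intro g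
    apply LinearMap.ext
    intro v
    simp [hp₁.apply, hp₂.apply]
  have hT0 : T = 0 := by
    apply endK_free A hs hh (equivar_mem_endK A hA hTe)
    simp only [T, LinearMap.comp_apply, LinearMap.sub_apply, LinearMap.smul_apply]
    rw [hα₁, hα₂, smul_smul, smul_smul, mul_comm, sub_self, map_zero]
  have hα2 : α₂ = 0 := by
    have := LinearMap.congr_fun hT0 (φ₁ u)
    simp only [T, LinearMap.comp_apply, LinearMap.sub_apply, LinearMap.smul_apply, e11, e21,
      smul_zero, sub_zero, LinearMap.zero_apply, map_smul] at this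
    rcases smul_eq_zero.1 this with h | h
    · exact h
    · exact absurd (hi₁ (by rw [h, map_zero])) hu
  have hα1 : α₁ = 0 := by
    have := LinearMap.congr_fun hT0 (φ₂ u)
    simp only [T, LinearMap.comp_apply, LinearMap.sub_apply, LinearMap.smul_apply, e12, e22,
      smul_zero, zero_sub, LinearMap.zero_apply, map_neg, map_smul, neg_eq_zero] at this
    rcases smul_eq_zero.1 this with h | h
    · exact h
    · exact absurd (hi₁ (by rw [h, map_zero])) hu
  let S : Module.End k (k ⊗[ℚ] A.H) := φ₁ ∘ₗ p₁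
  have hSe : Equivar A.gal A.gal S := equivar_comp h₁ hp₁
  have hS0 : S = 0 := by
    apply endK_free A hs hh (equivar_mem_endK A hA hSe)
    simp only [S, LinearMap.comp_apply]
    rw [hα₁, hα1, zero_smul, map_zero]
  have := LinearMap.congr_fun hS0 (φ₁ u)
  simp only [S, LinearMap.comp_apply, e11, LinearMap.zero_apply] at this
  exact hu (hi₁ (by rw [this, map_zero]))

end Pool.Agent.Helper26.AF
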