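import Pool.Agent.Helper26.AF.Core

/-! `A_f` exists as soon as the representation of `f` occurs in an abelian variety over a finite
extension. -/

open scoped TensorProduct

set_option linter.unusedSectionVars false

namespace Pool.Agent.Helper26.AF

variable {k : Type} [Field k] [CharZero k] [IsAlgClosed k] [TopologicalSpace k]
  [IsTopologicalRing k] [T2Space k]
variable {G : Type} [Group G] [TopologicalSpace G] {X : GaloisData G}

/-- there is a nonzero equivariant map from the representation `ρ` to the representation `σ` -/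
def Occurs {Γ V W : Type} [Group Γ] [AddCommGroup V] [Module k V] [AddCommGroup W] [Module k W]
    (ρ : Representation k Γ W) (σ : Representation k Γ V) : Prop :=
  ∃ φ : W →ₗ[k] V, φ ≠ 0 ∧ ∀ g w, φ (ρ g w) = σ g (φ w)

/-- the representation attached to (a conjugate of) `f` occurs in the Tate module of an abelian
variety over a finite extension `K` of `F` -/
def Potentially (T : AVTheory k X) {F : OpenSubgroup G} (f : Newform k X F) : Prop :=
  ∃ (K : OpenSubgroup G) (h : K ≤ F) (B : AbVar k X K) (τ : f.M →+* k),
    T.isAV K B ∧ Occurs (res h (f.rep τ)) B.gal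

/-- occurrence over `F` itself is enough -/
lemma hasAf_of_occurs (T : AVTheory k X) {F : OpenSubgroup G} (f : Newform k X F)
    {B : AbVar k X F} (hB : T.isAV F B) {τ : f.M →+* k}
    {φ : (Fin 2 → k) →ₗ[k] (k ⊗[ℚ] B.H)} (hφ : Equivar (f.rep τ) B.gal φ) (h0 : φ ≠ 0) :
    HasAf T f := by
  obtain ⟨n, A, hA, e, he⟩ := T.poincare F B hB
  obtain ⟨i, hi⟩ : ∃ i, LinearMap.proj i ∘ₗ e.toLinearMap ∘ₗ φ ≠ 0 := by
    by_contra hcon
    push Not at hcon
    apply h0
    apply LinearMap.ext
    intro w
    apply e.injective
    rw [LinearMap.zero_apply, map_zero]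
    funext i
    exact LinearMap.congr_fun (hcon i) w
  refine ⟨A i, (hA i).1, (hA i).2, ?_⟩
  refine repIso_of_simple (T.good F (A i) (hA i).1) (hA i).2 f (τ₀ := τ)
    (φ₀ := LinearMap.proj i ∘ₗ e.toLinearMap ∘ₗ φ) ?_ hi
  intro g
  apply LinearMap.ext
  intro w
  simp only [LinearMap.comp_apply, LinearEquiv.coe_coe, LinearMap.proj_apply]
  rw [hφ.apply, he]
  rfl

theorem hasAf_of_potentially (T : AVTheory k X) {F : OpenSubgroup G} (f : Newform k X F)
    (hp : Potentially T f) : HasAf T f := by
  obtain ⟨K, h, B, τ, hB, φ, h0, hφ'⟩ := hp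
  have hφ : ∀ (g : K) (w : Fin 2 → k), φ (f.rep τ (incl h g) w) = B.gal g (φ w) := hφ'
  obtain ⟨C, hC, e, he⟩ := T.weilRes F K h B hB
  -- Frobenius reciprocity
  let ψ : (Fin 2 → k) →ₗ[k] Representation.coindV (incl h) B.gal :=
    { toFun := fun w => ⟨fun g => φ (f.rep τ g w), by
        intro a b
        change φ (f.rep τ (incl h a * b) w) = B.gal a (φ (f.rep τ b w))
        rw [map_mul, Module.End.mul_apply, hφ]⟩
      map_add' := fun a b => by
        apply Subtype.ext
        funext g
        simp
      map_smul' := fun c a => by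
        apply Subtype.ext
        funext g
        simp }
  have hψ : ∀ g w, ψ (f.rep τ g w) = Representation.coind (incl h) B.gal g (ψ w) := by
    intro g w
    apply Subtype.ext
    funext x
    change φ (f.rep τ x (f.rep τ g w)) = φ (f.rep τ (x * g) w)
    rw [map_mul]; rfl
  refine hasAf_of_occurs T f hC (τ := τ) (φ := e.symm.toLinearMap ∘ₗ ψ) ?_ ?_
  · intro g
    apply LinearMap.ext
    intro w
    simp only [LinearMap.comp_apply, LinearEquiv.coe_coe]
    rw [LinearEquiv.symm_apply_eq, he, e.apply_symm_apply, hψ]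
  · intro h1
    apply h0
    apply LinearMap.ext
    intro w
    have h2 : ψ w = 0 := by
      apply e.symm.injective
      rw [map_zero]
      exact LinearMap.congr_fun h1 w
    have h3 := congrFun (congrArg Subtype.val h2) 1
    change φ (f.rep τ 1 w) = 0 at h3
    rw [map_one] at h3
    exact h3

end Pool.Agent.Helper26.AF
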