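import Mathlib

/-! Representation-theoretic lemmas (Schur, Brauer-Nesbitt for a simple module, projections). -/

open scoped TensorProduct MonoidAlgebra

namespace Pool.Agent.Helper26.AF

variable {k : Type} [Field k] {Γ : Type} [Group Γ]
variable {V W : Type} [AddCommGroup V] [Module k V] [AddCommGroup W] [Module k W]

/-- `T` commutes with the two representations. -/
def Equivar (ρ : Representation k Γ V) (σ : Representation k Γ W) (T : V →ₗ[k] W) : Prop :=
  ∀ g, T ∘ₗ ρ g = σ g ∘ₗ T

lemma Equivar.apply {ρ : Representation k Γ V} {σ : Representation k Γ W} {T : V →ₗ[k] W}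
    (h : Equivar ρ σ T) (g : Γ) (v : V) : T (ρ g v) = σ g (T v) :=
  LinearMap.congr_fun (h g) v

/-- stable submodules -/
def Stable (ρ : Representation k Γ V) (P : Submodule k V) : Prop :=
  ∀ g, ∀ v ∈ P, ρ g v ∈ P

lemma exists_compl {ρ : Representation k Γ V} (hs : ρ.IsSemisimpleRepresentation)
    {P : Submodule k V} (hP : Stable ρ P) : ∃ Q : Submodule k V, Stable ρ Q ∧ IsCompl P Q := by
  obtain ⟨Q, hQ⟩ := exists_isCompl (⟨P, fun g v hv => hP g v hv⟩ : Subrepresentation ρ)
  refine ⟨Q.toSubmodule, fun g v hv => Q.apply_mem_toSubmodule g hv, ?_⟩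
  constructor
  · rw [disjoint_iff]
    have h := disjoint_iff.1 hQ.disjoint
    exact congrArg Subrepresentation.toSubmodule h
  · rw [codisjoint_iff]
    have h := codisjoint_iff.1 hQ.codisjoint
    exact congrArg Subrepresentation.toSubmodule h

lemma irr_cases {ρ : Representation k Γ V} (hs : ρ.IsIrreducible)
    {P : Submodule k V} (hP : Stable ρ P) : P = ⊥ ∨ P = ⊤ := by
  rcases hs.eq_bot_or_eq_top (⟨P, fun g v hv => hP g v hv⟩ : Subrepresentation ρ) with h | h
  · left; exact congrArg Subrepresentation.toSubmodule h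
  · right; exact congrArg Subrepresentation.toSubmodule h

lemma irr_nontrivial {ρ : Representation k Γ V} (hs : ρ.IsIrreducible) : Nontrivial V := by
  by_contra hn
  rw [not_nontrivial_iff_subsingleton] at hn
  have : (⊥ : Subrepresentation ρ) = ⊤ := by
    apply Subrepresentation.toSubmodule_injective
    exact Subsingleton.elim (α := Submodule k V) _ _
  exact bot_ne_top this

lemma irr_of {ρ : Representation k Γ V} (hn : Nontrivial V)
    (h : ∀ P : Submodule k V, Stable ρ P → P = ⊥ ∨ P = ⊤) : ρ.IsIrreducible := by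
  have hne : (⊥ : Subrepresentation ρ) ≠ ⊤ := by
    intro e
    have : (⊥ : Submodule k V) = ⊤ := congrArg Subrepresentation.toSubmodule e
    exact bot_ne_top this
  refine { exists_pair_ne := ⟨_, _, hne⟩, eq_bot_or_eq_top := fun P => ?_ }
  rcases h P.toSubmodule (fun g v hv => P.apply_mem_toSubmodule g hv) with e | e
  · left; exact Subrepresentation.toSubmodule_injective e
  · right; exact Subrepresentation.toSubmodule_injective e

lemma stable_ker {ρ : Representation k Γ V} {σ : Representation k Γ W} {T : V →ₗ[k] W}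
    (h : Equivar ρ σ T) : Stable ρ (LinearMap.ker T) := by
  intro g v hv
  rw [LinearMap.mem_ker] at hv ⊢
  rw [h.apply, hv, map_zero]

lemma stable_range {ρ : Representation k Γ V} {σ : Representation k Γ W} {T : V →ₗ[k] W}
    (h : Equivar ρ σ T) : Stable σ (LinearMap.range T) := by
  rintro g _ ⟨v, rfl⟩
  exact ⟨ρ g v, h.apply g v⟩

lemma irr_injective {ρ : Representation k Γ V} {σ : Representation k Γ W} {T : V →ₗ[k] W}
    (hs : ρ.IsIrreducible) (h : Equivar ρ σ T) (h0 : T ≠ 0) : Function.Injective T := by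
  rcases irr_cases hs (stable_ker h) with e | e
  · exact LinearMap.ker_eq_bot.1 e
  · exact absurd (LinearMap.ker_eq_top.1 e) h0

/-- Schur's lemma. -/
lemma schur [IsAlgClosed k] [FiniteDimensional k V] {ρ : Representation k Γ V}
    (hs : ρ.IsIrreducible) {T : V →ₗ[k] V} (h : Equivar ρ ρ T) : ∃ c : k, T = c • LinearMap.id := by
  have := irr_nontrivial hs
  obtain ⟨c, hc⟩ := Module.End.exists_eigenvalue T
  refine ⟨c, ?_⟩
  have hst : Equivar ρ ρ (T - c • LinearMap.id) := by
    intro g
    ext v
    simp [h.apply g v]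
  rcases irr_cases hs (stable_ker hst) with e | e
  · exfalso
    obtain ⟨v, hv⟩ := hc.exists_hasEigenvector
    have h1 : v ∈ LinearMap.ker (T - c • LinearMap.id) := by
      rw [LinearMap.mem_ker]
      have := hv.apply_eq_smul
      simp [this]
    rw [e] at h1
    exact hv.2 (by simpa using h1)
  · exact sub_eq_zero.1 (LinearMap.ker_eq_top.1 e)

/-- equivariant left inverse of an injective equivariant map into a semisimple representation -/
lemma exists_leftInv {ρ : Representation k Γ V} {σ : Representation k Γ W}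
    (hs : σ.IsSemisimpleRepresentation) {T : V →ₗ[k] W} (h : Equivar ρ σ T)
    (hi : Function.Injective T) : ∃ p : W →ₗ[k] V, Equivar σ ρ p ∧ p ∘ₗ T = LinearMap.id := by
  obtain ⟨Q, hQ, hc⟩ := exists_compl hs (stable_range h)
  -- projection onto the range of T along Q
  let π : W →ₗ[k] LinearMap.range T := Submodule.projectionOnto _ _ hc
  let e : V ≃ₗ[k] LinearMap.range T := LinearEquiv.ofInjective T hi
  refine ⟨e.symm.toLinearMap ∘ₗ π, ?_, ?_⟩
  · intro g
    ext w
    -- decompose w
    obtain ⟨a, ha, b, hb, rfl⟩ := Submodule.mem_sup.1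
      (by rw [hc.sup_eq_top]; trivial : w ∈ LinearMap.range T ⊔ Q)
    obtain ⟨v, rfl⟩ := ha
    have hπ1 : ∀ v : V, π (T v) = e v := by
      intro v
      have : π ((⟨T v, ⟨v, rfl⟩⟩ : LinearMap.range T) : W) = ⟨T v, ⟨v, rfl⟩⟩ :=
        Submodule.projectionOnto_apply_left hc _
      rw [this]; rfl
    have hπ2 : ∀ b ∈ Q, π b = 0 := fun b hb =>
      (Submodule.projectionOnto_apply_eq_zero_iff hc).2 hb
    simp only [LinearMap.comp_apply, map_add, LinearEquiv.coe_coe]
    rw [hπ1, hπ2 b hb, hπ2 _ (hQ g b hb), ← h.apply, hπ1]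
    simp
  · ext v
    have : π (T v) = e v := by
      have : π ((⟨T v, ⟨v, rfl⟩⟩ : LinearMap.range T) : W) = ⟨T v, ⟨v, rfl⟩⟩ :=
        Submodule.projectionOnto_apply_left hc _
      rw [this]; rfl
    simp [this]

/-- the direct sum of two representations -/
def prodRep (ρ : Representation k Γ V) (σ : Representation k Γ W) : Representation k Γ (V × W) where
  toFun g := (ρ g).prodMap (σ g)
  map_one' := by ext <;> simp
  map_mul' a b := by ext <;> simp

lemma isSemisimpleModule_prod {R A B : Type} [Ring R] [AddCommGroup A] [AddCommGroup B]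
    [Module R A] [Module R B] [IsSemisimpleModule R A] [IsSemisimpleModule R B] :
    IsSemisimpleModule R (A × B) := by
  refine isSemisimpleModule_of_isSemisimpleModule_submodule'
    (p := fun b : Bool => if b then LinearMap.range (LinearMap.inl R A B)
      else LinearMap.range (LinearMap.inr R A B)) ?_ ?_
  · intro b
    cases b
    · exact IsSemisimpleModule.range _
    · exact IsSemisimpleModule.range _
  · rw [iSup_bool_eq]
    simp only [if_true]
    exact LinearMap.sup_range_inl_inr

lemma trace_asAlgebraHom_eq [FiniteDimensional k V] [FiniteDimensional k W]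
    {ρ : Representation k Γ W} {σ : Representation k Γ V}
    (htr : ∀ g, LinearMap.trace k W (ρ g) = LinearMap.trace k V (σ g)) (r : MonoidAlgebra k Γ) :
    LinearMap.trace k W (ρ.asAlgebraHom r) = LinearMap.trace k V (σ.asAlgebraHom r) := by
  induction r using MonoidAlgebra.induction_linear with
  | zero => simp
  | add x y hx hy => simp [hx, hy]
  | single g a => simp [Representation.asAlgebraHom_single, htr]

/-- Brauer-Nesbitt, the part we need: if `ρ` is irreducible, `σ` semisimple and the traces
agree then `ρ` embeds in `σ`. -/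
lemma brauer_nesbitt [CharZero k] [FiniteDimensional k V] [FiniteDimensional k W]
    {ρ : Representation k Γ W} {σ : Representation k Γ V}
    (hρ : ρ.IsIrreducible) (hσ : σ.IsSemisimpleRepresentation)
    (htr : ∀ g, LinearMap.trace k W (ρ g) = LinearMap.trace k V (σ g)) :
    ∃ T : W →ₗ[k] V, Equivar ρ σ T ∧ T ≠ 0 := by
  by_contra hcon
  push Not at hcon
  -- no maps from V to W either
  have hcon2 : ∀ T : V →ₗ[k] W, Equivar σ ρ T → T = 0 := by
    intro T hT
    by_contra hT0
    have hsurj : LinearMap.range T = ⊤ := by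
      rcases irr_cases hρ (stable_range hT) with e | e
      · exact absurd (LinearMap.range_eq_bot.1 e) hT0
      · exact e
    obtain ⟨Q, hQ, hc⟩ := exists_compl hσ (stable_ker hT)
    -- T restricted to Q is bijective
    let TQ : Q →ₗ[k] W := T ∘ₗ Q.subtype
    have hinj : Function.Injective TQ := by
      rw [← LinearMap.ker_eq_bot]
      rw [Submodule.eq_bot_iff]
      rintro ⟨x, hx⟩ hx'
      have h1 : x ∈ LinearMap.ker T := hx'
      have : x ∈ LinearMap.ker T ⊓ Q := ⟨h1, hx⟩
      rw [hc.inf_eq_bot] at this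
      exact Subtype.ext (by simpa using this)
    have hsur : Function.Surjective TQ := by
      intro w
      have : w ∈ LinearMap.range T := by rw [hsurj]; trivial
      obtain ⟨v, rfl⟩ := this
      obtain ⟨a, ha, b, hb, rfl⟩ := Submodule.mem_sup.1
        (by rw [hc.sup_eq_top]; trivial : v ∈ LinearMap.ker T ⊔ Q)
      refine ⟨⟨b, hb⟩, ?_⟩
      simp only [TQ, LinearMap.comp_apply, Submodule.subtype_apply, map_add]
      rw [LinearMap.mem_ker.1 ha, zero_add]
    let e : Q ≃ₗ[k] W := LinearEquiv.ofBijective TQ ⟨hinj, hsur⟩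
    let S : W →ₗ[k] V := Q.subtype ∘ₗ e.symm.toLinearMap
    have hTS : ∀ w, T (S w) = w := fun w => e.apply_symm_apply w
    have hS : Equivar ρ σ S := by
      intro g
      ext w
      -- both sides are in Q and have the same image under T
      have h1 : S (ρ g w) ∈ Q := (e.symm (ρ g w)).2
      have h2 : σ g (S w) ∈ Q := hQ g _ (e.symm w).2
      have h3 : T (S (ρ g w)) = T (σ g (S w)) := by
        rw [hTS, hT.apply, hTS]
      have h4 : TQ ⟨_, h1⟩ = TQ ⟨_, h2⟩ := h3
      exact congrArg Subtype.val (hinj h4)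
    have := hcon S hS
    have := irr_nontrivial hρ
    obtain ⟨w, hw⟩ := exists_ne (0 : W)
    apply hw
    rw [← hTS w, ‹S = 0›]
    simp
  have i1 : IsSimpleModule k[Γ] ρ.asModule :=
    (Representation.irreducible_iff_isSimpleModule_asModule ρ).1 hρ
  have i2 : IsSemisimpleModule k[Γ] σ.asModule :=
    (Representation.isSemisimpleRepresentation_iff_isSemisimpleModule_asModule σ).1 hσ
  have i3 : IsSemisimpleModule k[Γ] (ρ.asModule × σ.asModule) := isSemisimpleModule_prod
  -- homs over the group algebra are zero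
  have z1 : ∀ f : ρ.asModule →ₗ[k[Γ]] σ.asModule, f = 0 := by
    intro f
    have h := hcon ((Representation.IntertwiningMap.equivLinearMapAsModule ρ σ).symm f).toLinearMap
      ((Representation.IntertwiningMap.equivLinearMapAsModule ρ σ).symm f).isIntertwining'
    have h2 : (Representation.IntertwiningMap.equivLinearMapAsModule ρ σ).symm f = 0 :=
      Representation.IntertwiningMap.ext h
    simpa using h2
  have z2 : ∀ f : σ.asModule →ₗ[k[Γ]] ρ.asModule, f = 0 := by
    intro f
    have h := hcon2 ((Representation.IntertwiningMap.equivLinearMapAsModule σ ρ).symm f).toLinearMap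
      ((Representation.IntertwiningMap.equivLinearMapAsModule σ ρ).symm f).isIntertwining'
    have h2 : (Representation.IntertwiningMap.equivLinearMapAsModule σ ρ).symm f = 0 :=
      Representation.IntertwiningMap.ext h
    simpa using h2
  -- the projection to the first factor commutes with all endomorphisms
  let N := ρ.asModule × σ.asModule
  let π : N →ₗ[k[Γ]] N := (LinearMap.inl k[Γ] ρ.asModule σ.asModule) ∘ₗ
    (LinearMap.fst k[Γ] ρ.asModule σ.asModule)
  have hπ : ∀ f : Module.End k[Γ] N, ∀ x : N, π (f x) = f (π x) := by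
    intro f x
    have e1 : LinearMap.fst k[Γ] ρ.asModule σ.asModule ∘ₗ f ∘ₗ
      LinearMap.inr k[Γ] ρ.asModule σ.asModule = 0 := z2 _
    have e2 : LinearMap.snd k[Γ] ρ.asModule σ.asModule ∘ₗ f ∘ₗ
      LinearMap.inl k[Γ] ρ.asModule σ.asModule = 0 := z1 _
    have hx : x = ((x.1, 0) : N) + ((0, x.2) : N) := by ext <;> simp
    have e1' : (f ((0, x.2) : N)).1 = 0 := LinearMap.congr_fun e1 x.2
    have e2' : (f ((x.1, 0) : N)).2 = 0 := LinearMap.congr_fun e2 x.1
    have hπx : ∀ y : N, π y = (y.1, 0) := fun y => rfl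
    rw [hπx, hπx]
    apply Prod.ext
    · change (f x).1 = (f ((x.1, 0) : N)).1
      conv_lhs => rw [hx, map_add]
      rw [Prod.fst_add, e1', add_zero]
    · exact e2'.symm
  let F : Module.End (Module.End k[Γ] N) N :=
    { toFun := π
      map_add' := π.map_add
      map_smul' := fun f x => hπ f x }
  let b1 := Module.finBasis k W
  let b2 := Module.finBasis k V
  classical
  let s : Finset N := (Finset.univ.image fun i => ((b1 i, 0) : W × V)) ∪
    (Finset.univ.image fun i => ((0, b2 i) : W × V))
  obtain ⟨r, hr⟩ := jacobson_density F s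
  have hrW : ρ.asAlgebraHom r = LinearMap.id := by
    apply b1.ext
    intro i
    have := hr ((b1 i, 0) : W × V) (by simp [s])
    have h2 := congrArg Prod.fst this
    exact h2.symm
  have hrV : σ.asAlgebraHom r = 0 := by
    apply b2.ext
    intro i
    have := hr ((0, b2 i) : W × V) (by simp [s])
    have h2 := congrArg Prod.snd this
    exact h2.symm
  have ht := trace_asAlgebraHom_eq htr r
  rw [hrW, hrV, LinearMap.trace_id, map_zero] at ht
  have := irr_nontrivial hρ
  have h3 : 0 < Module.finrank k W := Module.finrank_pos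
  rw [Nat.cast_eq_zero] at ht
  omega

/-- the restriction of a representation to a stable submodule -/
def subRep (σ : Representation k Γ V) (U : Submodule k V) (hU : Stable σ U) :
    Representation k Γ U where
  toFun g := (σ g).restrict (fun v hv => hU g v hv)
  map_one' := by ext; simp
  map_mul' a b := by ext; simp

lemma subRep_semisimple {σ : Representation k Γ V} (hσ : σ.IsSemisimpleRepresentation)
    {U : Submodule k V} (hU : Stable σ U) : (subRep σ U hU).IsSemisimpleRepresentation := by
  constructor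
  intro P
  -- view P as a submodule of V
  have hP : Stable σ (P.toSubmodule.map U.subtype) := by
    rintro g _ ⟨⟨v, hv⟩, hvP, rfl⟩
    exact ⟨_, P.apply_mem_toSubmodule g hvP, rfl⟩
  obtain ⟨Q, hQ, hc⟩ := exists_compl hσ hP
  refine ⟨⟨Q.comap U.subtype, fun g v hv => hQ g _ hv⟩, ?_, ?_⟩
  · rw [disjoint_iff]
    apply Subrepresentation.toSubmodule_injective
    change P.toSubmodule ⊓ Q.comap U.subtype = ⊥
    rw [Submodule.eq_bot_iff]
    rintro ⟨x, hx⟩ ⟨h1, h2⟩
    have : x ∈ P.toSubmodule.map U.subtype ⊓ Q := ⟨⟨⟨x, hx⟩, h1, rfl⟩, h2⟩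
    rw [hc.inf_eq_bot] at this
    exact Subtype.ext (by simpa using this)
  · rw [codisjoint_iff]
    apply Subrepresentation.toSubmodule_injective
    change P.toSubmodule ⊔ Q.comap U.subtype = ⊤
    rw [eq_top_iff]
    rintro ⟨x, hx⟩ -
    obtain ⟨a, ha, b, hb, hab⟩ := Submodule.mem_sup.1
      (by rw [hc.sup_eq_top]; trivial : x ∈ P.toSubmodule.map U.subtype ⊔ Q)
    obtain ⟨⟨a', ha'⟩, haP, rfl⟩ := ha
    have hbU : b ∈ U := by
      have : b = x - a' := by rw [← hab]; simp
      rw [this]
      exact U.sub_mem hx ha'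
    refine Submodule.mem_sup.2 ⟨⟨a', ha'⟩, haP, ⟨b, hbU⟩, hb, ?_⟩
    exact Subtype.ext hab

/-- Brauer-Nesbitt for the image of an equivariant idempotent -/
lemma brauer_nesbitt_idem [CharZero k] [FiniteDimensional k V] [FiniteDimensional k W]
    {ρ : Representation k Γ W} {σ : Representation k Γ V}
    (hρ : ρ.IsIrreducible) (hσ : σ.IsSemisimpleRepresentation) {e : Module.End k V}
    (he : e * e = e) (hee : Equivar σ σ e)
    (htr : ∀ g, LinearMap.trace k W (ρ g) = LinearMap.trace k V (σ g * e)) :
    ∃ T : W →ₗ[k] V, Equivar ρ σ T ∧ T ≠ 0 ∧ ∀ w, e (T w) = T w := by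
  let U := LinearMap.range e
  have hU : Stable σ U := stable_range hee
  have hfix : ∀ x ∈ U, e x = x := by
    rintro _ ⟨y, rfl⟩
    rw [← Module.End.mul_apply, he]
  let π : V →ₗ[k] U := e.codRestrict U (fun v => ⟨v, rfl⟩)
  have htr2 : ∀ g, LinearMap.trace k W (ρ g) = LinearMap.trace k U (subRep σ U hU g) := by
    intro g
    rw [htr]
    have h1 : σ g * e = (σ g ∘ₗ U.subtype) ∘ₗ π := by
      apply LinearMap.ext; intro v; rfl
    have h2 : subRep σ U hU g = π ∘ₗ (σ g ∘ₗ U.subtype) := by
      apply LinearMap.ext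
      rintro ⟨v, hv⟩
      apply Subtype.ext
      change σ g v = e (σ g v)
      rw [hfix _ (hU g v hv)]
    rw [h1, h2, LinearMap.trace_comp_comm']
  obtain ⟨T, hT, hT0⟩ := brauer_nesbitt hρ (subRep_semisimple hσ hU) htr2
  refine ⟨U.subtype ∘ₗ T, ?_, ?_, ?_⟩
  · intro g
    apply LinearMap.ext
    intro w
    exact congrArg Subtype.val (hT.apply g w)
  · intro h
    apply hT0
    apply LinearMap.ext
    intro w
    exact Subtype.ext (LinearMap.congr_fun h w)
  · intro w
    exact hfix _ (T w).2

lemma charpoly_dvd [FiniteDimensional k V] [FiniteDimensional k W]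
    {ρ : Representation k Γ W} {σ : Representation k Γ V}
    (hσ : σ.IsSemisimpleRepresentation) {T : W →ₗ[k] V} (hT : Equivar ρ σ T)
    (hi : Function.Injective T) (g : Γ) : (ρ g).charpoly ∣ (σ g).charpoly := by
  obtain ⟨Q, hQ, hc⟩ := exists_compl hσ (stable_range hT)
  let e1 : W ≃ₗ[k] LinearMap.range T := LinearEquiv.ofInjective T hi
  let e2 : (LinearMap.range T × Q) ≃ₗ[k] V := Submodule.prodEquivOfIsCompl _ _ hc
  let e : (W × Q) ≃ₗ[k] V := (e1.prodCongr (LinearEquiv.refl k Q)).trans e2
  let gQ : Q →ₗ[k] Q := (σ g).restrict (fun v hv => hQ g v hv)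
  have hconj : σ g = e.conj ((ρ g).prodMap gQ) := by
    ext v
    obtain ⟨x, rfl⟩ := e.surjective v
    rw [LinearEquiv.conj_apply_apply, e.symm_apply_apply]
    obtain ⟨w, q⟩ := x
    have h1 : ∀ (w : W) (q : Q), e (w, q) = T w + q := by
      intro w q
      simp only [e, e2, LinearEquiv.trans_apply, LinearEquiv.prodCongr_apply,
        Submodule.coe_prodEquivOfIsCompl']
      rfl
    rw [h1, LinearMap.prodMap_apply, h1, map_add, hT.apply]
    rfl
  rw [hconj, LinearEquiv.charpoly_conj, LinearMap.charpoly_prodMap]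
  exact dvd_mul_right _ _

end Pool.Agent.Helper26.AF
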