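import Pool.Agent.Helper26.AF.Local

/-! The residual criterion for the existence of `A_f`: it is enough that for infinitely many primes
`l` of the coefficient field the residual representation of `f` at `l` is contained in the one of
an abelian variety of bounded dimension with good reduction outside a fixed finite set. -/

open scoped TensorProduct
open IsDedekindDomain

set_option linter.unusedSectionVars false

namespace Pool.Agent.Helper26.AF

/-- `Q` divides `P` modulo the prime `l` of `M`: all coefficients of the remainder of the division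
of `P` by `Q` are images under `τ` of elements of `M` with positive `l`-adic valuation. -/
def DividesMod {k M : Type} [Field k] [Field M] [NumberField M]
    (l : HeightOneSpectrum (NumberField.RingOfIntegers M)) (τ : M →+* k)
    (Q P : Polynomial k) : Prop :=
  ∀ i, ∃ c : M, l.valuation M c < 1 ∧ (P %ₘ Q).coeff i = τ c

section nf

variable {M : Type} [Field M] [NumberField M]

lemma finite_primes_of_ne_zero {a : NumberField.RingOfIntegers M} (ha : a ≠ 0) :
    {l : HeightOneSpectrum (NumberField.RingOfIntegers M) | a ∈ l.asIdeal}.Finite := by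
  have h := Ideal.finite_factors (I := Ideal.span {a}) (by
    intro h0
    exact ha (Ideal.span_singleton_eq_bot.1 (by simpa using h0)))
  refine h.subset fun l hl => ?_
  rw [Set.mem_ofPred_eq, Ideal.dvd_span_singleton]
  exact hl

lemma finite_valuation_lt {c : M} (hc : c ≠ 0) :
    {l : HeightOneSpectrum (NumberField.RingOfIntegers M) | l.valuation M c < 1}.Finite := by
  obtain ⟨a, b, hb, rfl⟩ := IsFractionRing.div_surjective (A := NumberField.RingOfIntegers M) c
  have ha : a ≠ 0 := by
    rintro rfl
    exact hc (by simp)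
  refine (finite_primes_of_ne_zero ha).subset fun l hl => ?_
  rw [Set.mem_ofPred_eq] at hl ⊢
  rw [← l.valuation_lt_one_iff_mem (K := M)]
  rw [map_div₀] at hl
  have hb0 : b ≠ 0 := nonZeroDivisors.ne_zero hb
  have h1 : l.valuation M (algebraMap _ M b) ≤ 1 := l.valuation_le_one b
  have h2 : l.valuation M (algebraMap _ M b) ≠ 0 := by
    rw [Valuation.ne_zero_iff]
    exact (map_ne_zero_iff _ (IsFractionRing.injective _ M)).2 hb0
  have h3 : l.valuation M (algebraMap _ M a) =
      l.valuation M (algebraMap _ M a) / l.valuation M (algebraMap _ M b) *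
        l.valuation M (algebraMap _ M b) := by
    rw [div_mul_cancel₀ _ h2]
  rw [h3]
  exact lt_of_le_of_lt (mul_le_of_le_one_right' h1) hl

/-- there are infinitely many primes -/
lemma infinite_primes (M : Type) [Field M] [NumberField M] :
    (Set.univ : Set (HeightOneSpectrum (NumberField.RingOfIntegers M))).Infinite := by
  classical
  intro hfin
  -- the product of all primes plus one
  have : Finite (HeightOneSpectrum (NumberField.RingOfIntegers M)) :=
    Set.finite_univ_iff.1 hfin
  have h1 : ∀ p : ℕ, p.Prime → ∃ l : HeightOneSpectrum (NumberField.RingOfIntegers M),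
      (p : NumberField.RingOfIntegers M) ∈ l.asIdeal := by
    intro p hp
    have hnu : ¬ IsUnit (p : NumberField.RingOfIntegers M) := by
      intro hu
      have h2 := NumberField.isUnit_iff_norm.1 hu
      have h3 : (RingOfIntegers.norm ℚ (p : NumberField.RingOfIntegers M) : ℚ) =
          (p : ℚ) ^ Module.finrank ℚ M := by
        rw [RingOfIntegers.coe_norm]
        have : ((p : NumberField.RingOfIntegers M) : M) = algebraMap ℚ M p := by simp
        rw [this, Algebra.norm_algebraMap]
      rw [h3] at h2
      have h4 : (1 : ℚ) < (p : ℚ) ^ Module.finrank ℚ M :=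
        one_lt_pow₀ (by exact_mod_cast hp.one_lt) Module.finrank_pos.ne'
      rw [abs_of_pos (by positivity)] at h2
      exact h4.ne' h2
    obtain ⟨I, hI, hpI⟩ := exists_max_ideal_of_mem_nonunits hnu
    refine ⟨⟨I, hI.isPrime, ?_⟩, hpI⟩
    rintro rfl
    have : (p : NumberField.RingOfIntegers M) = 0 := hpI
    exact hp.ne_zero (by exact_mod_cast this)
  have : Nonempty (HeightOneSpectrum (NumberField.RingOfIntegers M)) :=
    ⟨(h1 2 Nat.prime_two).choose⟩
  choose! L hL using h1
  -- L is injective on primes
  have hinj : Set.InjOn L {p : ℕ | p.Prime} := by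
    intro p hp q hq hpq
    by_contra hne
    have hcop : Nat.Coprime p q := (Nat.coprime_primes hp hq).2 hne
    have h2 : (p : NumberField.RingOfIntegers M) ∈ (L p).asIdeal := hL p hp
    have h3 : (q : NumberField.RingOfIntegers M) ∈ (L p).asIdeal := by
      rw [hpq]; exact hL q hq
    have h4 := Nat.isCoprime_iff_coprime.2 hcop
    obtain ⟨a, b, hab⟩ := h4
    have h5 : (1 : NumberField.RingOfIntegers M) ∈ (L p).asIdeal := by
      have : (1 : NumberField.RingOfIntegers M) =
          (a : NumberField.RingOfIntegers M) * p + b * q := by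
        have := congrArg (Int.cast : ℤ → NumberField.RingOfIntegers M) hab
        push_cast at this
        exact this.symm
      rw [this]
      exact Ideal.add_mem _ (Ideal.mul_mem_left _ _ h2) (Ideal.mul_mem_left _ _ h3)
    exact (L p).isPrime.ne_top ((Ideal.eq_top_iff_one _).2 h5)
  exact (Nat.infinite_setOfPred_prime.image hinj) (Set.toFinite _)

end nf

variable {k : Type} [Field k] [CharZero k] [IsAlgClosed k] [TopologicalSpace k]
  [IsTopologicalRing k] [T2Space k]
variable {G : Type} [Group G] [TopologicalSpace G] [IsTopologicalGroup G] {X : GaloisData G}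
variable {T : AVTheory k X} {F : OpenSubgroup G} {f : Newform k X F}

/-- For all places `v` in `R` not dividing `l`, the characteristic polynomial of Frobenius at `v`
on `f` divides the one on `B` modulo `l`. -/
def DividesAt {F : OpenSubgroup G} (f : Newform k X F) {K : OpenSubgroup G} (h : K ≤ F)
    (τ : f.M →+* k) (R : Set (X.Pl K)) (B : AbVar k X K)
    (l : HeightOneSpectrum (NumberField.RingOfIntegers f.M)) : Prop :=
  ∀ v ∈ R, (X.norm K v : NumberField.RingOfIntegers f.M) ∉ l.asIdeal → ∀ φ ∈ X.frob K v,
    DividesMod l τ (f.rep τ (incl h φ)).charpoly (B.gal φ).charpoly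

/-- there is an abelian variety `B` over `K` of dimension at most `n/2` with good reduction
outside `S` such that `DividesAt` holds for `B` and `l` -/
def ResidualAt (T : AVTheory k X) {F : OpenSubgroup G} (f : Newform k X F) {K : OpenSubgroup G}
    (h : K ≤ F) (τ : f.M →+* k) (S R : Set (X.Pl K)) (n : ℕ)
    (l : HeightOneSpectrum (NumberField.RingOfIntegers f.M)) : Prop :=
  ∃ B : AbVar k X K, T.isAV K B ∧ B.bad ⊆ S ∧ Module.finrank ℚ B.H ≤ n ∧ DividesAt f h τ R B l

/-- Residual condition: there are a finite extension `K` of `F`, a finite set `S` of places of `K`,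
a set `R` of places with dense Frobenius elements and a bound `n` such that `ResidualAt` holds for
infinitely many primes `l` of the coefficient field `M` of `f`. -/
def ResiduallyContained (T : AVTheory k X) {F : OpenSubgroup G} (f : Newform k X F) : Prop :=
  ∃ (K : OpenSubgroup G) (h : K ≤ F) (τ : f.M →+* k) (S R : Set (X.Pl K)) (n : ℕ), S.Finite ∧
    Dense (⋃ v ∈ R, X.frob K v) ∧ {l | ResidualAt T f h τ S R n l}.Infinite

lemma locallyDivides_of_residual (hn : ∀ (K : OpenSubgroup G) (v : X.Pl K), X.norm K v ≠ 0)
    (hf : ResiduallyContained T f) : LocallyDivides T f := by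
  classical
  obtain ⟨K, h, τ, S, R, n, hS, hR, hinf⟩ := hf
  obtain ⟨m, C, hC, hfin⟩ := T.shafarevich K S n hS
  -- pigeonhole
  obtain ⟨i, hi⟩ : ∃ i : Fin m, {l | DividesAt f h τ R (C i) l}.Infinite := by
    by_contra hcon
    push Not at hcon
    apply hinf
    refine (Set.finite_iUnion hcon).subset ?_
    rintro l ⟨B, hB, hbad, hdim, hdiv⟩
    obtain ⟨i, hi⟩ := hfin B hB hbad hdim
    refine Set.mem_iUnion.2 ⟨i, fun v hv hvl φ hφ => ?_⟩
    rw [← charpoly_repIso hi φ]
    exact hdiv v hv hvl φ hφ
  refine ⟨K, h, C i, τ, R, hC i, hR, fun v hv φ hφ => ?_⟩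
  rw [← Polynomial.modByMonic_eq_zero_iff_dvd (LinearMap.charpoly_monic _)]
  ext j
  rw [Polynomial.coeff_zero]
  -- the primes not dividing the norm of `v`
  have hN : (X.norm K v : NumberField.RingOfIntegers f.M) ≠ 0 := by
    exact_mod_cast hn K v
  have hinf2 := hi.sdiff (finite_primes_of_ne_zero hN)
  obtain ⟨l₀, hl₀, hl₀'⟩ := hinf2.nonempty
  obtain ⟨c, -, hc⟩ := hl₀ v hv hl₀' φ hφ j
  rw [hc]
  by_cases hc0 : c = 0
  · rw [hc0, map_zero]
  · exfalso
    apply hinf2
    refine (finite_valuation_lt hc0).subset ?_
    rintro l ⟨hl, hl'⟩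
    obtain ⟨c', hc', hcc'⟩ := hl v hv hl' φ hφ j
    have : c' = c := τ.injective (by rw [← hcc', hc])
    rw [← this]
    exact hc'

lemma residual_of_hasAf (hcm : NonCM f) (hf : HasAf T f) : ResiduallyContained T f := by
  obtain ⟨K, h, B, τ, hB, φ, h0, hφ⟩ := potentially_of_hasAf hf
  refine ⟨K, h, τ, B.bad, B.badᶜ, Module.finrank ℚ B.H, (T.good K B hB).bad_finite,
    X.chebotarev K B.bad (T.good K B hB).bad_finite, ?_⟩
  refine (infinite_primes f.M).mono ?_
  rintro l -
  refine ⟨B, hB, subset_rfl, le_rfl, fun v _ _ φ' _ i => ⟨0, ?_, ?_⟩⟩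
  · rw [map_zero]; exact zero_lt_one
  · rw [(Polynomial.modByMonic_eq_zero_iff_dvd (LinearMap.charpoly_monic _)).2
      (dvd_of_potentially hcm h hB h0 hφ φ'), Polynomial.coeff_zero, map_zero]

/-- The residual criterion. -/
theorem residual_criterion (hcm : NonCM f) (hM : HasAbelianMonodromy T)
    (hn : ∀ (K : OpenSubgroup G) (v : X.Pl K), X.norm K v ≠ 0) :
    HasAf T f ↔ ResiduallyContained T f :=
  ⟨residual_of_hasAf hcm, fun hf => hasAf_of_potentially T f (potentially_of_contained hcm hM
    (contained_of_locallyDivides (locallyDivides_of_residual hn hf)))⟩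

end Pool.Agent.Helper26.AF
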