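import Pool.Agent.Helper26.AF.Defs
import Pool.Agent.Helper26.AF.Lie
import Pool.Agent.Helper26.AF.Potential

/-! The conditions of the characterisation theorem. -/

open scoped TensorProduct

set_option linter.unusedSectionVars false

namespace Pool.Agent.Helper26.AF

variable {k : Type} [Field k] [CharZero k] [TopologicalSpace k]
variable {G : Type} [Group G] [TopologicalSpace G] {X : GaloisData G}

section generic

variable {K : OpenSubgroup G} {V W : Type} [AddCommGroup V] [Module k V] [AddCommGroup W]
  [Module k W]

/-- on some open subgroup, the elements acting trivially in `ρ` act as scalars in `σ` -/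
def ScalarOnKernel (ρ : Representation k K V) (σ : Representation k K W) : Prop :=
  ∃ U : OpenSubgroup G, ∀ g : K, (g : G) ∈ U → ρ g = 1 → ∃ c : k, σ g = c • 1

/-- the subspace `P` of `V × W` is stable under an open subgroup -/
def VirtStable (ρ : Representation k K V) (σ : Representation k K W)
    (P : Submodule k (V × W)) : Prop :=
  ∃ U : OpenSubgroup G, ∀ g : K, (g : G) ∈ U → ∀ p ∈ P, (ρ g p.1, σ g p.2) ∈ P

variable {L : Type} [LieRing L] [LieAlgebra k L]

/-- the subspace `P` of `V × W` is stable under the Lie algebra `L` -/
def LieStable (onV : L →ₗ[k] Module.End k V) (onW : L →ₗ[k] Module.End k W)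
    (P : Submodule k (V × W)) : Prop :=
  ∀ x : L, ∀ p ∈ P, (onV x p.1, onW x p.2) ∈ P

/-- `L` is generated, as an ideal, by its elements acting on `V` as idempotents and on `W` as
idempotents of rank one -/
def CocharGenerated (onV : L →ₗ[k] Module.End k V) (onW : L →ₗ[k] Module.End k W) : Prop :=
  ∀ I : LieIdeal k L, (∀ x, onV x * onV x = onV x → onW x * onW x = onW x →
    LinearMap.trace k W (onW x) = 1 → x ∈ I) → I = ⊤

end generic

/-- The Lie algebra `L` (coefficients extended to `k`) of the image of the Galois group of `K` in
`GL(V) × GL(W)`, acting on `V` and `W`: a subspace of `V × W` stable under `L` is stable under an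
open subgroup; `L` is reductive; if the elements of an open subgroup acting trivially on `V` are
scalar on `W`, then so are those of `L`; and `L` is generated, as an ideal, by its elements acting
on `V` as idempotents and on `W` as idempotents of rank one (Hodge-Tate cocharacters). -/
structure MonodromyLie (K : OpenSubgroup G) {V W : Type} [AddCommGroup V] [Module k V]
    [AddCommGroup W] [Module k W] (ρ : Representation k K V) (σ : Representation k K W) where
  L : Type
  [ring : LieRing L]
  [alg : LieAlgebra k L]
  onV : L →ₗ[k] Module.End k V
  onW : L →ₗ[k] Module.End k W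
  lieV : IsLieRep onV
  lieW : IsLieRep onW
  stable : ∀ P : Submodule k (V × W), LieStable onV onW P → VirtStable ρ σ P
  reductive : ∀ I : LieIdeal k L, ∃ J : LieIdeal k L, IsCompl I J
  kernel : ScalarOnKernel ρ σ → ∀ x, onV x = 0 → ∃ c : k, onW x = c • 1
  generated : CocharGenerated onV onW

attribute [instance] MonodromyLie.ring MonodromyLie.alg

/-- `f` has no complex multiplication: its representations stay irreducible on every open
subgroup. -/
def NonCM {F : OpenSubgroup G} (f : Newform k X F) : Prop :=
  ∀ (τ : f.M →+* k) (K : OpenSubgroup G) (h : K ≤ F), (res h (f.rep τ)).IsIrreducible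

/-- The monodromy Lie algebras of `f` together with any abelian variety exist. -/
def HasLie (T : AVTheory k X) {F : OpenSubgroup G} (f : Newform k X F) : Prop :=
  ∀ (K : OpenSubgroup G) (h : K ≤ F) (B : AbVar k X K) (τ : f.M →+* k), T.isAV K B →
    Nonempty (MonodromyLie K B.gal (res h (f.rep τ)))

/-- Torsion field condition: for some abelian variety `B` over a finite extension `K` of `F`, the
elements of an open subgroup acting trivially on the Tate module of `B` are scalar in the
representation of `f`; i.e. the field cut out by the projective representation of `f` is contained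
in a finite extension of the field of `ℓ`-power torsion points of `B`. -/
def InTorsionField (T : AVTheory k X) {F : OpenSubgroup G} (f : Newform k X F) : Prop :=
  ∃ (K : OpenSubgroup G) (h : K ≤ F) (B : AbVar k X K) (τ : f.M →+* k),
    T.isAV K B ∧ ScalarOnKernel B.gal (res h (f.rep τ))

/-- Local condition: for some abelian variety `B` over a finite extension `K` of `F`, at all places
`v` of a set with dense Frobenius elements, the characteristic polynomial of Frobenius on `f`
divides the one on `B` (the local abelian variety of `f` is an isogeny factor of `B mod v`). -/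
def LocallyDivides (T : AVTheory k X) {F : OpenSubgroup G} (f : Newform k X F) : Prop :=
  ∃ (K : OpenSubgroup G) (h : K ≤ F) (B : AbVar k X K) (τ : f.M →+* k) (S : Set (X.Pl K)),
    T.isAV K B ∧ Dense (⋃ v ∈ S, X.frob K v) ∧
      ∀ v ∈ S, ∀ φ ∈ X.frob K v, (f.rep τ (incl h φ)).charpoly ∣ (B.gal φ).charpoly

/-- Approximation: there are a finite extension `K` of `F`, a finite set `S` of places of `K` and a
bound `n` such that for every finite set `R` of places outside `S` and every neighbourhood `N` of
`0` there is an abelian variety `B` over `K` of dimension at most `n/2` with good reduction outside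
`S` such that at the places of `R` the remainder of the division of the characteristic polynomial
of Frobenius on `B` by the one on `f` has coefficients in `N`. -/
def Approximable (T : AVTheory k X) {F : OpenSubgroup G} (f : Newform k X F) : Prop :=
  ∃ (K : OpenSubgroup G) (h : K ≤ F) (τ : f.M →+* k) (S : Set (X.Pl K)) (n : ℕ), S.Finite ∧
    ∀ R : Finset (X.Pl K), (∀ v ∈ R, v ∉ S) → ∀ N ∈ nhds (0 : k), ∃ B : AbVar k X K,
      T.isAV K B ∧ B.bad ⊆ S ∧ Module.finrank ℚ B.H ≤ n ∧
      ∀ v ∈ R, ∀ φ ∈ X.frob K v, ∀ i,
        ((B.gal φ).charpoly %ₘ (f.rep τ (incl h φ)).charpoly).coeff i ∈ N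

/-- `Φ` intertwines the tensor product of `θ` and `σ` with the `n`-th tensor power of `ρ` -/
def Intertwines {Γ U V W : Type} [Group Γ] [AddCommGroup U] [Module k U] [AddCommGroup V]
    [Module k V] [AddCommGroup W] [Module k W] (θ : Representation k Γ W)
    (σ : Representation k Γ U) (ρ : Representation k Γ V) (n : ℕ)
    (Φ : (W ⊗[k] U) →ₗ[k] (⨂[k] (_ : Fin n), V)) : Prop :=
  ∀ g : Γ, Φ ∘ₗ TensorProduct.map (θ g) (σ g) = PiTensorProduct.map (fun _ => ρ g) ∘ₗ Φ

/-- the tensor product of `θ` with some nonzero representation embeds in a tensor power of `ρ` -/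
def OccursInTensor {Γ V W : Type} [Group Γ] [AddCommGroup V] [Module k V] [AddCommGroup W]
    [Module k W] (θ : Representation k Γ W) (ρ : Representation k Γ V) : Prop :=
  ∃ (n : ℕ) (r : ℕ) (σ : Representation k Γ (Fin (r + 1) → k))
    (Φ : (W ⊗[k] (Fin (r + 1) → k)) →ₗ[k] (⨂[k] (_ : Fin n), V)), Function.Injective Φ ∧
      Intertwines θ σ ρ n Φ

/-- Tensor condition: for some abelian variety `B` over a finite extension `K` of `F` and some
nonzero representation `σ` of the Galois group of `K`, the tensor product of (a conjugate of) the
representation of `f` with `σ` embeds in a tensor power of the Tate module of `B`. -/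
def TensorOccurs (T : AVTheory k X) {F : OpenSubgroup G} (f : Newform k X F) : Prop :=
  ∃ (K : OpenSubgroup G) (h : K ≤ F) (B : AbVar k X K) (τ : f.M →+* k),
    T.isAV K B ∧ OccursInTensor (res h (f.rep τ)) B.gal

end Pool.Agent.Helper26.AF
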